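import Pool.Agent.W880.GY.Stm

/-!
Part A3: distance of powers.
-/

namespace Pool.Agent.W880.GY

open Pool.Agent.W660.FL Pool.Agent.W660.GY

namespace A3

theorem nonneg {G : Type} [Group G] [TopologicalSpace G] {ν : G → ℝ} (h : IsGleason ν) (g : G) :
    0 ≤ ν g := by
  by_cases hg : g = 1
  · rw [hg, h.one]
  · exact (h.pos g hg).le

theorem pow_le {G : Type} [Group G] [TopologicalSpace G] {ν : G → ℝ} (h : IsGleason ν) (g : G)
    (n : ℕ) : ν (g ^ n) ≤ n * ν g := by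
  induction n with
  | zero => simp [h.one]
  | succ n ih =>
    rw [pow_succ]
    push_cast
    have := h.mul (g ^ n) g
    linarith

end A3

open A3 in
theorem t_A3 : S_A2 → S_A3 := by
  intro hA2 G _ _ _ ν hν
  obtain ⟨ε0, hε0, K0, hK0, hA⟩ := hA2 G ν hν
  obtain ⟨C, hC, hesc⟩ := hν.escape
  have hCK : 0 < 1 / (2 * C * K0) := by positivity
  have h1C : 0 < 1 / C := by positivity
  refine ⟨min (ε0 / 2) (min (1 / C) (1 / (2 * C * K0))), by positivity,
    2 * C + 1 + K0 * (1 / (2 * C * K0)), by positivity, ?_⟩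
  intro g h n hn
  have hn1 : (n : ℝ) * (ν g + ν h) ≤ ε0 / 2 := hn.trans (min_le_left _ _)
  have hn2 : (n : ℝ) * (ν g + ν h) ≤ 1 / C := hn.trans ((min_le_right _ _).trans (min_le_left _ _))
  have hn3 : (n : ℝ) * (ν g + ν h) ≤ 1 / (2 * C * K0) :=
    hn.trans ((min_le_right _ _).trans (min_le_right _ _))
  have hg0 := nonneg hν g
  have hh0 := nonneg hν h
  set k := g⁻¹ * h with hk
  have hgk : g * k = h := by rw [hk]; group
  have hk0 := nonneg hν k
  have hnn : (0 : ℝ) ≤ n := Nat.cast_nonneg n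
  have hkle : ν k ≤ ν g + ν h := by
    have := hν.mul g⁻¹ h
    rw [hν.inv] at this
    exact this
  have hnk : (n : ℝ) * ν k ≤ n * (ν g + ν h) := mul_le_mul_of_nonneg_left hkle hnn
  have hng : (n : ℝ) * ν g ≤ n * (ν g + ν h) :=
    mul_le_mul_of_nonneg_left (by linarith) hnn
  have hr := hA g k n (by
    have : (n : ℝ) * (ν g + ν k) = n * ν g + n * ν k := by ring
    rw [this]; linarith)
  rw [hgk] at hr
  set r := (g ^ n * k ^ n)⁻¹ * h ^ n with hrdef
  have e1 : (g ^ n)⁻¹ * h ^ n = k ^ n * r := by rw [hrdef]; group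
  have e2 : k ^ n = (g ^ n)⁻¹ * h ^ n * r⁻¹ := by rw [e1]; group
  have hr' : ν r ≤ K0 * (1 / (2 * C * K0)) * (n * ν k) := by
    have h1 : K0 * (n : ℝ) ^ 2 * ν g * ν k = K0 * (n * ν g) * (n * ν k) := by ring
    rw [h1] at hr
    refine hr.trans ?_
    have : (n : ℝ) * ν g ≤ 1 / (2 * C * K0) := hng.trans hn3
    gcongr
  have hCC : C * (K0 * (1 / (2 * C * K0))) = 1 / 2 := by
    field_simp
  constructor
  · have h1 := hesc k n (hnk.trans hn2)
    have h2 : ν (k ^ n) ≤ ν ((g ^ n)⁻¹ * h ^ n) + ν r := by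
      have := hν.mul ((g ^ n)⁻¹ * h ^ n) r⁻¹
      rw [← e2, hν.inv] at this
      exact this
    have h3 : C * ν (k ^ n) ≤ C * (ν ((g ^ n)⁻¹ * h ^ n) + K0 * (1 / (2 * C * K0)) * (n * ν k)) := by
      gcongr
      exact h2.trans (by linarith)
    have h4 : C * (ν ((g ^ n)⁻¹ * h ^ n) + K0 * (1 / (2 * C * K0)) * (n * ν k)) =
        C * ν ((g ^ n)⁻¹ * h ^ n) + 1 / 2 * (n * ν k) := by
      rw [mul_add, ← mul_assoc C, hCC]
    have h5 : (n : ℝ) * ν k ≤ 2 * C * ν ((g ^ n)⁻¹ * h ^ n) := by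
      rw [h4] at h3
      linarith
    refine h5.trans ?_
    have h0 := nonneg hν ((g ^ n)⁻¹ * h ^ n)
    have : 0 ≤ K0 * (1 / (2 * C * K0)) := by positivity
    nlinarith
  · have h1 : ν ((g ^ n)⁻¹ * h ^ n) ≤ ν (k ^ n) + ν r := by
      rw [e1]; exact hν.mul _ _
    have h2 := pow_le hν k n
    have h3 : ν ((g ^ n)⁻¹ * h ^ n) ≤ (1 + K0 * (1 / (2 * C * K0))) * (n * ν k) := by
      linarith
    refine h3.trans ?_
    have : 0 ≤ (n : ℝ) * ν k := by positivity
    nlinarith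

end Pool.Agent.W880.GY
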