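import Pool.Agent.W880.GY.Stm

/-!
Part AD of project GY1: the adjoint representation.
-/

set_option autoImplicit false

namespace Pool.Agent.W880.GY

open Pool.Agent.W660.FL Pool.Agent.W660.GY
open Filter Topology

namespace AD

variable {G : Type} [Group G] [TopologicalSpace G] {E : Type} [NormedAddCommGroup E]
  [NormedSpace ℝ E]

theorem small (δ : ℝ) (hδ : 0 < δ) (u : E) :
    ∀ᶠ t : ℝ in 𝓝[>] 0, ‖t • u‖ < δ := by
  have h1 : Tendsto (fun t : ℝ => ‖t • u‖) (𝓝[>] 0) (𝓝 0) := by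
    have : Tendsto (fun t : ℝ => ‖t • u‖) (𝓝 0) (𝓝 ‖(0 : ℝ) • u‖) :=
      (Continuous.tendsto (by fun_prop) 0)
    rw [zero_smul, norm_zero] at this
    exact this.mono_left nhdsWithin_le_nhds
  exact h1.eventually_lt_const hδ

/-- The derivative at `0` of the product of two one-parameter groups. -/
theorem quot (C : CS G E) (u v : E) :
    Tendsto (fun t : ℝ => t⁻¹ • C.κ (C.e (t • u) * C.e (t • v))) (𝓝[>] 0) (𝓝 (u + v)) := by
  obtain ⟨δ, hδ, K, hK, h⟩ := C.est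
  rw [tendsto_iff_norm_sub_tendsto_zero]
  have hlim : Tendsto (fun t : ℝ => K * t * ‖u‖ * ‖v‖) (𝓝[>] 0) (𝓝 0) := by
    have : Tendsto (fun t : ℝ => K * t * ‖u‖ * ‖v‖) (𝓝 0) (𝓝 (K * 0 * ‖u‖ * ‖v‖)) :=
      (Continuous.tendsto (by fun_prop) 0)
    rw [mul_zero, zero_mul, zero_mul] at this
    exact this.mono_left nhdsWithin_le_nhds
  refine squeeze_zero' (Eventually.of_forall fun t => norm_nonneg _) ?_ hlim
  filter_upwards [small δ hδ u, small δ hδ v, self_mem_nhdsWithin] with t h1 h2 ht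
  have ht0 : (0 : ℝ) < t := ht
  have h3 := (h (t • u) (t • v) h1 h2).2
  have e1 : t⁻¹ • C.κ (C.e (t • u) * C.e (t • v)) - (u + v) =
      t⁻¹ • (C.κ (C.e (t • u) * C.e (t • v)) - (t • u + t • v)) := by
    rw [smul_sub, ← smul_add, smul_smul, inv_mul_cancel₀ ht0.ne', one_smul]
  rw [e1, norm_smul, norm_inv, Real.norm_eq_abs, abs_of_pos ht0]
  rw [norm_smul, norm_smul, Real.norm_eq_abs, abs_of_pos ht0] at h3
  calc t⁻¹ * ‖C.κ (C.e (t • u) * C.e (t • v)) - (t • u + t • v)‖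
      ≤ t⁻¹ * (K * (t * ‖u‖) * (t * ‖v‖)) :=
        mul_le_mul_of_nonneg_left h3 (inv_nonneg.mpr ht0.le)
    _ = K * t * ‖u‖ * ‖v‖ := by field_simp

theorem additive (C : CS G E) (A : G → E → E)
    (h1 : ∀ g x, g * C.e x * g⁻¹ = C.e (A g x))
    (h2 : ∀ g (s : ℝ) x, A g (s • x) = s • A g x) (h5 : ∀ g, Continuous (A g))
    (g : G) (x y : E) : A g (x + y) = A g x + A g y := by
  obtain ⟨δ, hδ, K, hK, h⟩ := C.est
  have hA0 : A g 0 = 0 := by
    have := h2 g 0 0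
    rwa [zero_smul, zero_smul] at this
  set z : ℝ → E := fun t => C.κ (C.e (t • x) * C.e (t • y)) with hz
  have q1 : Tendsto (fun t : ℝ => t⁻¹ • z t) (𝓝[>] 0) (𝓝 (x + y)) := quot C x y
  have q2 := quot C (A g x) (A g y)
  -- `z t → 0`
  have hz0 : Tendsto z (𝓝[>] 0) (𝓝 0) := by
    have ht : Tendsto (fun t : ℝ => t) (𝓝[>] (0 : ℝ)) (𝓝 0) := nhdsWithin_le_nhds
    have h3 := ht.smul q1
    rw [zero_smul] at h3
    refine h3.congr' ?_
    filter_upwards [self_mem_nhdsWithin] with t ht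
    have ht0 : (0 : ℝ) < t := ht
    rw [smul_smul, mul_inv_cancel₀ ht0.ne', one_smul]
  have hAz : Tendsto (fun t => A g (z t)) (𝓝[>] 0) (𝓝 0) := by
    have := ((h5 g).tendsto 0).comp hz0
    rwa [hA0] at this
  have h0t : (0 : E) ∈ C.κ.target := by
    rw [← C.map_one]
    exact C.κ.map_source C.one_mem
  have htar : ∀ᶠ t : ℝ in 𝓝[>] 0, A g (z t) ∈ C.κ.target :=
    hAz.eventually (C.κ.open_target.mem_nhds h0t)
  have q3 : Tendsto (fun t : ℝ => A g (t⁻¹ • z t)) (𝓝[>] 0) (𝓝 (A g (x + y))) :=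
    ((h5 g).tendsto (x + y)).comp q1
  refine tendsto_nhds_unique q3 (q2.congr' ?_)
  filter_upwards [small δ hδ x, small δ hδ y, htar] with t a1 a2 a3
  have hs := (h (t • x) (t • y) a1 a2).1
  have e1 : C.e (z t) = C.e (t • x) * C.e (t • y) := by
    rw [← C.symm]
    exact C.κ.left_inv hs
  have e2 : C.e (A g (z t)) = C.e (t • A g x) * C.e (t • A g y) := by
    rw [← h1, e1, ← h2, ← h2, ← h1, ← h1]
    group
  have e3 : C.κ (C.e (A g (z t))) = A g (z t) := by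
    rw [← C.symm]
    exact C.κ.right_inv a3
  rw [h2, ← e3, e2]

end AD

theorem t_AD : S_AD1 → S_AD := by
  intro h G _ _ _ E _ _ _ C
  obtain ⟨A, h1, h2, h3, h4, h5⟩ := h G E C
  refine ⟨{
    toFun := fun g =>
      { toFun := A g
        map_add' := AD.additive C A h1 h2 h5 g
        map_smul' := h2 g
        cont := h5 g }
    map_one' := ?_
    map_mul' := ?_ }, ?_⟩
  · ext x
    exact h4 x
  · intro g g'
    ext x
    exact h3 g g' x
  · intro g x
    exact h1 g x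

end Pool.Agent.W880.GY
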