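import Pool.Agent.W880.GY.Stm

/-!
Part AD1: conjugation in the exponential chart is homogeneous and continuous.
-/

set_option autoImplicit false

namespace Pool.Agent.W880.GY

open Pool.Agent.W660.FL Pool.Agent.W660.GY
open Filter Topology
open scoped Manifold ContDiff

namespace AD1

variable {G : Type} [Group G] [TopologicalSpace G] [IsTopologicalGroup G] {E : Type}
  [NormedAddCommGroup E] [NormedSpace ℝ E]

/-- existence of the conjugated vector -/
theorem exists_conj (C : CS G E) (g : G) (x : E) :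
    ∃ y : E, ∀ t : ℝ, g * C.e (t • x) * g⁻¹ = C.e (t • y) := by
  have h := C.one x
  have h1 : IsOne (fun t : ℝ => g * C.e (t • x) * g⁻¹) := by
    refine ⟨(continuous_const.mul h.1).mul continuous_const, ?_⟩
    intro s t
    have h2 : C.e ((s + t) • x) = C.e (s • x) * C.e (t • x) := h.2 s t
    change g * C.e ((s + t) • x) * g⁻¹ = (g * C.e (s • x) * g⁻¹) * (g * C.e (t • x) * g⁻¹)
    rw [h2]
    group
  exact C.surj _ h1

/-- the conjugated vector -/
noncomputable def A (C : CS G E) (g : G) (x : E) : E := (exists_conj C g x).choose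

theorem A_spec (C : CS G E) (g : G) (x : E) (t : ℝ) :
    g * C.e (t • x) * g⁻¹ = C.e (t • A C g x) := (exists_conj C g x).choose_spec t

theorem A_unique (C : CS G E) (g : G) (x y : E)
    (h : ∀ t : ℝ, g * C.e (t • x) * g⁻¹ = C.e (t • y)) : A C g x = y :=
  C.inj _ _ fun t => by rw [← A_spec, h]

theorem A_one_spec (C : CS G E) (g : G) (x : E) : g * C.e x * g⁻¹ = C.e (A C g x) := by
  have := A_spec C g x 1
  simpa using this

theorem A_smul (C : CS G E) (g : G) (s : ℝ) (x : E) : A C g (s • x) = s • A C g x := by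
  refine A_unique C g _ _ fun t => ?_
  rw [smul_smul, smul_smul, A_spec]

theorem A_mul (C : CS G E) (g h : G) (x : E) : A C (g * h) x = A C g (A C h x) := by
  refine A_unique C _ _ _ fun t => ?_
  rw [← A_spec, ← A_spec]
  group

theorem A_one (C : CS G E) (x : E) : A C 1 x = x := by
  refine A_unique C _ _ _ fun t => ?_
  simp

omit [IsTopologicalGroup G] in
theorem e_zero (C : CS G E) : C.e 0 = 1 := by
  have h := (C.one 0).2 0 0
  simp only [smul_zero] at h
  exact left_eq_mul.1 h

omit [IsTopologicalGroup G] in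
theorem zero_mem (C : CS G E) : (0 : E) ∈ C.κ.target := by
  have := C.κ.map_source C.one_mem
  rwa [C.map_one] at this

omit [IsTopologicalGroup G] in
theorem e_contAt (C : CS G E) {x : E} (hx : x ∈ C.κ.target) : ContinuousAt C.e x := by
  have h := C.κ.continuousAt_symm hx
  have h2 : (C.κ.symm : E → G) = C.e := funext C.symm
  rwa [h2] at h

end AD1

open AD1 in
theorem t_AD1 : S_KEY → S_AD1 := by
  intro hK G _ _ _ E _ _ _ C
  obtain ⟨δ₀, hδ₀, hball, hkey⟩ := hK G E C
  refine ⟨A C, A_one_spec C, A_smul C, A_mul C, A_one C, fun g => ?_⟩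
  -- continuity near zero
  have hc0 : ContinuousAt (fun x : E => g * C.e x * g⁻¹) 0 :=
    ((continuousAt_const.mul (e_contAt C (zero_mem C))).mul continuousAt_const)
  have h00 : g * C.e 0 * g⁻¹ = 1 := by rw [e_zero]; group
  have hsrc : ∀ᶠ x : E in 𝓝 0, g * C.e x * g⁻¹ ∈ C.κ.source := by
    apply hc0.eventually_mem
    rw [h00]
    exact C.κ.open_source.mem_nhds C.one_mem
  have hκ : Tendsto (fun x : E => C.κ (g * C.e x * g⁻¹)) (𝓝 0) (𝓝 0) := by
    have h1 : ContinuousAt C.κ (g * C.e 0 * g⁻¹) := by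
      rw [h00]; exact C.κ.continuousAt C.one_mem
    have h2 : ContinuousAt (fun x : E => C.κ (g * C.e x * g⁻¹)) 0 :=
      ContinuousAt.comp (f := fun x : E => g * C.e x * g⁻¹) (g := C.κ) h1 hc0
    have h3 := h2.tendsto
    rw [h00, C.map_one] at h3
    exact h3
  have htgt : ∀ᶠ x : E in 𝓝 0, x ∈ C.κ.target := C.κ.open_target.mem_nhds (zero_mem C)
  have hsm : ∀ᶠ x : E in 𝓝 0, ‖C.κ (g * C.e x * g⁻¹)‖ < δ₀ := by
    have := hκ.eventually (Metric.ball_mem_nhds (0 : E) hδ₀)
    filter_upwards [this] with x hx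
    simpa using hx
  obtain ⟨ρ, hρ, hall⟩ := Metric.eventually_nhds_iff_ball.1 ((hsrc.and hsm).and htgt)
  have hall' : ∀ x : E, ‖x‖ < ρ → (g * C.e x * g⁻¹ ∈ C.κ.source ∧
      ‖C.κ (g * C.e x * g⁻¹)‖ < δ₀) ∧ x ∈ C.κ.target := fun x hx =>
    hall x (by simpa using hx)
  have hid : ∀ x : E, ‖x‖ < ρ → A C g x = C.κ (g * C.e x * g⁻¹) := by
    intro x hx
    have hA : ‖A C g x‖ < δ₀ := by
      apply hkey δ₀ hδ₀ le_rfl
      intro k
      have hk : ‖(1 / 2 : ℝ) ^ k • x‖ < ρ := by
        rw [norm_smul, norm_pow]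
        have h1 : ‖(1 / 2 : ℝ)‖ ^ k ≤ 1 := by
          apply pow_le_one₀ (norm_nonneg _)
          rw [Real.norm_eq_abs, abs_of_pos] <;> norm_num
        calc ‖(1 / 2 : ℝ)‖ ^ k * ‖x‖ ≤ 1 * ‖x‖ :=
              mul_le_mul_of_nonneg_right h1 (norm_nonneg _)
          _ < ρ := by rwa [one_mul]
      refine ⟨C.κ (g * C.e ((1 / 2 : ℝ) ^ k • x) * g⁻¹), (hall' _ hk).1.2, ?_⟩
      have h5 := C.κ.left_inv (hall' _ hk).1.1
      rw [C.symm] at h5
      rw [← A_spec]
      exact h5.symm
    have hmem : A C g x ∈ C.κ.target := hball (by simpa using hA)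
    have h1 : C.κ (C.κ.symm (A C g x)) = A C g x := C.κ.right_inv hmem
    rw [C.symm, ← A_one_spec] at h1
    exact h1.symm
  have hcont : ∀ x : E, ‖x‖ < ρ → ContinuousAt (A C g) x := by
    intro x hx
    have h1 : ContinuousAt (fun x : E => C.κ (g * C.e x * g⁻¹)) x := by
      have h2 : ContinuousAt (fun x : E => g * C.e x * g⁻¹) x :=
        ((continuousAt_const.mul (e_contAt C (hall' x hx).2)).mul continuousAt_const)
      exact ContinuousAt.comp (f := fun x : E => g * C.e x * g⁻¹) (g := C.κ)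
        (C.κ.continuousAt (hall' x hx).1.1) h2
    refine h1.congr ?_
    have h3 : ∀ᶠ y : E in 𝓝 x, ‖y‖ < ρ := by
      have : Metric.ball (0 : E) ρ ∈ 𝓝 x := Metric.isOpen_ball.mem_nhds (by simpa using hx)
      filter_upwards [this] with y hy
      simpa using hy
    filter_upwards [h3] with y hy
    exact (hid y hy).symm
  rw [continuous_iff_continuousAt]
  intro x
  -- scale x into the ball
  obtain ⟨s, hs, hsx⟩ : ∃ s : ℝ, 0 < s ∧ ‖s • x‖ < ρ := by
    refine ⟨ρ / (2 * (‖x‖ + 1)), by positivity, ?_⟩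
    have hx0 : 0 ≤ ‖x‖ := norm_nonneg x
    rw [norm_smul, Real.norm_eq_abs, abs_of_pos (by positivity), div_mul_eq_mul_div,
      div_lt_iff₀ (by positivity)]
    nlinarith
  have h1 : ContinuousAt (fun y : E => s⁻¹ • A C g (s • y)) x := by
    have h2 : ContinuousAt (fun y : E => A C g (s • y)) x :=
      ContinuousAt.comp (f := fun y : E => s • y) (g := A C g) (hcont _ hsx)
        (continuous_const_smul s).continuousAt
    exact h2.const_smul s⁻¹
  refine h1.congr (Eventually.of_forall fun y => ?_)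
  simp only
  rw [A_smul, smul_smul, inv_mul_cancel₀ hs.ne', one_smul]

end Pool.Agent.W880.GY
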