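import Pool.Agent.W880.GY.Stm

/-!
Part AO: `Ad (exp x) = 1 + O(|x|)`.
-/

set_option autoImplicit false

namespace Pool.Agent.W880.GY

open Pool.Agent.W660.FL Pool.Agent.W660.GY
open Filter Topology

namespace AOaux

variable {G : Type} [Group G] [TopologicalSpace G] [IsTopologicalGroup G] {E : Type}
  [NormedAddCommGroup E] [NormedSpace ℝ E]

theorem e_neg (C : CS G E) (x : E) : C.e (-x) = (C.e x)⁻¹ := by
  have h := C.one x
  have h1 : C.e (((1 : ℝ) + (-1)) • x) = C.e ((1 : ℝ) • x) * C.e ((-1 : ℝ) • x) := h.2 1 (-1)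
  have h0 : C.e ((0 : ℝ) • x) = 1 := by
    have h2 : C.e (((0 : ℝ) + 0) • x) = C.e ((0 : ℝ) • x) * C.e ((0 : ℝ) • x) := h.2 0 0
    rw [add_zero] at h2
    simpa using h2
  rw [one_smul, neg_one_smul, add_neg_cancel, h0] at h1
  exact (inv_eq_of_mul_eq_one_right h1.symm).symm

theorem e_left_inv (C : CS G E) {g : G} (hg : g ∈ C.κ.source) : C.e (C.κ g) = g := by
  rw [← C.symm, C.κ.left_inv hg]

/-- the conjugate in the chart -/
theorem conj_est (C : CS G E) {δ K : ℝ} (hK : 0 < K)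
    (est : ∀ x y : E, ‖x‖ < δ → ‖y‖ < δ →
      C.e x * C.e y ∈ C.κ.source ∧ ‖C.κ (C.e x * C.e y) - (x + y)‖ ≤ K * ‖x‖ * ‖y‖)
    {ρ : ℝ} (hρ0 : 0 < ρ) (h1 : 4 * ρ ≤ δ) (h2 : K * ρ ≤ 1) {x y : E} (hx : ‖x‖ ≤ ρ)
    (hy : ‖y‖ ≤ ρ) :
    ∃ u : E, C.e u = C.e x * C.e y * (C.e x)⁻¹ ∧ ‖u - y‖ ≤ K * ‖x‖ * (‖x‖ + 3 * ‖y‖) := by
  obtain ⟨hs, he⟩ := est x y (by linarith) (by linarith)
  set z := C.κ (C.e x * C.e y) with hz
  have hx0 := norm_nonneg x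
  have hy0 := norm_nonneg y
  have hKx : K * ‖x‖ ≤ 1 := (mul_le_mul_of_nonneg_left hx hK.le).trans h2
  have hzn : ‖z‖ ≤ ‖x‖ + 2 * ‖y‖ := by
    have h3 : ‖z‖ ≤ ‖z - (x + y)‖ + ‖x + y‖ := by
      have := norm_add_le (z - (x + y)) (x + y)
      simpa using this
    have h4 := norm_add_le x y
    have h5 : K * ‖x‖ * ‖y‖ ≤ 1 * ‖y‖ := mul_le_mul_of_nonneg_right hKx hy0
    linarith
  obtain ⟨hs2, he2⟩ := est z (-x) (by linarith) (by rw [norm_neg]; linarith)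
  refine ⟨C.κ (C.e z * C.e (-x)), ?_, ?_⟩
  · rw [e_left_inv C hs2, e_neg, hz, e_left_inv C hs]
  · rw [norm_neg] at he2
    set u := C.κ (C.e z * C.e (-x)) with hu
    have h6 : u - y = (u - (z + -x)) + (z - (x + y)) := by abel
    rw [h6]
    refine (norm_add_le _ _).trans ?_
    have h7 : K * ‖z‖ * ‖x‖ ≤ K * (‖x‖ + 2 * ‖y‖) * ‖x‖ := by gcongr
    nlinarith

end AOaux

open AOaux in
theorem t_AO : S_KEY → S_AO := by
  intro hkey G _ _ _ E _ _ _ C Ad hAd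
  obtain ⟨δ₀, hδ₀, htar, hk⟩ := hkey G E C
  obtain ⟨δ, hδ, K, hK, est⟩ := C.est
  set ρ : ℝ := min (δ / 4) (min (1 / K) (δ₀ / 6)) with hρ
  have hρ0 : 0 < ρ := by
    rw [hρ]
    refine lt_min (by linarith) (lt_min (by positivity) (by linarith))
  have hρ1 : 4 * ρ ≤ δ := by
    have := min_le_left (δ / 4) (min (1 / K) (δ₀ / 6))
    rw [← hρ] at this
    linarith
  have hρ2 : K * ρ ≤ 1 := by
    have h1 : ρ ≤ 1 / K := (min_le_right _ _).trans (min_le_left _ _)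
    have h2 := mul_le_mul_of_nonneg_left h1 hK.le
    rwa [mul_one_div_cancel hK.ne'] at h2
  have hρ3 : 6 * ρ ≤ δ₀ := by
    have h1 : ρ ≤ δ₀ / 6 := (min_le_right _ _).trans (min_le_right _ _)
    linarith
  have main : ∀ x y : E, ‖x‖ ≤ ρ → ‖y‖ ≤ ρ →
      ‖Ad (C.e x) y - y‖ ≤ K * ‖x‖ * (‖x‖ + 3 * ‖y‖) := by
    intro x y hx hy
    have hsmall : ∀ k : ℕ, ∃ z : E, ‖z‖ < δ₀ ∧
        C.e ((1 / 2 : ℝ) ^ k • (Ad (C.e x) y)) = C.e z := by
      intro k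
      have hyk : ‖(1 / 2 : ℝ) ^ k • y‖ ≤ ρ := by
        rw [norm_smul, norm_pow]
        have h1 : ‖(1 / 2 : ℝ)‖ ^ k ≤ 1 := pow_le_one₀ (norm_nonneg _) (by norm_num)
        calc _ ≤ 1 * ‖y‖ := mul_le_mul_of_nonneg_right h1 (norm_nonneg _)
          _ ≤ ρ := by linarith
      obtain ⟨u, hu, hun⟩ := conj_est C hK est hρ0 hρ1 hρ2 hx hyk
      refine ⟨u, ?_, ?_⟩
      · have h1 : ‖u‖ ≤ ‖u - (1 / 2 : ℝ) ^ k • y‖ + ‖(1 / 2 : ℝ) ^ k • y‖ := by
          have := norm_add_le (u - (1 / 2 : ℝ) ^ k • y) ((1 / 2 : ℝ) ^ k • y)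
          simpa using this
        have h2 : K * ‖x‖ * (‖x‖ + 3 * ‖(1 / 2 : ℝ) ^ k • y‖) ≤ 1 * (ρ + 3 * ρ) := by
          refine mul_le_mul ((mul_le_mul_of_nonneg_left hx hK.le).trans hρ2) (by linarith)
            (by positivity) zero_le_one
        linarith
      · rw [hu, ← ContinuousLinearMap.map_smul, ← hAd]
    have hw : ‖Ad (C.e x) y‖ < δ₀ := hk δ₀ hδ₀ le_rfl _ hsmall
    obtain ⟨u, hu, hun⟩ := conj_est C hK est hρ0 hρ1 hρ2 hx hy
    have hu0 : ‖u‖ < δ₀ := by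
      have h1 : ‖u‖ ≤ ‖u - y‖ + ‖y‖ := by
        have := norm_add_le (u - y) y
        simpa using this
      have h2 : K * ‖x‖ * (‖x‖ + 3 * ‖y‖) ≤ 1 * (ρ + 3 * ρ) := by
        refine mul_le_mul ((mul_le_mul_of_nonneg_left hx hK.le).trans hρ2) (by linarith)
          (by positivity) zero_le_one
      linarith
    have heq : Ad (C.e x) y = u := by
      have h1 : C.κ.symm (Ad (C.e x) y) = C.κ.symm u := by
        rw [C.symm, C.symm, hu, ← hAd]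
      have ht1 : Ad (C.e x) y ∈ C.κ.target := htar (by simpa using hw)
      have ht2 : u ∈ C.κ.target := htar (by simpa using hu0)
      have h2 := congrArg C.κ h1
      rwa [C.κ.right_inv ht1, C.κ.right_inv ht2] at h2
    rw [heq]
    exact hun
  refine ⟨ρ, hρ0, 4 * K, by positivity, ?_⟩
  intro x hx
  refine ContinuousLinearMap.opNorm_le_bound _ (by positivity) ?_
  intro y
  rcases eq_or_ne y 0 with rfl | hy
  · simp
  have hyn : 0 < ‖y‖ := norm_pos_iff.2 hy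
  set s : ℝ := ρ / ‖y‖ with hs
  have hs0 : 0 < s := by positivity
  have hyn' : ‖s • y‖ = ρ := by
    rw [norm_smul, Real.norm_eq_abs, abs_of_pos hs0, hs]
    field_simp
  have h1 := main x (s • y) hx.le hyn'.le
  rw [hyn', ContinuousLinearMap.map_smul, ← smul_sub, norm_smul, Real.norm_eq_abs,
    abs_of_pos hs0] at h1
  have h2 : (Ad (C.e x) - 1) y = Ad (C.e x) y - y := by simp
  rw [h2]
  have h3 : K * ‖x‖ * (‖x‖ + 3 * ρ) ≤ K * ‖x‖ * (4 * ρ) := by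
    have := norm_nonneg x
    gcongr
    linarith
  have h4 : s * ‖Ad (C.e x) y - y‖ ≤ s * (4 * K * ‖x‖ * ‖y‖) := by
    refine (h1.trans h3).trans (le_of_eq ?_)
    rw [hs]
    field_simp
  exact le_of_mul_le_mul_left h4 hs0

end Pool.Agent.W880.GY
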