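import Pool.Agent.W880.GY.Stm

set_option autoImplicit false

namespace Pool.Agent.W880.GY

open Pool.Agent.W660.FL Pool.Agent.W660.GY
open Filter Topology
open scoped Manifold ContDiff

namespace BASE

variable {G : Type} [Group G] [TopologicalSpace G]

theorem nonneg {ν : G → ℝ} (h : IsGleason ν) (g : G) : 0 ≤ ν g := by
  by_cases hg : g = 1
  · rw [hg, h.one]
  · exact (h.pos g hg).le

theorem abs_le {ν : G → ℝ} (h : IsGleason ν) (g k : G) : |ν g - ν k| ≤ ν (k⁻¹ * g) := by
  rw [_root_.abs_le]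
  have h1 : ν g ≤ ν k + ν (k⁻¹ * g) := by
    have := h.mul k (k⁻¹ * g)
    rwa [mul_inv_cancel_left] at this
  have h2 : ν k ≤ ν g + ν (k⁻¹ * g) := by
    have h3 := h.mul g (g⁻¹ * k)
    rw [mul_inv_cancel_left] at h3
    have h4 := h.inv (k⁻¹ * g)
    rw [mul_inv_rev, inv_inv] at h4
    rwa [h4] at h3
  constructor <;> linarith

theorem tendsto_one {ν : G → ℝ} (h : IsGleason ν) {ι : Type} (l : Filter ι) (f : ι → G) :
    Tendsto f l (𝓝 1) ↔ Tendsto (fun i => ν (f i)) l (𝓝 0) := by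
  rw [h.basis.tendsto_right_iff, Metric.tendsto_nhds]
  refine forall₂_congr fun ε hε => ?_
  refine eventually_congr (Eventually.of_forall fun i => ?_)
  rw [Real.dist_eq, sub_zero, abs_of_nonneg (nonneg h _)]
  rfl

theorem tendsto_iff [IsTopologicalGroup G] {ν : G → ℝ} (h : IsGleason ν) {ι : Type}
    (l : Filter ι) (f : ι → G) (g : G) :
    Tendsto f l (𝓝 g) ↔ Tendsto (fun i => ν (g⁻¹ * f i)) l (𝓝 0) := by
  rw [← tendsto_one h l (fun i => g⁻¹ * f i)]
  constructor
  · intro hf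
    have := hf.const_mul g⁻¹
    rwa [inv_mul_cancel] at this
  · intro hf
    have := hf.const_mul g
    simpa only [mul_inv_cancel_left, mul_one] using this

theorem cont [IsTopologicalGroup G] {ν : G → ℝ} (h : IsGleason ν) : Continuous ν := by
  rw [continuous_iff_continuousAt]
  intro g
  have h1 : Tendsto (fun x => ν (g⁻¹ * x)) (𝓝 g) (𝓝 0) :=
    (tendsto_iff h (𝓝 g) (fun x => x) g).1 tendsto_id
  rw [ContinuousAt, tendsto_iff_dist_tendsto_zero]
  refine squeeze_zero (fun _ => dist_nonneg) (fun x => ?_) h1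
  rw [Real.dist_eq]
  exact abs_le h x g

end BASE

theorem t_BASE : S_BASE := by
  intro G _ _ _ _ _ ν h
  refine ⟨BASE.cont h, ?_, BASE.nonneg h, fun ι l f g => BASE.tendsto_iff h l f g⟩
  obtain ⟨K, hK, hK1⟩ := exists_compact_mem_nhds (1 : G)
  obtain ⟨ε, hε, hεK⟩ := h.basis.mem_iff.1 hK1
  refine ⟨ε / 2, half_pos hε, hK.of_isClosed_subset ?_ ?_⟩
  · exact isClosed_le (BASE.cont h) continuous_const
  · intro g hg
    apply hεK
    show ν g < ε
    have : ν g ≤ ε / 2 := hg
    linarith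

end Pool.Agent.W880.GY
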