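import Pool.Agent.W880.GY.Stm

set_option autoImplicit false

namespace Pool.Agent.W880.GY

open Pool.Agent.W660.FL Pool.Agent.W660.GY
open Filter Topology
open scoped Manifold ContDiff

namespace BLaux

theorem isOne_pow {G : Type} [Group G] [TopologicalSpace G] {γ : ℝ → G} (h : IsOne γ) (n : ℕ) (t : ℝ) :
    γ t ^ n = γ (n * t) := by
  have h0 : γ 0 = 1 := by
    have h1 := h.2 0 0
    rw [add_zero] at h1
    exact (mul_eq_left.1 h1.symm)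
  induction n with
  | zero => simp [h0]
  | succ n ih =>
    rw [pow_succ, ih, ← h.2]
    congr 1
    push_cast
    ring

end BLaux

open BLaux

theorem t_BL : S_BASE → S_CJ → S_A3 → S_N2 → S_BL := by
  intro _ _ hA3 hN2 G _ _ _ _ _ ν hν E _ _ L
  obtain ⟨ε, hε, K, hK, hA⟩ := hA3 G ν hν
  refine ⟨ε / 2, by positivity, K, hK, ?_⟩
  intro x y hx hy
  obtain ⟨_, hXb, _⟩ := hN2 G ν hν (L.ev x) (L.one x)
  obtain ⟨_, hYb, _⟩ := hN2 G ν hν (L.ev y) (L.one y)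
  obtain ⟨_, _, hZl, _⟩ := hN2 G ν hν (L.ev (y - x)) (L.one (y - x))
  rw [← L.norm] at hXb hYb hZl
  -- tangency
  have hT := L.add x (y - x)
  rw [add_sub_cancel] at hT
  -- the limit
  have hlim : Tendsto (fun t : ℝ => ν ((L.ev x t)⁻¹ * L.ev y t) / t) (𝓝[>] 0) (𝓝 ‖y - x‖) := by
    rw [Metric.tendsto_nhds] at hZl ⊢
    intro e he
    obtain ⟨δ, hδ, hδ2⟩ := hT (e / 2) (by positivity)
    filter_upwards [hZl (e / 2) (by positivity), Ioo_mem_nhdsGT hδ] with t h1 h2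
    have ht : 0 < t := h2.1
    have h3 := hδ2 t h2.1 h2.2
    simp only at h3
    set X := L.ev x t
    set Y := L.ev y t
    set Z := L.ev (y - x) t
    have h4 : ν (X⁻¹ * Y) ≤ ν Z + ν ((X * Z)⁻¹ * Y) := by
      have := hν.mul Z ((X * Z)⁻¹ * Y)
      have e1 : Z * ((X * Z)⁻¹ * Y) = X⁻¹ * Y := by group
      rwa [e1] at this
    have h5 : ν Z ≤ ν (X⁻¹ * Y) + ν ((X * Z)⁻¹ * Y) := by
      have := hν.mul (X⁻¹ * Y) ((X * Z)⁻¹ * Y)⁻¹
      rw [hν.inv ((X * Z)⁻¹ * Y)] at this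
      have e1 : (X⁻¹ * Y) * ((X * Z)⁻¹ * Y)⁻¹ = Z := by group
      rwa [e1] at this
    rw [Real.dist_eq] at h1 ⊢
    have h6 : |ν (X⁻¹ * Y) / t - ν Z / t| ≤ e / 2 := by
      rw [← sub_div, abs_div, abs_of_pos ht, div_le_iff₀ ht, abs_le]
      constructor <;> linarith
    calc |ν (X⁻¹ * Y) / t - ‖y - x‖| = |(ν (X⁻¹ * Y) / t - ν Z / t) + (ν Z / t - ‖y - x‖)| := by ring_nf
      _ ≤ |ν (X⁻¹ * Y) / t - ν Z / t| + |ν Z / t - ‖y - x‖| := abs_add_le _ _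
      _ < e := by linarith
  have hseq : Tendsto (fun n : ℕ => 1 / ((n : ℝ) + 1)) atTop (𝓝[>] 0) := by
    rw [tendsto_nhdsWithin_iff]
    refine ⟨tendsto_one_div_add_atTop_nhds_zero_nat, Eventually.of_forall fun n => ?_⟩
    show (0 : ℝ) < 1 / ((n : ℝ) + 1)
    positivity
  have hlim2 := hlim.comp hseq
  -- the inequalities for every n
  have hineq : ∀ n : ℕ, ν ((L.ev x (1 / ((n : ℝ) + 1)))⁻¹ * L.ev y (1 / ((n : ℝ) + 1))) / (1 / ((n : ℝ) + 1)) ≤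
      K * ν ((L.ev x 1)⁻¹ * L.ev y 1) ∧ ν ((L.ev x 1)⁻¹ * L.ev y 1) ≤
      K * (ν ((L.ev x (1 / ((n : ℝ) + 1)))⁻¹ * L.ev y (1 / ((n : ℝ) + 1))) / (1 / ((n : ℝ) + 1))) := by
    intro n
    have hn : (0 : ℝ) < (n : ℝ) + 1 := by positivity
    have ht : (0 : ℝ) < 1 / ((n : ℝ) + 1) := by positivity
    have e1 : (((n + 1 : ℕ) : ℝ)) * (1 / ((n : ℝ) + 1)) = 1 := by
      push_cast
      field_simp
    have hX := hXb (1 / ((n : ℝ) + 1))
    have hY := hYb (1 / ((n : ℝ) + 1))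
    rw [abs_of_pos ht] at hX hY
    have h := hA (L.ev x (1 / ((n : ℝ) + 1))) (L.ev y (1 / ((n : ℝ) + 1))) (n + 1) (by
      have h7 : ν (L.ev x (1 / ((n : ℝ) + 1))) + ν (L.ev y (1 / ((n : ℝ) + 1))) ≤ ε * (1 / ((n : ℝ) + 1)) := by
        have : (‖x‖ + ‖y‖) * (1 / ((n : ℝ) + 1)) ≤ ε * (1 / ((n : ℝ) + 1)) :=
          mul_le_mul_of_nonneg_right (by linarith) ht.le
        linarith
      calc (((n + 1 : ℕ) : ℝ)) * (ν (L.ev x (1 / ((n : ℝ) + 1))) + ν (L.ev y (1 / ((n : ℝ) + 1))))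
          ≤ (((n + 1 : ℕ) : ℝ)) * (ε * (1 / ((n : ℝ) + 1))) := mul_le_mul_of_nonneg_left h7 (by positivity)
        _ = ε * ((((n + 1 : ℕ) : ℝ)) * (1 / ((n : ℝ) + 1))) := by ring
        _ = ε := by rw [e1, mul_one])
    rw [isOne_pow (L.one x), isOne_pow (L.one y), e1] at h
    have e2 : ν ((L.ev x (1 / ((n : ℝ) + 1)))⁻¹ * L.ev y (1 / ((n : ℝ) + 1))) / (1 / ((n : ℝ) + 1)) =
        (((n + 1 : ℕ) : ℝ)) * ν ((L.ev x (1 / ((n : ℝ) + 1)))⁻¹ * L.ev y (1 / ((n : ℝ) + 1))) := by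
      push_cast
      rw [div_div_eq_mul_div, div_one, mul_comm]
    rw [e2]
    exact h
  rw [norm_sub_rev x y]
  constructor
  · exact le_of_tendsto' hlim2 (fun n => (hineq n).1)
  · exact ge_of_tendsto' (hlim2.const_mul K) (fun n => (hineq n).2)

end Pool.Agent.W880.GY
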