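import Pool.Agent.W880.GY.Stm

/-! Part BOOT: bootstrapping of smoothness. -/

set_option autoImplicit false

namespace Pool.Agent.W880.GY

open Pool.Agent.W660.FL Pool.Agent.W660.GY
open Filter Topology
open scoped Manifold ContDiff

namespace BOOT

theorem aux (E F : Type) [NormedAddCommGroup E] [NormedSpace ℝ E]
    [NormedAddCommGroup F] [NormedSpace ℝ F] (m : F → E) (Ψ : F → E → (F →L[ℝ] E)) (δ : ℝ)
    (h1 : ∀ p : F, ‖p‖ < δ → HasFDerivAt m (Ψ p (m p)) p)
    (h2 : ∀ p : F, ‖p‖ < δ → ContDiffAt ℝ ∞ (fun q : F × E => Ψ q.1 q.2) (p, m p)) (n : ℕ) :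
    ContDiffOn ℝ n m (Metric.ball 0 δ) := by
  induction n with
  | zero =>
    rw [Nat.cast_zero, contDiffOn_zero]
    intro p hp
    exact (h1 p (by simpa using hp)).continuousAt.continuousWithinAt
  | succ n ih =>
    have hcast : ((n + 1 : ℕ) : WithTop ℕ∞) = (n : WithTop ℕ∞) + 1 := by push_cast; rfl
    rw [hcast, contDiffOn_succ_iff_fderiv_of_isOpen Metric.isOpen_ball]
    refine ⟨fun p hp => (h1 p (by simpa using hp)).differentiableAt.differentiableWithinAt,
      fun h => absurd h (by simp), ?_⟩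
    have h3 : ContDiffOn ℝ n (fun p => Ψ p (m p)) (Metric.ball 0 δ) := by
      intro p hp
      have h4 : ContDiffAt ℝ n (fun q : F × E => Ψ q.1 q.2) (p, m p) :=
        (h2 p (by simpa using hp)).of_le (by exact_mod_cast le_top)
      have h5 : ContDiffWithinAt ℝ n (fun p => (p, m p)) (Metric.ball 0 δ) p :=
        contDiffWithinAt_id.prodMk (ih p hp)
      exact h4.comp_contDiffWithinAt p h5
    refine h3.congr fun p hp => ?_
    exact (h1 p (by simpa using hp)).fderiv

end BOOT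

theorem t_BOOT : S_BOOT := by
  intro E F _ _ _ _ m Ψ δ hδ h1 h2
  have h3 : ContDiffOn ℝ ∞ m (Metric.ball 0 δ) :=
    contDiffOn_infty.2 (fun n => BOOT.aux E F m Ψ δ h1 h2 n)
  exact h3.contDiffAt (Metric.ball_mem_nhds 0 hδ)

end Pool.Agent.W880.GY
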