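import Pool.Agent.W880.GY.Stm

set_option autoImplicit false

namespace Pool.Agent.W880.GY

open Pool.Agent.W660.FL Pool.Agent.W660.GY

theorem t_CJ : S_CJ := by
  intro G _ _ _ ν hν
  obtain ⟨C, hC, h⟩ := hν.comm
  refine ⟨C, hC, fun a b ha hb => ⟨?_, ?_, h a b ha hb⟩⟩
  · have e : a * b * a⁻¹ = (a * b * a⁻¹ * b⁻¹) * b := by group
    have h1 := hν.mul (a * b * a⁻¹ * b⁻¹) b
    have h2 := h a b ha hb
    rw [← e] at h1
    linarith
  · have e : (a * b)⁻¹ * (b * a) = b⁻¹ * a⁻¹ * (b⁻¹)⁻¹ * (a⁻¹)⁻¹ := by group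
    have h2 := h b⁻¹ a⁻¹ (by rw [hν.inv]; exact hb) (by rw [hν.inv]; exact ha)
    rw [e]
    rw [hν.inv, hν.inv] at h2
    linarith

end Pool.Agent.W880.GY
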