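import Pool.Agent.W880.GY.Stm

set_option autoImplicit false

namespace Pool.Agent.W880.GY

open Pool.Agent.W660.FL Pool.Agent.W660.GY
open Filter Topology

namespace CSpart

variable {G : Type} [Group G] [TopologicalSpace G] {ν : G → ℝ} {E : Type}
  [NormedAddCommGroup E] [NormedSpace ℝ E]

open Classical in
/-- the logarithm -/
noncomputable def lg (e : E → G) (r : ℝ) (g : G) : E :=
  if h : ∃ x, ‖x‖ < r ∧ e x = g then h.choose else 0

theorem lg_spec {e : E → G} {r : ℝ} {g : G} (h : ∃ x, ‖x‖ < r ∧ e x = g) :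
    ‖lg e r g‖ < r ∧ e (lg e r g) = g := by
  have h1 : lg e r g = h.choose := by
    unfold lg
    rw [dif_pos h]
  rw [h1]
  exact h.choose_spec

end CSpart

open CSpart in
theorem t_CS : S_BASE → S_N2 → S_LE → S_BL → S_SJ → S_CS := by
  intro hbase hn2 hle hbl hsj G _ _ _ _ _ ν hν E _ _ L
  obtain ⟨hcν, -, hν0, hT⟩ := hbase G ν hν
  obtain ⟨ε1, hε1, K1, hK1, hBL⟩ := hbl G ν hν E L
  obtain ⟨ε2, hε2, K2, hK2, hLE⟩ := hle G ν hν E L
  obtain ⟨δ, hδ, hSJ⟩ := hsj G ν hν E L (ε1 / 2) (by positivity)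
  obtain ⟨e, he⟩ : ∃ e : E → G, e = fun x => L.ev x 1 := ⟨_, rfl⟩
  have hes : ∀ (x : E) (t : ℝ), e (t • x) = L.ev x t := by
    intro x t
    rw [he]
    show L.ev (t • x) 1 = L.ev x t
    rw [L.smul, mul_one]
  have hBL' : ∀ x y : E, ‖x‖ ≤ ε1 → ‖y‖ ≤ ε1 →
      ‖x - y‖ ≤ K1 * ν ((e x)⁻¹ * e y) ∧ ν ((e x)⁻¹ * e y) ≤ K1 * ‖x - y‖ := by
    intro x y hx hy
    rw [he]
    exact hBL x y hx hy
  have hLE' : ∀ x y : E, ‖x‖ + ‖y‖ ≤ ε2 → ν ((e x * e y)⁻¹ * e (x + y)) ≤ K2 * ‖x‖ * ‖y‖ := by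
    intro x y h
    rw [he]
    exact hLE x y h
  have hSJ' : ∀ g : G, ν g < δ → ∃ x : E, ‖x‖ < ε1 ∧ e x = g := by
    intro g hg
    obtain ⟨x, hx, hxg⟩ := hSJ g hg
    refine ⟨x, by linarith, ?_⟩
    rw [he]
    exact hxg
  have hνe : ∀ x, ν (e x) ≤ ‖x‖ := by
    intro x
    have h := (hn2 G ν hν (L.ev x) (L.one x)).2.1 1
    rw [abs_one, mul_one, ← L.norm] at h
    rw [he]
    exact h
  have he0 : e 0 = 1 := by
    by_contra h
    have h1 := hν.pos _ h
    have h2 := hνe 0
    rw [norm_zero] at h2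
    linarith
  have hinj : ∀ x y : E, ‖x‖ < ε1 → ‖y‖ < ε1 → e x = e y → x = y := by
    intro x y hx hy hxy
    have h := (hBL' x y hx.le hy.le).1
    rw [hxy, inv_mul_cancel, hν.one, mul_zero] at h
    exact sub_eq_zero.mp (norm_le_zero_iff.mp h)
  have hlg : ∀ g, ν g < δ → ‖lg e ε1 g‖ < ε1 ∧ e (lg e ε1 g) = g := fun g hg => lg_spec (hSJ' g hg)
  have hlge : ∀ x, ‖x‖ < ε1 → lg e ε1 (e x) = x := by
    intro x hx
    obtain ⟨h1, h2⟩ := lg_spec (e := e) (r := ε1) (g := e x) ⟨x, hx, rfl⟩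
    exact hinj _ _ h1 hx h2
  have hce : ContinuousOn e (Metric.ball (0 : E) ε1) := by
    intro x hx
    rw [mem_ball_zero_iff] at hx
    unfold ContinuousWithinAt
    rw [hT E]
    have h1 : Tendsto (fun y : E => K1 * ‖x - y‖) (𝓝[Metric.ball (0 : E) ε1] x) (𝓝 0) := by
      have h2 : Continuous (fun y : E => K1 * ‖x - y‖) := by fun_prop
      have h3 := (h2.tendsto x).mono_left (nhdsWithin_le_nhds (s := Metric.ball (0 : E) ε1))
      simpa using h3
    refine squeeze_zero' (Eventually.of_forall fun y => hν0 _) ?_ h1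
    filter_upwards [self_mem_nhdsWithin] with y hy
    rw [mem_ball_zero_iff] at hy
    exact (hBL' x y hx.le hy.le).2
  have hso : IsOpen {g : G | ν g < δ} := isOpen_lt hcν continuous_const
  have hto : IsOpen {x : E | ‖x‖ < ε1 ∧ ν (e x) < δ} := by
    have h := hce.isOpen_inter_preimage Metric.isOpen_ball hso
    convert h using 1
    ext x
    simp [mem_ball_zero_iff]
  refine ⟨{ e := e
            κ := { toFun := lg e ε1
                   invFun := e
                   source := {g : G | ν g < δ}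
                   target := {x : E | ‖x‖ < ε1 ∧ ν (e x) < δ}
                   map_source' := ?_
                   map_target' := ?_
                   left_inv' := ?_
                   right_inv' := ?_
                   open_source := hso
                   open_target := hto
                   continuousOn_toFun := ?_
                   continuousOn_invFun := ?_ }
            one_mem := ?_
            map_one := ?_
            symm := fun x => rfl
            one := ?_
            surj := ?_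
            inj := ?_
            est := ?_ }⟩
  · intro g hg
    obtain ⟨h1, h2⟩ := hlg g hg
    refine ⟨h1, ?_⟩
    rw [h2]
    exact hg
  · intro x hx
    exact hx.2
  · intro g hg
    exact (hlg g hg).2
  · intro x hx
    exact hlge x hx.1
  · intro g hg
    have h1 : Tendsto (fun g' : G => ν (g⁻¹ * g')) (𝓝 g) (𝓝 0) := (hT G (𝓝 g) id g).mp tendsto_id
    have h2 : Tendsto (fun g' : G => K1 * ν (g⁻¹ * g')) (𝓝[{g : G | ν g < δ}] g) (𝓝 0) := by
      have h3 := (h1.const_mul K1).mono_left (nhdsWithin_le_nhds (s := {g : G | ν g < δ}))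
      rwa [mul_zero] at h3
    unfold ContinuousWithinAt
    rw [tendsto_iff_norm_sub_tendsto_zero]
    refine squeeze_zero' (Eventually.of_forall fun y => norm_nonneg _) ?_ h2
    filter_upwards [self_mem_nhdsWithin] with g' hg'
    obtain ⟨a1, a2⟩ := hlg g hg
    obtain ⟨b1, b2⟩ := hlg g' hg'
    have h4 := (hBL' _ _ a1.le b1.le).1
    rw [a2, b2] at h4
    rw [norm_sub_rev]
    exact h4
  · exact hce.mono fun x hx => by
      rw [mem_ball_zero_iff]
      exact hx.1
  · show ν 1 < δ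
    rw [hν.one]
    exact hδ
  · show lg e ε1 1 = 0
    have h := hlge 0 (by rw [norm_zero]; exact hε1)
    rwa [he0] at h
  · intro x
    have h : (fun t : ℝ => e (t • x)) = L.ev x := funext fun t => hes x t
    rw [h]
    exact L.one x
  · intro γ hγ
    obtain ⟨x, hx⟩ := L.surj γ hγ
    refine ⟨x, fun t => ?_⟩
    rw [hes, hx]
  · intro x y h
    apply L.inj
    funext t
    rw [← hes, ← hes]
    exact h t
  · refine ⟨min (δ / 2) (min (ε1 / 2) (ε2 / 2)), by positivity, K1 * K2, by positivity, ?_⟩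
    intro x y hx hy
    rw [lt_min_iff, lt_min_iff] at hx hy
    obtain ⟨hx1, hx2, hx3⟩ := hx
    obtain ⟨hy1, hy2, hy3⟩ := hy
    have hs : ν (e x * e y) < δ := by
      have h1 := hν.mul (e x) (e y)
      have h2 := hνe x
      have h3 := hνe y
      linarith
    refine ⟨hs, ?_⟩
    show ‖lg e ε1 (e x * e y) - (x + y)‖ ≤ K1 * K2 * ‖x‖ * ‖y‖
    obtain ⟨h1, h2⟩ := hlg _ hs
    have hxy : ‖x + y‖ ≤ ε1 := by
      have := norm_add_le x y
      linarith
    have h3 := (hBL' _ _ h1.le hxy).1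
    rw [h2] at h3
    have h4 := hLE' x y (by linarith)
    calc ‖lg e ε1 (e x * e y) - (x + y)‖ ≤ K1 * ν ((e x * e y)⁻¹ * e (x + y)) := h3
      _ ≤ K1 * (K2 * ‖x‖ * ‖y‖) := by gcongr
      _ = K1 * K2 * ‖x‖ * ‖y‖ := by ring

end Pool.Agent.W880.GY
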