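import Pool.Agent.W880.GY.Stm

set_option autoImplicit false

namespace Pool.Agent.W880.GY

open Pool.Agent.W660.FL Pool.Agent.W660.GY
open Filter Topology
open scoped Manifold ContDiff

namespace DER

lemma quad {F E : Type} [NormedAddCommGroup F] [NormedSpace ℝ F] [NormedAddCommGroup E]
    [NormedSpace ℝ E] (f : F → E) (D : F →L[ℝ] E) (p : F) (ρ M : ℝ) (hρ : 0 < ρ)
    (h : ∀ v : F, ‖v‖ < ρ → ‖f (p + v) - f p - D v‖ ≤ M * ‖v‖ ^ 2) : HasFDerivAt f D p := by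
  rw [hasFDerivAt_iff_isLittleO_nhds_zero, Asymptotics.isLittleO_iff]
  intro c hc
  have hr : 0 < min ρ (c / (|M| + 1)) := lt_min hρ (by positivity)
  filter_upwards [Metric.ball_mem_nhds (0 : F) hr] with v hv
  rw [mem_ball_zero_iff] at hv
  have h1 : ‖v‖ < ρ := lt_of_lt_of_le hv (min_le_left _ _)
  have h2 : ‖v‖ < c / (|M| + 1) := lt_of_lt_of_le hv (min_le_right _ _)
  have h3 : ‖v‖ * (|M| + 1) < c := by
    rwa [lt_div_iff₀ (by positivity)] at h2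
  have h4 : 0 ≤ ‖v‖ := norm_nonneg v
  have h5 : M ≤ |M| := le_abs_self M
  have h6 : 0 ≤ |M| := abs_nonneg M
  calc ‖f (p + v) - f p - D v‖ ≤ M * ‖v‖ ^ 2 := h v h1
    _ ≤ |M| * ‖v‖ ^ 2 := by
        apply mul_le_mul_of_nonneg_right h5 (by positivity)
    _ = (‖v‖ * |M|) * ‖v‖ := by ring
    _ ≤ c * ‖v‖ := by
        apply mul_le_mul_of_nonneg_right _ h4
        nlinarith

section

variable {G : Type} [Group G] [TopologicalSpace G] {E : Type}
  [NormedAddCommGroup E] [NormedSpace ℝ E] (C : CS G E)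

lemma e_neg (x : E) : C.e (-x) = (C.e x)⁻¹ := by
  have h := (C.one x).2
  have h0 : C.e ((0 : ℝ) • x) = 1 := by
    have := h 0 0
    simp only [add_zero] at this
    exact left_eq_mul.mp this
  have h1 := h 1 (-1)
  simp only [add_neg_cancel] at h1
  rw [h0] at h1
  have h2 : C.e ((1 : ℝ) • x) = C.e x := by rw [one_smul]
  have h3 : C.e ((-1 : ℝ) • x) = C.e (-x) := by rw [neg_smul, one_smul]
  rw [h2, h3] at h1
  exact (inv_eq_of_mul_eq_one_right h1.symm).symm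

lemma e_k {g : G} (hg : g ∈ C.κ.source) : C.e (C.κ g) = g := by
  rw [← C.symm]
  exact C.κ.left_inv hg

end

end DER

open DER in
theorem t_DER : S_DEXP → S_LEFT → S_DER := by
  intro hD hL G _ _ _ E _ _ _ C Ad ad φ hAd had hφ
  obtain ⟨d1, hd1, K1, hK1, D1⟩ := hD G E C Ad ad φ hAd had hφ
  obtain ⟨d2, hd2, K2, hK2, L2⟩ := hL G E C Ad ad φ hAd had hφ
  obtain ⟨d0, hd0, K, hK, E0⟩ := C.est
  refine ⟨min 1 (min d1 (min d0 (d2 / (3 + K)))), by positivity, ?_⟩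
  intro x y hx hy
  have hx1 : ‖x‖ < 1 := lt_of_lt_of_le hx (min_le_left _ _)
  have hxd1 : ‖x‖ < d1 := lt_of_lt_of_le hx (le_trans (min_le_right _ _) (min_le_left _ _))
  have hxd0 : ‖x‖ < d0 := lt_of_lt_of_le hx
    (le_trans (min_le_right _ _) (le_trans (min_le_right _ _) (min_le_left _ _)))
  have hxd2 : ‖x‖ < d2 / (3 + K) := lt_of_lt_of_le hx
    (le_trans (min_le_right _ _) (le_trans (min_le_right _ _) (min_le_right _ _)))
  have hy1 : ‖y‖ < 1 := lt_of_lt_of_le hy (min_le_left _ _)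
  have hyd1 : ‖y‖ < d1 := lt_of_lt_of_le hy (le_trans (min_le_right _ _) (min_le_left _ _))
  have hyd0 : ‖y‖ < d0 := lt_of_lt_of_le hy
    (le_trans (min_le_right _ _) (le_trans (min_le_right _ _) (min_le_left _ _)))
  have hyd2 : ‖y‖ < d2 / (3 + K) := lt_of_lt_of_le hy
    (le_trans (min_le_right _ _) (le_trans (min_le_right _ _) (min_le_right _ _)))
  obtain ⟨hsrc, hest⟩ := E0 x y hxd0 hyd0
  set w := C.κ (C.e x * C.e y) with hw
  have hew : C.e w = C.e x * C.e y := e_k C hsrc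
  have hx0 : 0 ≤ ‖x‖ := norm_nonneg x
  have hy0 : 0 ≤ ‖y‖ := norm_nonneg y
  have hwn : ‖w‖ < d2 := by
    have h1 : ‖w‖ ≤ ‖w - (x + y)‖ + ‖x + y‖ := by
      have : w = (w - (x + y)) + (x + y) := by abel
      calc ‖w‖ = ‖(w - (x + y)) + (x + y)‖ := by rw [← this]
        _ ≤ _ := norm_add_le _ _
    have h2 : ‖x + y‖ ≤ ‖x‖ + ‖y‖ := norm_add_le _ _
    have h3 : K * ‖x‖ * ‖y‖ ≤ K * ‖y‖ := by
      have : K * ‖x‖ ≤ K * 1 := mul_le_mul_of_nonneg_left hx1.le hK.le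
      nlinarith
    have h4 : ‖x‖ * (3 + K) < d2 := by rwa [lt_div_iff₀ (by positivity)] at hxd2
    have h5 : ‖y‖ * (3 + K) < d2 := by rwa [lt_div_iff₀ (by positivity)] at hyd2
    have h6 : ‖w‖ ≤ K * ‖y‖ + (‖x‖ + ‖y‖) := by linarith
    by_cases hxy : ‖x‖ ≤ ‖y‖
    · nlinarith
    · push Not at hxy
      nlinarith
  -- constants
  set A := ‖φ (ad x)‖ with hA
  set B := ‖φ (ad y)‖ with hB
  set X := ‖NormedSpace.exp (ad x)‖ with hX
  set J := ‖Ring.inverse (φ (ad w))‖ with hJ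
  have hA0 : 0 ≤ A := norm_nonneg _
  have hB0 : 0 ≤ B := norm_nonneg _
  have hX0 : 0 ≤ X := norm_nonneg _
  have hJ0 : 0 ≤ J := norm_nonneg _
  set al := A + K1 with hal
  set be := X * (B + K1) with hbe
  set ga := al + be + K * al * be with hga
  have hal0 : 0 ≤ al := by positivity
  have hbe0 : 0 ≤ be := by positivity
  have hga0 : 0 ≤ ga := by positivity
  set ρ := min 1 (min d1 (min (d0 / (al + be + 1)) (d2 / (ga + 1)))) with hρ
  have hρ0 : 0 < ρ := by positivity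
  apply quad _ _ _ ρ (K2 * ga ^ 2 + J * (K * al * be) + J * K1 + J * (X * K1)) hρ0
  rintro ⟨dx, dy⟩ hv
  set h := ‖(dx, dy)‖ with hh
  have hh0 : 0 ≤ h := norm_nonneg _
  have hdx : ‖dx‖ ≤ h := norm_fst_le (dx, dy)
  have hdy : ‖dy‖ ≤ h := norm_snd_le (dx, dy)
  have hdx0 : 0 ≤ ‖dx‖ := norm_nonneg _
  have hdy0 : 0 ≤ ‖dy‖ := norm_nonneg _
  have hh1 : h < 1 := lt_of_lt_of_le hv (min_le_left _ _)
  have hhd1 : h < d1 := lt_of_lt_of_le hv (le_trans (min_le_right _ _) (min_le_left _ _))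
  have hhd0 : h < d0 / (al + be + 1) := lt_of_lt_of_le hv
    (le_trans (min_le_right _ _) (le_trans (min_le_right _ _) (min_le_left _ _)))
  have hhd2 : h < d2 / (ga + 1) := lt_of_lt_of_le hv
    (le_trans (min_le_right _ _) (le_trans (min_le_right _ _) (min_le_right _ _)))
  have hhd0' : h * (al + be + 1) < d0 := by rwa [lt_div_iff₀ (by positivity)] at hhd0
  have hhd2' : h * (ga + 1) < d2 := by rwa [lt_div_iff₀ (by positivity)] at hhd2
  obtain ⟨sa, ea⟩ := D1 x dx hxd1 (lt_of_le_of_lt hdx hhd1)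
  obtain ⟨sb, eb⟩ := D1 y dy hyd1 (lt_of_le_of_lt hdy hhd1)
  set a := C.κ (C.e (x + dx) * C.e (-x)) with ha
  set b := C.κ (C.e (y + dy) * C.e (-y)) with hb
  have hea : C.e a = C.e (x + dx) * C.e (-x) := e_k C sa
  have heb : C.e b = C.e (y + dy) * C.e (-y) := e_k C sb
  set b' := (NormedSpace.exp (ad x)) b with hb'
  have heb' : C.e b' = C.e x * C.e b * (C.e x)⁻¹ := by
    rw [hAd (C.e x) b, had x]
  -- norms
  have hdx2 : ‖dx‖ ^ 2 ≤ h ^ 2 := by nlinarith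
  have hdy2 : ‖dy‖ ^ 2 ≤ h ^ 2 := by nlinarith
  have hh2 : h ^ 2 ≤ h := by nlinarith
  have na : ‖a‖ ≤ al * h := by
    have h1 : ‖a‖ ≤ ‖a - φ (ad x) dx‖ + ‖φ (ad x) dx‖ := by
      calc ‖a‖ = ‖(a - φ (ad x) dx) + φ (ad x) dx‖ := by congr 1; abel
        _ ≤ _ := norm_add_le _ _
    have h2 : ‖φ (ad x) dx‖ ≤ A * ‖dx‖ := (φ (ad x)).le_opNorm dx
    have h3 : A * ‖dx‖ ≤ A * h := mul_le_mul_of_nonneg_left hdx hA0
    have h4 : K1 * ‖dx‖ ^ 2 ≤ K1 * h := mul_le_mul_of_nonneg_left (hdx2.trans hh2) hK1.le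
    rw [hal]
    linarith
  have nb : ‖b‖ ≤ (B + K1) * h := by
    have h1 : ‖b‖ ≤ ‖b - φ (ad y) dy‖ + ‖φ (ad y) dy‖ := by
      calc ‖b‖ = ‖(b - φ (ad y) dy) + φ (ad y) dy‖ := by congr 1; abel
        _ ≤ _ := norm_add_le _ _
    have h2 : ‖φ (ad y) dy‖ ≤ B * ‖dy‖ := (φ (ad y)).le_opNorm dy
    have h3 : B * ‖dy‖ ≤ B * h := mul_le_mul_of_nonneg_left hdy hB0
    have h4 : K1 * ‖dy‖ ^ 2 ≤ K1 * h := mul_le_mul_of_nonneg_left (hdy2.trans hh2) hK1.le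
    linarith
  have nb' : ‖b'‖ ≤ be * h := by
    have h1 : ‖b'‖ ≤ X * ‖b‖ := (NormedSpace.exp (ad x)).le_opNorm b
    have h2 : X * ‖b‖ ≤ X * ((B + K1) * h) := mul_le_mul_of_nonneg_left nb hX0
    calc ‖b'‖ ≤ X * ((B + K1) * h) := h1.trans h2
      _ = be * h := by rw [hbe]; ring
  have nad : ‖a‖ < d0 := by
    have : al * h ≤ h * (al + be + 1) := by nlinarith
    linarith
  have nbd : ‖b'‖ < d0 := by
    have : be * h ≤ h * (al + be + 1) := by nlinarith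
    linarith
  obtain ⟨sc, ec⟩ := E0 a b' nad nbd
  set c := C.κ (C.e a * C.e b') with hc
  have hec : C.e c = C.e a * C.e b' := e_k C sc
  have nab : ‖a‖ * ‖b'‖ ≤ (al * h) * (be * h) :=
    mul_le_mul na nb' (norm_nonneg _) (by positivity)
  have nab2 : K * ‖a‖ * ‖b'‖ ≤ K * al * be * h ^ 2 := by
    calc K * ‖a‖ * ‖b'‖ = K * (‖a‖ * ‖b'‖) := by ring
      _ ≤ K * ((al * h) * (be * h)) := mul_le_mul_of_nonneg_left nab hK.le
      _ = K * al * be * h ^ 2 := by ring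
  have nc : ‖c‖ ≤ ga * h := by
    have h1 : ‖c‖ ≤ ‖c - (a + b')‖ + ‖a + b'‖ := by
      calc ‖c‖ = ‖(c - (a + b')) + (a + b')‖ := by congr 1; abel
        _ ≤ _ := norm_add_le _ _
    have h2 : ‖a + b'‖ ≤ ‖a‖ + ‖b'‖ := norm_add_le _ _
    have h3 : K * al * be * h ^ 2 ≤ K * al * be * h :=
      mul_le_mul_of_nonneg_left hh2 (by positivity)
    rw [hga]
    linarith
  have ncd : ‖c‖ < d2 := by
    have : ga * h ≤ h * (ga + 1) := by nlinarith
    linarith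
  obtain ⟨-, el⟩ := L2 c w ncd hwn
  have hprod : C.e (x + dx) * C.e (y + dy) = C.e c * C.e w := by
    rw [hec, hew, hea, heb', heb, e_neg, e_neg]
    group
  have hfun : C.κ (C.e ((x, y) + (dx, dy)).1 * C.e ((x, y) + (dx, dy)).2) =
      C.κ (C.e c * C.e w) := by
    simp only [Prod.mk_add_mk]
    rw [hprod]
  have hfun0 : C.κ (C.e (x, y).1 * C.e (x, y).2) = w := rfl
  rw [hfun, hfun0]
  set JJ := Ring.inverse (φ (ad w)) with hJJ
  set EX := NormedSpace.exp (ad x) with hEX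
  have hdec : C.κ (C.e c * C.e w) - w -
      (JJ.comp ((φ (ad x)).comp (ContinuousLinearMap.fst ℝ E E) +
          (EX.comp (φ (ad y))).comp (ContinuousLinearMap.snd ℝ E E))) (dx, dy) =
      (C.κ (C.e c * C.e w) - w - JJ c) + JJ (c - (a + b')) + JJ (a - φ (ad x) dx) +
        JJ (EX (b - φ (ad y) dy)) := by
    simp only [ContinuousLinearMap.comp_apply, ContinuousLinearMap.add_apply,
      ContinuousLinearMap.coe_fst', ContinuousLinearMap.coe_snd', map_sub, map_add, hb']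
    abel
  rw [hdec]
  have t1 : ‖C.κ (C.e c * C.e w) - w - JJ c‖ ≤ K2 * ga ^ 2 * h ^ 2 := by
    have h1 : ‖c‖ ^ 2 ≤ (ga * h) ^ 2 := by
      apply pow_le_pow_left₀ (norm_nonneg _) nc
    calc _ ≤ K2 * ‖c‖ ^ 2 := el
      _ ≤ K2 * (ga * h) ^ 2 := mul_le_mul_of_nonneg_left h1 hK2.le
      _ = K2 * ga ^ 2 * h ^ 2 := by ring
  have t2 : ‖JJ (c - (a + b'))‖ ≤ J * (K * al * be) * h ^ 2 := by
    calc _ ≤ J * ‖c - (a + b')‖ := JJ.le_opNorm _
      _ ≤ J * (K * al * be * h ^ 2) := mul_le_mul_of_nonneg_left (ec.trans nab2) hJ0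
      _ = J * (K * al * be) * h ^ 2 := by ring
  have t3 : ‖JJ (a - φ (ad x) dx)‖ ≤ J * K1 * h ^ 2 := by
    calc _ ≤ J * ‖a - φ (ad x) dx‖ := JJ.le_opNorm _
      _ ≤ J * (K1 * h ^ 2) := by
          apply mul_le_mul_of_nonneg_left _ hJ0
          exact ea.trans (mul_le_mul_of_nonneg_left hdx2 hK1.le)
      _ = J * K1 * h ^ 2 := by ring
  have t4 : ‖JJ (EX (b - φ (ad y) dy))‖ ≤ J * (X * K1) * h ^ 2 := by
    calc _ ≤ J * ‖EX (b - φ (ad y) dy)‖ := JJ.le_opNorm _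
      _ ≤ J * (X * ‖b - φ (ad y) dy‖) :=
          mul_le_mul_of_nonneg_left (EX.le_opNorm _) hJ0
      _ ≤ J * (X * (K1 * h ^ 2)) := by
          apply mul_le_mul_of_nonneg_left _ hJ0
          apply mul_le_mul_of_nonneg_left _ hX0
          exact eb.trans (mul_le_mul_of_nonneg_left hdy2 hK1.le)
      _ = J * (X * K1) * h ^ 2 := by ring
  calc _ ≤ ‖C.κ (C.e c * C.e w) - w - JJ c‖ + ‖JJ (c - (a + b'))‖ + ‖JJ (a - φ (ad x) dx)‖ +
        ‖JJ (EX (b - φ (ad y) dy))‖ := norm_add₄_le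
    _ ≤ K2 * ga ^ 2 * h ^ 2 + J * (K * al * be) * h ^ 2 + J * K1 * h ^ 2 +
        J * (X * K1) * h ^ 2 := by gcongr
    _ = (K2 * ga ^ 2 + J * (K * al * be) + J * K1 + J * (X * K1)) * h ^ 2 := by ring

end Pool.Agent.W880.GY
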