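import Pool.Agent.W880.GY.Stm

/-!
Part DEXP: derivative of the exponential map.
-/

set_option autoImplicit false

namespace Pool.Agent.W880.GY

open Pool.Agent.W660.FL Pool.Agent.W660.GY
open Filter Topology
open scoped Manifold ContDiff

namespace DEXP

section

variable {G : Type} [Group G] [TopologicalSpace G] {E : Type}
  [NormedAddCommGroup E] [NormedSpace ℝ E] (C : CS G E)

include C

lemma e_add (s t : ℝ) (x : E) : C.e ((s + t) • x) = C.e (s • x) * C.e (t • x) :=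
  (C.one x).2 s t

lemma e_zero : C.e 0 = 1 := by
  have h := e_add C 0 0 (0 : E)
  simpa using h

lemma e_neg (x : E) : C.e (-x) = (C.e x)⁻¹ := by
  have h := e_add C (-1) 1 x
  rw [neg_add_cancel, zero_smul, e_zero, neg_one_smul, one_smul] at h
  exact eq_inv_of_mul_eq_one_left h.symm

lemma e_pow (p : E) (k : ℕ) : C.e ((k : ℝ) • p) = (C.e p) ^ k := by
  induction k with
  | zero => simp [e_zero]
  | succ k ih =>
    rw [Nat.cast_succ, e_add, ih, one_smul, pow_succ]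

end

lemma exp_bd (E : Type) [NormedAddCommGroup E] [NormedSpace ℝ E] [FiniteDimensional ℝ E] :
    ∃ η > 0, ∀ A : E →L[ℝ] E, ‖A‖ < η → ‖NormedSpace.exp A‖ ≤ 2 := by
  haveI : CompleteSpace E := FiniteDimensional.complete ℝ E
  letI : NormedAlgebra ℚ (E →L[ℝ] E) := NormedAlgebra.restrictScalars ℚ ℝ (E →L[ℝ] E)
  have hc : ContinuousAt (NormedSpace.exp : (E →L[ℝ] E) → (E →L[ℝ] E)) 0 :=
    NormedSpace.exp_continuous.continuousAt
  rw [Metric.continuousAt_iff] at hc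
  obtain ⟨η, hη, h⟩ := hc 1 one_pos
  refine ⟨η, hη, fun A hA => ?_⟩
  have h1 := h (x := A) (by simpa [dist_eq_norm] using hA)
  rw [NormedSpace.exp_zero, dist_eq_norm] at h1
  have h2 : ‖(1 : E →L[ℝ] E)‖ ≤ 1 := ContinuousLinearMap.norm_id_le
  calc ‖NormedSpace.exp A‖ = ‖(NormedSpace.exp A - 1) + 1‖ := by simp
    _ ≤ ‖NormedSpace.exp A - 1‖ + ‖(1 : E →L[ℝ] E)‖ := norm_add_le _ _
    _ ≤ 2 := by linarith

end DEXP

open DEXP in
theorem t_DEXP : S_PROD → S_DEXP := by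
  intro hP G _ _ _ E _ _ _ C Ad ad φ hAd had hφ
  obtain ⟨δ0, hδ0, K0, hK0, hest⟩ := C.est
  obtain ⟨δ1, hδ1, K1, hK1, hprod⟩ := hP G E C
  haveI : CompleteSpace E := FiniteDimensional.complete ℝ E
  obtain ⟨η, hη, hexp⟩ := exp_bd E
  have hadn : 0 < ‖ad‖ + 1 := by positivity
  refine ⟨min (δ0 / 2) (min (δ1 / 4) (η / (‖ad‖ + 1))), by positivity, 16 * K1, by positivity, ?_⟩
  intro x v hx hv
  have hx0 : ‖x‖ < δ0 / 2 := lt_of_lt_of_le hx (min_le_left _ _)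
  have hv0 : ‖v‖ < δ0 / 2 := lt_of_lt_of_le hv (min_le_left _ _)
  have hv1 : ‖v‖ < δ1 / 4 := lt_of_lt_of_le hv ((min_le_right _ _).trans (min_le_left _ _))
  have hx2 : ‖x‖ < η / (‖ad‖ + 1) := lt_of_lt_of_le hx ((min_le_right _ _).trans (min_le_right _ _))
  have hadx : ‖ad x‖ < η := by
    rw [lt_div_iff₀ hadn] at hx2
    calc ‖ad x‖ ≤ ‖ad‖ * ‖x‖ := ad.le_opNorm x
      _ ≤ ‖x‖ * (‖ad‖ + 1) := by nlinarith [norm_nonneg x, norm_nonneg ad]
      _ < η := hx2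
  by_cases hv00 : v = 0
  · subst hv00
    rw [add_zero, e_neg, mul_inv_cancel, C.map_one]
    exact ⟨C.one_mem, by simp⟩
  have hvpos : 0 < ‖v‖ := norm_pos_iff.mpr hv00
  -- the small elements
  let p : ℕ → E := fun n => ((n : ℝ))⁻¹ • x
  let q : ℕ → E := fun n => ((n : ℝ))⁻¹ • (x + v)
  let u : ℕ → E := fun n => C.κ (C.e (q n) * C.e (-(p n)))
  let a : ℕ → ℕ → E := fun n k => NormedSpace.exp ((k / n : ℝ) • ad x) (u n)
  have hu : ∀ n : ℕ, 1 ≤ n → C.e (u n) = C.e (q n) * C.e (-(p n)) ∧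
      ‖u n - (q n + -(p n))‖ ≤ K0 * ‖q n‖ * ‖-(p n)‖ := by
    intro n hn
    have hn1 : (1 : ℝ) ≤ n := by exact_mod_cast hn
    have hinv : ((n : ℝ))⁻¹ ≤ 1 := inv_le_one_of_one_le₀ hn1
    have hinv0 : 0 ≤ ((n : ℝ))⁻¹ := by positivity
    have h1 : ‖q n‖ < δ0 := by
      have : ‖q n‖ = ((n : ℝ))⁻¹ * ‖x + v‖ := by
        simp only [q]; rw [norm_smul, Real.norm_of_nonneg hinv0]
      rw [this]
      have h2 := norm_add_le x v
      nlinarith [norm_nonneg (x + v)]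
    have h2 : ‖-(p n)‖ < δ0 := by
      have : ‖-(p n)‖ = ((n : ℝ))⁻¹ * ‖x‖ := by
        simp only [p]; rw [norm_neg, norm_smul, Real.norm_of_nonneg hinv0]
      rw [this]
      nlinarith [norm_nonneg x]
    obtain ⟨h3, h4⟩ := hest _ _ h1 h2
    refine ⟨?_, h4⟩
    rw [← C.symm]
    exact C.κ.left_inv h3
  have hlim : Tendsto (fun n : ℕ => (n : ℝ) • u n) atTop (𝓝 v) := by
    rw [tendsto_iff_norm_sub_tendsto_zero]
    have hz : Tendsto (fun n : ℕ => (K0 * ‖x + v‖ * ‖x‖) * ((n : ℝ))⁻¹) atTop (𝓝 0) := by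
      have := (tendsto_inv_atTop_nhds_zero_nat (𝕜 := ℝ)).const_mul (K0 * ‖x + v‖ * ‖x‖)
      simpa using this
    refine squeeze_zero' (Eventually.of_forall fun n => norm_nonneg _) ?_ hz
    filter_upwards [eventually_ge_atTop 1] with n hn
    have hn1 : (1 : ℝ) ≤ n := by exact_mod_cast hn
    have hn0 : (n : ℝ) ≠ 0 := by positivity
    have hinv0 : 0 ≤ ((n : ℝ))⁻¹ := by positivity
    have h1 : (n : ℝ) • u n - v = (n : ℝ) • (u n - (q n + -(p n))) := by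
      simp only [p, q]
      rw [smul_sub, smul_add, smul_neg, smul_smul, smul_smul, mul_inv_cancel₀ hn0, one_smul,
        one_smul]
      abel
    have h2 := (hu n hn).2
    have hq : ‖q n‖ = ((n : ℝ))⁻¹ * ‖x + v‖ := by
      simp only [q]; rw [norm_smul, Real.norm_of_nonneg hinv0]
    have hp : ‖-(p n)‖ = ((n : ℝ))⁻¹ * ‖x‖ := by
      simp only [p]; rw [norm_neg, norm_smul, Real.norm_of_nonneg hinv0]
    rw [hq, hp] at h2
    rw [h1, norm_smul, Real.norm_of_nonneg (by positivity : (0 : ℝ) ≤ n)]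
    calc (n : ℝ) * ‖u n - (q n + -(p n))‖
        ≤ (n : ℝ) * (K0 * (((n : ℝ))⁻¹ * ‖x + v‖) * (((n : ℝ))⁻¹ * ‖x‖)) :=
          mul_le_mul_of_nonneg_left h2 (by positivity)
      _ = (K0 * ‖x + v‖ * ‖x‖) * ((n : ℝ))⁻¹ := by
          field_simp
  -- the product
  have hmain : ∀ n : ℕ, 1 ≤ n → ∑ k ∈ Finset.range n, ‖a n k‖ ≤ δ1 →
      C.e (x + v) * C.e (-x) ∈ C.κ.source ∧
      ‖C.κ (C.e (x + v) * C.e (-x)) - ∑ k ∈ Finset.range n, a n k‖ ≤
        K1 * (∑ k ∈ Finset.range n, ‖a n k‖) ^ 2 := by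
    intro n hn hs
    have hn1 : (1 : ℝ) ≤ n := by exact_mod_cast hn
    have hn0 : (n : ℝ) ≠ 0 := by positivity
    have hq : C.e (q n) = C.e (u n) * C.e (p n) := by
      rw [(hu n hn).1, e_neg, inv_mul_cancel_right]
    have ha : ∀ k : ℕ, C.e (a n k) = C.e (p n) ^ k * C.e (u n) * (C.e (p n) ^ k)⁻¹ := by
      intro k
      rw [hAd, ← e_pow, had]
      have : (k : ℝ) • p n = (k / n : ℝ) • x := by
        simp only [p]; rw [smul_smul, div_eq_mul_inv]
      rw [this, map_smul]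
    have h := hprod (a n) (fun k => C.e (q n) ^ k * (C.e (p n) ^ k)⁻¹) (by simp) (by
      intro k
      rw [ha k, pow_succ (C.e (q n)), pow_succ' (C.e (p n)), hq]
      group) n hs
    have hPn : C.e (q n) ^ n * (C.e (p n) ^ n)⁻¹ = C.e (x + v) * C.e (-x) := by
      rw [← e_pow, ← e_pow, e_neg]
      simp only [p, q]
      rw [smul_smul, smul_smul, mul_inv_cancel₀ hn0, one_smul, one_smul]
    simp only [hPn] at h
    exact h
  -- bounds of the terms
  have hak : ∀ n : ℕ, 1 ≤ n → ∑ k ∈ Finset.range n, ‖a n k‖ ≤ 2 * ‖(n : ℝ) • u n‖ := by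
    intro n hn
    have hn1 : (1 : ℝ) ≤ n := by exact_mod_cast hn
    have : ∀ k ∈ Finset.range n, ‖a n k‖ ≤ 2 * ‖u n‖ := by
      intro k hk
      have hkn : (k : ℝ) ≤ n := by exact_mod_cast (Finset.mem_range.mp hk).le
      have h1 : ‖(k / n : ℝ) • ad x‖ < η := by
        rw [norm_smul, Real.norm_of_nonneg (by positivity : (0 : ℝ) ≤ k / n)]
        have : (k / n : ℝ) ≤ 1 := (div_le_one (by positivity)).mpr hkn
        nlinarith [norm_nonneg (ad x), (by positivity : (0 : ℝ) ≤ k / n)]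
      calc ‖a n k‖ ≤ ‖NormedSpace.exp ((k / n : ℝ) • ad x)‖ * ‖u n‖ :=
            ContinuousLinearMap.le_opNorm _ _
        _ ≤ 2 * ‖u n‖ := mul_le_mul_of_nonneg_right (hexp _ h1) (norm_nonneg _)
    calc ∑ k ∈ Finset.range n, ‖a n k‖ ≤ ∑ k ∈ Finset.range n, 2 * ‖u n‖ :=
          Finset.sum_le_sum this
      _ = 2 * ‖(n : ℝ) • u n‖ := by
          rw [Finset.sum_const, Finset.card_range, nsmul_eq_mul, norm_smul,
            Real.norm_of_nonneg (by positivity : (0 : ℝ) ≤ n)]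
          ring
  have hev : ∀ᶠ n : ℕ in atTop, ∑ k ∈ Finset.range n, ‖a n k‖ ≤ 4 * ‖v‖ := by
    have h1 : ∀ᶠ n : ℕ in atTop, ‖(n : ℝ) • u n‖ < 2 * ‖v‖ :=
      hlim.norm.eventually_lt_const (by linarith)
    filter_upwards [h1, eventually_ge_atTop 1] with n h2 hn
    have := hak n hn
    linarith
  have hev2 : ∀ᶠ n : ℕ in atTop, C.e (x + v) * C.e (-x) ∈ C.κ.source ∧
      ‖C.κ (C.e (x + v) * C.e (-x)) - ∑ k ∈ Finset.range n, a n k‖ ≤ 16 * K1 * ‖v‖ ^ 2 := by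
    filter_upwards [hev, eventually_ge_atTop 1] with n h2 hn
    obtain ⟨h3, h4⟩ := hmain n hn (by linarith)
    refine ⟨h3, h4.trans ?_⟩
    have h0 : 0 ≤ ∑ k ∈ Finset.range n, ‖a n k‖ := Finset.sum_nonneg fun k _ => norm_nonneg _
    calc K1 * (∑ k ∈ Finset.range n, ‖a n k‖) ^ 2 ≤ K1 * (4 * ‖v‖) ^ 2 := by gcongr
      _ = 16 * K1 * ‖v‖ ^ 2 := by ring
  refine ⟨hev2.exists.choose_spec.1, ?_⟩
  have hsum : Tendsto (fun n : ℕ => ∑ k ∈ Finset.range n, a n k) atTop (𝓝 (φ (ad x) v)) := by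
    have h1 := hφ.2.2 (ad x)
    have h2 : Tendsto (fun n : ℕ => (((n : ℝ))⁻¹ •
        ∑ k ∈ Finset.range n, NormedSpace.exp ((k / n : ℝ) • ad x)) ((n : ℝ) • u n)) atTop
        (𝓝 (φ (ad x) v)) :=
      ((isBoundedBilinearMap_apply (𝕜 := ℝ) (E := E) (F := E)).continuous.tendsto
        (φ (ad x), v)).comp (h1.prodMk_nhds hlim)
    refine h2.congr' ?_
    filter_upwards [eventually_ge_atTop 1] with n hn
    have hn1 : (1 : ℝ) ≤ n := by exact_mod_cast hn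
    have hn0 : (n : ℝ) ≠ 0 := by positivity
    simp only [a]
    rw [smul_apply, map_smul, smul_smul, inv_mul_cancel₀ hn0, one_smul, sum_apply]
  refine le_of_tendsto ((tendsto_const_nhds.sub hsum).norm) ?_
  filter_upwards [hev2] with n hn
  exact hn.2

end Pool.Agent.W880.GY
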