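import Pool.Agent.W880.GY.Stm

/-!
Part FD: the space of one-parameter subgroups is finite dimensional.
-/

set_option autoImplicit false

namespace Pool.Agent.W880.GY

open Pool.Agent.W660.FL Pool.Agent.W660.GY
open Filter Topology

namespace FD

theorem one_zero {G : Type} [Group G] [TopologicalSpace G] {γ : ℝ → G} (h : IsOne γ) :
    γ 0 = 1 := by
  have h1 := h.2 0 0
  rw [add_zero] at h1
  exact (mul_eq_left.1 h1.symm)

theorem one_nat {G : Type} [Group G] [TopologicalSpace G] {γ : ℝ → G} (h : IsOne γ) (m : ℕ)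
    (s : ℝ) : γ (m * s) = γ s ^ m := by
  induction m with
  | zero => simp [one_zero h]
  | succ m ih =>
    have h1 : ((m + 1 : ℕ) : ℝ) * s = m * s + s := by push_cast; ring
    rw [h1, h.2, ih, pow_succ]

end FD

open FD in
theorem t_FD : S_BASE → S_N2 → S_BL → S_FD := by
  intro hBASE hN2 hBL G _ _ _ _ _ ν hν E _ _ L
  obtain ⟨hc, ⟨ρ, hρ, hK⟩, h0, htend⟩ := hBASE G ν hν
  obtain ⟨ε, hε, K, hKpos, hbl⟩ := hBL G ν hν E L
  have hr : 0 < min ε ρ := lt_min hε hρ
  have hev : ∀ x : E, ‖x‖ ≤ min ε ρ → ∀ t : ℝ, ν (L.ev x t) ≤ min ε ρ * |t| := by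
    intro x hx t
    have h1 := (hN2 G ν hν (L.ev x) (L.one x)).2.1 t
    rw [← L.norm] at h1
    exact h1.trans (mul_le_mul_of_nonneg_right hx (abs_nonneg t))
  refine FiniteDimensional.of_isCompact_closedBall ℝ hr (c := (0 : E)) ?_
  rw [isCompact_iff_ultrafilter_le_nhds]
  intro F hF
  have hmem : ∀ᶠ x in (F : Filter E), ‖x‖ ≤ min ε ρ := by
    have h1 : Metric.closedBall (0 : E) (min ε ρ) ∈ (F : Filter E) := by
      rwa [← le_principal_iff]
    filter_upwards [h1] with x hx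
    simpa using hx
  have hlim1 : ∀ t : ℝ, |t| ≤ 1 → ∃ g, Tendsto (fun x => L.ev x t) (F : Filter E) (𝓝 g) := by
    intro t ht
    rw [isCompact_iff_ultrafilter_le_nhds] at hK
    obtain ⟨g, -, hg⟩ := hK (F.map (fun x => L.ev x t)) (by
      rw [le_principal_iff, Ultrafilter.mem_coe, Ultrafilter.mem_map]
      rw [← Ultrafilter.mem_coe]
      filter_upwards [hmem] with x hx
      have h2 : min ε ρ * |t| ≤ ρ := by
        calc min ε ρ * |t| ≤ min ε ρ * 1 := mul_le_mul_of_nonneg_left ht hr.le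
          _ = min ε ρ := mul_one _
          _ ≤ ρ := min_le_right _ _
      exact (hev x hx t).trans h2)
    exact ⟨g, hg⟩
  have hlim : ∀ t : ℝ, ∃ g, Tendsto (fun x => L.ev x t) (F : Filter E) (𝓝 g) := by
    intro t
    obtain ⟨m, hm⟩ := exists_nat_ge |t|
    have hm1 : (0 : ℝ) < ((m + 1 : ℕ) : ℝ) := by positivity
    obtain ⟨g, hg⟩ := hlim1 (t / ((m + 1 : ℕ) : ℝ)) (by
      rw [abs_div, abs_of_pos hm1, div_le_one hm1]
      push_cast
      linarith)
    refine ⟨g ^ (m + 1), (hg.pow (m + 1)).congr fun x => ?_⟩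
    rw [← one_nat (L.one x)]
    congr 1
    field_simp
  choose X hX using hlim
  have hadd : ∀ s t, X (s + t) = X s * X t := by
    intro s t
    refine tendsto_nhds_unique (hX (s + t)) (((hX s).mul (hX t)).congr fun x => ?_)
    rw [(L.one x).2]
  have hXν : ∀ t, ν (X t) ≤ min ε ρ * |t| := by
    intro t
    refine le_of_tendsto ((hc.tendsto (X t)).comp (hX t)) ?_
    filter_upwards [hmem] with x hx
    exact hev x hx t
  have hcont : Continuous X := by
    rw [continuous_iff_continuousAt]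
    intro t₀
    have h1 := (htend ℝ (𝓝 t₀) X (X t₀)).2 ?_
    · exact h1
    · have h2 : ∀ t, (X t₀)⁻¹ * X t = X (t - t₀) := by
        intro t
        have h3 := hadd t₀ (t - t₀)
        rw [add_sub_cancel] at h3
        rw [h3, inv_mul_cancel_left]
      refine squeeze_zero (fun t => h0 _) (g := fun t => min ε ρ * |t - t₀|) (fun t => ?_) ?_
      · rw [h2]
        exact hXν _
      · have h4 : Continuous (fun t : ℝ => min ε ρ * |t - t₀|) := by fun_prop
        have h5 := h4.tendsto t₀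
        simpa using h5
  obtain ⟨x₀, hx₀⟩ := L.surj X ⟨hcont, hadd⟩
  have hnorm : ‖x₀‖ ≤ min ε ρ := by
    rw [L.norm, hx₀]
    refine (hN2 G ν hν X ⟨hcont, hadd⟩).2.2.2.1 _ fun t ht => ?_
    have h1 := hXν t
    rwa [abs_of_pos ht] at h1
  refine ⟨x₀, by simpa using hnorm, ?_⟩
  have hfin : Tendsto (fun x : E => x) (F : Filter E) (𝓝 x₀) := by
    rw [tendsto_iff_norm_sub_tendsto_zero]
    have h1 := (htend E (F : Filter E) (fun x => L.ev x 1) (L.ev x₀ 1)).1 (by
      rw [hx₀]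
      exact hX 1)
    have h2 : Tendsto (fun x => K * ν ((L.ev x₀ 1)⁻¹ * L.ev x 1)) (F : Filter E) (𝓝 0) := by
      simpa using h1.const_mul K
    refine squeeze_zero' (Eventually.of_forall fun x => norm_nonneg _) ?_ h2
    filter_upwards [hmem] with x hx
    have h3 := (hbl x x₀ (hx.trans (min_le_left _ _)) (hnorm.trans (min_le_left _ _))).1
    have h4 : ν ((L.ev x 1)⁻¹ * L.ev x₀ 1) = ν ((L.ev x₀ 1)⁻¹ * L.ev x 1) := by
      rw [← hν.inv, mul_inv_rev, inv_inv]
    rwa [h4] at h3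
  exact hfin

end Pool.Agent.W880.GY
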