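import Pool.Agent.W880.GY.Stm

/-!
Part GL: limits of powers of small elements are one-parameter subgroups.
-/

set_option autoImplicit false

namespace Pool.Agent.W880.GY

open Pool.Agent.W660.FL Pool.Agent.W660.GY
open Filter Topology
open scoped Manifold ContDiff

namespace GLs

theorem pow_le {G : Type} [Group G] [TopologicalSpace G] {ν : G → ℝ} (hν : IsGleason ν)
    (g : G) (n : ℕ) : ν (g ^ n) ≤ n * ν g := by
  induction n with
  | zero => rw [pow_zero, hν.one]; simp
  | succ n ih =>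
    rw [pow_succ]
    have h := hν.mul (g ^ n) g
    push_cast
    linarith

theorem zpow_le {G : Type} [Group G] [TopologicalSpace G] {ν : G → ℝ} (hν : IsGleason ν)
    (g : G) (k : ℤ) : ν (g ^ k) ≤ |(k : ℝ)| * ν g := by
  obtain ⟨n, rfl | rfl⟩ := Int.eq_nat_or_neg k
  · rw [zpow_natCast]
    have := pow_le hν g n
    simpa using this
  · rw [zpow_neg, zpow_natCast, hν.inv]
    have := pow_le hν g n
    simpa using this

end GLs

theorem t_GL : S_BASE → S_GL := by
  intro hB G _ _ _ _ _ ν hν ι F g N M hN hM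
  obtain ⟨hcont, ⟨ρ, hρ, hK⟩, hnn, hcrit⟩ := hB G ν hν
  have hNpos : ∀ᶠ i in (F : Filter ι), 0 < N i := hN.eventually (eventually_gt_atTop 0)
  have hM0 : 0 ≤ M := by
    obtain ⟨i, hi⟩ := hNpos.exists
    exact (mul_nonneg hi.le (hnn (g i))).trans (hM i)
  have hg0 : Tendsto (fun i => ν (g i)) (F : Filter ι) (𝓝 0) := by
    have h1 : Tendsto (fun i => M * (N i)⁻¹) (F : Filter ι) (𝓝 (M * 0)) :=
      (hN.inv_tendsto_atTop).const_mul M
    rw [mul_zero] at h1
    refine tendsto_of_tendsto_of_tendsto_of_le_of_le' tendsto_const_nhds h1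
      (Eventually.of_forall fun i => hnn _) ?_
    filter_upwards [hNpos] with i hi
    rw [← div_eq_mul_inv, le_div_iff₀ hi]
    have := hM i
    linarith
  -- bounded powers tend to one
  have hone : ∀ (c : ℝ) (e : ι → ℤ), (∀ᶠ i in (F : Filter ι), |(e i : ℝ)| ≤ c) →
      Tendsto (fun i => (g i) ^ (e i)) (F : Filter ι) (𝓝 1) := by
    intro c e he
    rw [hcrit]
    have h1 : Tendsto (fun i => c * ν (g i)) (F : Filter ι) (𝓝 (c * 0)) := hg0.const_mul c
    rw [mul_zero] at h1
    refine tendsto_of_tendsto_of_tendsto_of_le_of_le' tendsto_const_nhds h1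
      (Eventually.of_forall fun i => hnn _) ?_
    filter_upwards [he] with i hi
    rw [inv_one, one_mul]
    exact (GLs.zpow_le hν _ _).trans (mul_le_mul_of_nonneg_right hi (hnn _))
  -- the bound
  have hbd : ∀ t : ℝ, ∀ᶠ i in (F : Filter ι), ν ((g i) ^ ⌊N i * t⌋) ≤ M * |t| + ν (g i) := by
    intro t
    filter_upwards [hNpos] with i hi
    have h1 : |(⌊N i * t⌋ : ℝ)| ≤ N i * |t| + 1 := by
      have h2 := Int.floor_le (N i * t)
      have h3 := Int.lt_floor_add_one (N i * t)
      have h4 : |N i * t| = N i * |t| := by rw [abs_mul, abs_of_pos hi]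
      have h5 := abs_le.1 (le_refl |N i * t|)
      rw [h4] at h5
      rw [abs_le]
      constructor
      · linarith [h5.1]
      · linarith [h5.2]
    have h6 := (GLs.zpow_le hν (g i) ⌊N i * t⌋).trans (mul_le_mul_of_nonneg_right h1 (hnn _))
    have h7 : N i * ν (g i) * |t| ≤ M * |t| := mul_le_mul_of_nonneg_right (hM i) (abs_nonneg _)
    calc ν ((g i) ^ ⌊N i * t⌋) ≤ (N i * |t| + 1) * ν (g i) := h6
      _ = N i * ν (g i) * |t| + ν (g i) := by ring
      _ ≤ M * |t| + ν (g i) := by linarith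
  -- small times
  have hsmall : ∀ t : ℝ, |t| ≤ ρ / (2 * (M + 1)) →
      ∃ x : G, Tendsto (fun i => (g i) ^ ⌊N i * t⌋) (F : Filter ι) (𝓝 x) := by
    intro t ht
    have h1 : M * |t| ≤ ρ / 2 := by
      have hM1 : (0 : ℝ) < M + 1 := by linarith
      have h2 : M * |t| ≤ (M + 1) * (ρ / (2 * (M + 1))) :=
        mul_le_mul (by linarith) ht (abs_nonneg _) hM1.le
      have h3 : (M + 1) * (ρ / (2 * (M + 1))) = ρ / 2 := by
        field_simp
      linarith
    have h2 : ∀ᶠ i in (F : Filter ι), ν (g i) < ρ / 2 := hg0.eventually (gt_mem_nhds (by linarith))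
    have h3 : ∀ᶠ i in (F : Filter ι), (g i) ^ ⌊N i * t⌋ ∈ {x : G | ν x ≤ ρ} := by
      filter_upwards [hbd t, h2] with i hi hi2
      show ν ((g i) ^ ⌊N i * t⌋) ≤ ρ
      linarith
    have hle : ((F.map (fun i => (g i) ^ ⌊N i * t⌋) : Ultrafilter G) : Filter G) ≤
        𝓟 {x : G | ν x ≤ ρ} := by
      rw [Filter.le_principal_iff]
      exact h3
    obtain ⟨x, _, hx⟩ := hK.ultrafilter_le_nhds _ hle
    exact ⟨x, hx⟩
  -- all times
  have hall : ∀ t : ℝ, ∃ x : G,
      Tendsto (fun i => (g i) ^ ⌊N i * t⌋) (F : Filter ι) (𝓝 x) := by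
    intro t
    have hr0 : 0 < ρ / (2 * (M + 1)) := by positivity
    obtain ⟨m, hm⟩ := exists_nat_gt (|t| / (ρ / (2 * (M + 1))))
    have hmpos : (0 : ℝ) < m := lt_of_le_of_lt (by positivity) hm
    have hm0 : (m : ℝ) ≠ 0 := hmpos.ne'
    obtain ⟨x, hx⟩ := hsmall (t / m) (by
      rw [abs_div, abs_of_pos hmpos, div_le_iff₀ hmpos]
      rw [div_lt_iff₀ hr0] at hm
      linarith)
    refine ⟨x ^ m, ?_⟩
    have h1 : Tendsto (fun i => (g i) ^ (⌊N i * t⌋ - m * ⌊N i * (t / m)⌋)) (F : Filter ι)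
        (𝓝 1) := by
      refine hone (m + 1) _ (Eventually.of_forall fun i => ?_)
      have e1 : N i * t = m * (N i * (t / m)) := by field_simp
      have a1 := Int.floor_le (N i * t)
      have a2 := Int.lt_floor_add_one (N i * t)
      have b1 := Int.floor_le (N i * (t / m))
      have b2 := Int.lt_floor_add_one (N i * (t / m))
      have c1 : (m : ℝ) * (⌊N i * (t / m)⌋ : ℝ) ≤ m * (N i * (t / m)) :=
        mul_le_mul_of_nonneg_left b1 hmpos.le
      have c2 : (m : ℝ) * (N i * (t / m)) ≤ m * ((⌊N i * (t / m)⌋ : ℝ) + 1) :=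
        mul_le_mul_of_nonneg_left b2.le hmpos.le
      push_cast
      rw [abs_le]
      constructor <;> nlinarith
    have h2 := (hx.pow m).mul h1
    rw [mul_one] at h2
    refine h2.congr fun i => ?_
    rw [← zpow_natCast, ← zpow_mul, ← zpow_add]
    congr 1
    ring
  choose X hX using hall
  have hadd : ∀ s t, X (s + t) = X s * X t := by
    intro s t
    have h1 : Tendsto (fun i => (g i) ^ (⌊N i * (s + t)⌋ - ⌊N i * s⌋ - ⌊N i * t⌋))
        (F : Filter ι) (𝓝 1) := by
      refine hone 2 _ (Eventually.of_forall fun i => ?_)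
      have a1 := Int.floor_le (N i * (s + t))
      have a2 := Int.lt_floor_add_one (N i * (s + t))
      have b1 := Int.floor_le (N i * s)
      have b2 := Int.lt_floor_add_one (N i * s)
      have c1 := Int.floor_le (N i * t)
      have c2 := Int.lt_floor_add_one (N i * t)
      have e1 : N i * (s + t) = N i * s + N i * t := by ring
      push_cast
      rw [abs_le]
      constructor <;> linarith
    have h2 := ((hX s).mul (hX t)).mul h1
    rw [mul_one] at h2
    refine tendsto_nhds_unique (hX (s + t)) (h2.congr fun i => ?_)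
    rw [← zpow_add, ← zpow_add]
    congr 1
    ring
  have hle : ∀ t, ν (X t) ≤ M * |t| := by
    intro t
    have h1 : Tendsto (fun i => ν ((g i) ^ ⌊N i * t⌋)) (F : Filter ι) (𝓝 (ν (X t))) :=
      (hcont.tendsto _).comp (hX t)
    have h2 : Tendsto (fun i => M * |t| + ν (g i)) (F : Filter ι) (𝓝 (M * |t| + 0)) :=
      hg0.const_add _
    rw [add_zero] at h2
    exact le_of_tendsto_of_tendsto h1 h2 (hbd t)
  refine ⟨X, ⟨?_, hadd⟩, hle, hX⟩
  rw [continuous_iff_continuousAt]
  intro t
  unfold ContinuousAt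
  rw [hcrit]
  have h1 : ∀ s, (X t)⁻¹ * X s = X (s - t) := by
    intro s
    have : X s = X t * X (s - t) := by
      rw [← hadd]
      congr 1
      ring
    rw [this, inv_mul_cancel_left]
  have h2 : Tendsto (fun s : ℝ => M * |s - t|) (𝓝 t) (𝓝 0) := by
    have h3 : Continuous fun s : ℝ => M * |s - t| := by fun_prop
    have h4 := h3.tendsto t
    simpa using h4
  refine tendsto_of_tendsto_of_tendsto_of_le_of_le tendsto_const_nhds h2 (fun s => hnn _) ?_
  intro s
  show ν ((X t)⁻¹ * X s) ≤ M * |s - t|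
  rw [h1]
  exact hle _

end Pool.Agent.W880.GY
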