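import Pool.Agent.W880.GY.Stm

set_option autoImplicit false

namespace Pool.Agent.W880.GY

open Pool.Agent.W660.FL Pool.Agent.W660.GY
open Filter Topology
open scoped Manifold ContDiff

theorem t_H2 : S_AD → S_ad → S_PHI → S_MUL → S_IC → S_H2 := by
  intro hAD had hPHI hMUL hIC G _ _ _ E _ _ _ C
  obtain ⟨Ad, hAd⟩ := hAD G E C
  obtain ⟨ad, hadd⟩ := had G E C Ad hAd
  obtain ⟨φ, hφ⟩ := hPHI E
  have h := hIC G E C Ad hAd
  exact ⟨⟨C.κ, C.one_mem, C.map_one, hMUL G E C Ad ad φ hAd hadd hφ, h.1, h.2⟩⟩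

theorem gy1_aux : S_VS → S_FD → S_CS → S_H2 → GY1 := by
  intro hVS hFD hCS hH2 G _ _ _ _ _ ν hν
  obtain ⟨E, iE1, iE2, ⟨L⟩⟩ := hVS G ν hν
  have hf := hFD G ν hν E L
  obtain ⟨C⟩ := hCS G ν hν E L
  exact ⟨E, iE1, iE2, hf, hH2 G E C⟩

end Pool.Agent.W880.GY
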