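import Pool.Agent.W880.GY.Stm

set_option autoImplicit false

namespace Pool.Agent.W880.GY

open Pool.Agent.W660.FL Pool.Agent.W660.GY
open Filter Topology
open scoped Manifold ContDiff

theorem t_KEY : S_KEY := by
  intro G _ _ _ E _ _ _ C
  have h0 : (0 : E) ∈ C.κ.target := by
    rw [← C.map_one]; exact C.κ.map_source C.one_mem
  obtain ⟨r, hr, hball⟩ := Metric.isOpen_iff.1 C.κ.open_target 0 h0
  have hdouble : ∀ z : E, C.e ((2 : ℝ) • z) = C.e z * C.e z := by
    intro z
    have h := (C.one z).2 1 1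
    simp only [one_smul] at h
    rw [← h]
    norm_num
  have hinj : ∀ a b : E, a ∈ Metric.ball (0 : E) r → b ∈ Metric.ball (0 : E) r → C.e a = C.e b → a = b := by
    intro a b ha hb hab
    rw [← C.symm, ← C.symm] at hab
    exact C.κ.symm.injOn (hball ha) (hball hb) hab
  refine ⟨r / 2, by positivity, fun a ha => hball (Metric.ball_subset_ball (by linarith) ha), ?_⟩
  intro δ hδ hδr y hz
  choose z hz1 hz2 using hz
  have hstep : ∀ k, z k = (2 : ℝ) • z (k + 1) := by
    intro k
    apply hinj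
    · rw [mem_ball_zero_iff]; linarith [hz1 k]
    · rw [mem_ball_zero_iff, norm_smul, Real.norm_ofNat]; linarith [hz1 (k + 1)]
    · rw [hdouble, ← hz2 (k + 1), ← hdouble, ← hz2 k, smul_smul]
      congr 2
      rw [pow_succ]
      ring
  have hpow : ∀ k, z 0 = (2 : ℝ) ^ k • z k := by
    intro k
    induction k with
    | zero => simp
    | succ k ih => rw [ih, hstep k, smul_smul, pow_succ]
  obtain ⟨k, hk⟩ := exists_pow_lt_of_lt_one (show 0 < r / (‖y‖ + 1) by positivity) (show (1 / 2 : ℝ) < 1 by norm_num)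
  have hyk : z k = (1 / 2 : ℝ) ^ k • y := by
    apply hinj
    · rw [mem_ball_zero_iff]; linarith [hz1 k]
    · rw [mem_ball_zero_iff, norm_smul, norm_pow]
      have h1 : ‖(1 / 2 : ℝ)‖ = 1 / 2 := by norm_num
      rw [h1]
      have h2 : (1 / 2 : ℝ) ^ k * (‖y‖ + 1) < r := by rwa [lt_div_iff₀ (by positivity)] at hk
      have h3 : (0 : ℝ) < (1 / 2 : ℝ) ^ k := by positivity
      nlinarith
    · exact (hz2 k).symm
  have hy : y = z 0 := by
    rw [hpow k, hyk, smul_smul, ← mul_pow]
    norm_num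
  rw [hy]
  exact hz1 0

end Pool.Agent.W880.GY
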