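import Pool.Agent.W880.GY.Stm

/-!
Part LE: `exp x exp y` and `exp (x + y)`.
-/

set_option autoImplicit false

namespace Pool.Agent.W880.GY

open Pool.Agent.W660.FL Pool.Agent.W660.GY
open Filter Topology

theorem t_LE : S_BASE → S_N2 → S_T1 → S_T2 → S_LE := by
  intro _ _ hT1 hT2 G _ _ _ _ _ ν hν E _ _ L
  obtain ⟨ε, hε, K, hK, H⟩ := hT2 G ν hν
  refine ⟨ε, hε, K, hK, fun x y hxy => ?_⟩
  obtain ⟨Z, hZ, -, hest⟩ := H (L.ev x) (L.ev y) (L.one x) (L.one y)
  have hx : nr ν (L.ev x) = ‖x‖ := (L.norm x).symm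
  have hy : nr ν (L.ev y) = ‖y‖ := (L.norm y).symm
  rw [hx, hy] at hest
  have hx0 := norm_nonneg x
  have hy0 := norm_nonneg y
  have hZe : Z = L.ev (x + y) := by
    refine hT1 G ν hν Z (L.ev (x + y)) hZ (L.one _) ?_
    intro ε' hε'
    obtain ⟨δ, hδ, hs⟩ := L.add x y (ε' / 2) (by positivity)
    refine ⟨min δ (min (ε' / 2 / (K * ‖x‖ * ‖y‖ + 1)) (ε / (‖x‖ + ‖y‖ + 1))), ?_, ?_⟩
    · refine lt_min hδ (lt_min ?_ ?_)
      · positivity
      · positivity
    · intro t ht0 ht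
      have h1 : t < δ := lt_of_lt_of_le ht (min_le_left _ _)
      have h2 : t < ε' / 2 / (K * ‖x‖ * ‖y‖ + 1) :=
        lt_of_lt_of_le ht (le_trans (min_le_right _ _) (min_le_left _ _))
      have h3 : t < ε / (‖x‖ + ‖y‖ + 1) :=
        lt_of_lt_of_le ht (le_trans (min_le_right _ _) (min_le_right _ _))
      have hKp : 0 ≤ K * ‖x‖ * ‖y‖ := by positivity
      rw [lt_div_iff₀ (by positivity)] at h2 h3
      have h4 : t * (‖x‖ + ‖y‖) ≤ ε := by nlinarith
      have h5 := hest t ht0.le h4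
      have h6 := hs t ht0 h1
      have h7 : (Z t)⁻¹ * L.ev (x + y) t =
          ((L.ev x t * L.ev y t)⁻¹ * Z t)⁻¹ * ((L.ev x t * L.ev y t)⁻¹ * L.ev (x + y) t) := by
        group
      rw [h7]
      refine (hν.mul _ _).trans ?_
      rw [hν.inv]
      have h8 : K * t ^ 2 * ‖x‖ * ‖y‖ ≤ ε' / 2 * t := by
        have : K * t ^ 2 * ‖x‖ * ‖y‖ = t * (t * (K * ‖x‖ * ‖y‖)) := by ring
        rw [this]
        nlinarith
      have h6' : ν ((L.ev x t * L.ev y t)⁻¹ * L.ev (x + y) t) ≤ ε' / 2 * t := h6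
      linarith
  have := hest 1 zero_le_one (by linarith)
  rw [hZe] at this
  linarith [this]

end Pool.Agent.W880.GY
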