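import Pool.Agent.W880.GY.Stm

/-!
Gleason-Yamabe, part LEFT: left translations in the exponential chart.
-/

set_option autoImplicit false

namespace Pool.Agent.W880.GY

open Pool.Agent.W660.FL Pool.Agent.W660.GY
open Filter Topology
open scoped Manifold ContDiff

namespace LEFT

theorem e_zero {G : Type} [Group G] [TopologicalSpace G] {E : Type}
    [NormedAddCommGroup E] [NormedSpace ℝ E] (C : CS G E) : C.e 0 = 1 := by
  rw [← C.symm, ← C.map_one]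
  exact C.κ.left_inv C.one_mem

theorem e_neg {G : Type} [Group G] [TopologicalSpace G] {E : Type}
    [NormedAddCommGroup E] [NormedSpace ℝ E] (C : CS G E) (w : E) : C.e w * C.e (-w) = 1 := by
  have h := (C.one w).2 1 (-1)
  simp only [add_neg_cancel, zero_smul, one_smul, neg_smul] at h
  rw [← h, e_zero C]

/-- operators near the identity -/
theorem near_one {E : Type} [NormedAddCommGroup E] [NormedSpace ℝ E] [FiniteDimensional ℝ E]
    (T : E →L[ℝ] E) (hT : ‖T - 1‖ < 1 / 2) : IsUnit T ∧ ‖Ring.inverse T‖ ≤ 2 := by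
  have : CompleteSpace E := FiniteDimensional.complete ℝ E
  have h1 : ‖(1 : E →L[ℝ] E) - T‖ < 1 := by
    rw [norm_sub_rev]
    linarith
  have hu : IsUnit T := by
    have h2 := (Units.oneSub (1 - T) h1).isUnit
    rw [Units.val_oneSub, sub_sub_cancel] at h2
    exact h2
  refine ⟨hu, ?_⟩
  have h3 : Ring.inverse T = 1 + Ring.inverse T * (1 - T) := by
    rw [mul_sub, mul_one, Ring.inverse_mul_cancel T hu]
    abel
  have h4 : ‖Ring.inverse T‖ ≤ 1 + ‖Ring.inverse T‖ * (1 / 2) := by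
    calc ‖Ring.inverse T‖ = ‖1 + Ring.inverse T * (1 - T)‖ := by rw [← h3]
      _ ≤ ‖(1 : E →L[ℝ] E)‖ + ‖Ring.inverse T * (1 - T)‖ := norm_add_le _ _
      _ ≤ 1 + ‖Ring.inverse T‖ * ‖1 - T‖ :=
          add_le_add ContinuousLinearMap.norm_id_le (norm_mul_le _ _)
      _ ≤ 1 + ‖Ring.inverse T‖ * (1 / 2) := by
          gcongr
          rw [norm_sub_rev]
          exact hT.le
  linarith

end LEFT

theorem t_LEFT : S_DEXP → S_LEFT := by
  intro hDEXP G _ _ _ E _ _ _ C Ad ad φ hAd had hφ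
  obtain ⟨δ₁, hδ₁, K₁, hK₁, h₁⟩ := hDEXP G E C Ad ad φ hAd had hφ
  obtain ⟨δ₂, hδ₂, K₂, hK₂, h₂⟩ := C.est
  obtain ⟨δ₃, hδ₃, h₃⟩ : ∃ δ₃ > 0, ∀ w : E, ‖w‖ < δ₃ → ‖φ (ad w) - 1‖ < 1 / 2 := by
    have hc : Continuous fun w : E => φ (ad w) := hφ.1.continuous.comp ad.continuous
    have h4 := Metric.continuousAt_iff.1 (hc.continuousAt (x := (0 : E))) (1 / 2) (by norm_num)
    obtain ⟨δ₃, hδ₃, h5⟩ := h4
    refine ⟨δ₃, hδ₃, fun w hw => ?_⟩
    have h6 := h5 (x := w) (by rw [dist_zero_right]; exact hw)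
    rw [map_zero, hφ.2.1, dist_eq_norm] at h6
    exact h6
  obtain ⟨δ₄, hδ₄, h₄⟩ : ∃ δ₄ > 0, Metric.ball (0 : E) δ₄ ⊆ C.κ.target := by
    refine Metric.isOpen_iff.1 C.κ.open_target 0 ?_
    rw [← C.map_one]
    exact C.κ.map_source C.one_mem
  refine ⟨min (min (δ₁ / 2) δ₂) (min (min δ₃ δ₄) (1 / K₂)), by positivity, 8 * K₁,
    by positivity, ?_⟩
  intro a w ha hw
  have ha1 : ‖a‖ < δ₁ / 2 := lt_of_lt_of_le ha ((min_le_left _ _).trans (min_le_left _ _))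
  have ha2 : ‖a‖ < δ₂ := lt_of_lt_of_le ha ((min_le_left _ _).trans (min_le_right _ _))
  have ha4 : ‖a‖ < δ₄ := lt_of_lt_of_le ha
    ((min_le_right _ _).trans ((min_le_left _ _).trans (min_le_right _ _)))
  have hw1 : ‖w‖ < δ₁ / 2 := lt_of_lt_of_le hw ((min_le_left _ _).trans (min_le_left _ _))
  have hw2 : ‖w‖ < δ₂ := lt_of_lt_of_le hw ((min_le_left _ _).trans (min_le_right _ _))
  have hw3 : ‖w‖ < δ₃ := lt_of_lt_of_le hw
    ((min_le_right _ _).trans ((min_le_left _ _).trans (min_le_left _ _)))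
  have hw5 : ‖w‖ < 1 / K₂ := lt_of_lt_of_le hw ((min_le_right _ _).trans (min_le_right _ _))
  obtain ⟨hu, hinv⟩ := LEFT.near_one (φ (ad w)) (h₃ w hw3)
  refine ⟨hu, ?_⟩
  obtain ⟨hsrc, hest⟩ := h₂ a w ha2 hw2
  obtain ⟨v, hv⟩ : ∃ v, v = C.κ (C.e a * C.e w) - w := ⟨_, rfl⟩
  have hva : ‖v - a‖ ≤ ‖a‖ := by
    have e1 : v - a = C.κ (C.e a * C.e w) - (a + w) := by rw [hv]; abel
    rw [e1]
    refine hest.trans ?_
    have h5 : K₂ * ‖w‖ ≤ 1 := by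
      have := mul_lt_mul_of_pos_left hw5 hK₂
      rw [mul_one_div_cancel hK₂.ne'] at this
      exact this.le
    calc K₂ * ‖a‖ * ‖w‖ = ‖a‖ * (K₂ * ‖w‖) := by ring
      _ ≤ ‖a‖ * 1 := mul_le_mul_of_nonneg_left h5 (norm_nonneg _)
      _ = ‖a‖ := mul_one _
  have hvn : ‖v‖ ≤ 2 * ‖a‖ := by
    calc ‖v‖ = ‖(v - a) + a‖ := by rw [sub_add_cancel]
      _ ≤ ‖v - a‖ + ‖a‖ := norm_add_le _ _
      _ ≤ 2 * ‖a‖ := by linarith
  have hev : C.e (w + v) = C.e a * C.e w := by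
    have e1 : w + v = C.κ (C.e a * C.e w) := by rw [hv]; abel
    rw [e1, ← C.symm]
    exact C.κ.left_inv hsrc
  have hprod : C.e (w + v) * C.e (-w) = C.e a := by
    rw [hev, mul_assoc, LEFT.e_neg C w, mul_one]
  have hκa : C.κ (C.e a) = a := by
    rw [← C.symm]
    exact C.κ.right_inv (h₄ (by rw [Metric.mem_ball, dist_zero_right]; exact ha4))
  obtain ⟨-, h6⟩ := h₁ w v (by linarith) (by linarith)
  rw [hprod, hκa] at h6
  have h7 : ‖a - φ (ad w) v‖ ≤ 4 * K₁ * ‖a‖ ^ 2 := by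
    refine h6.trans ?_
    have h8 : ‖v‖ ^ 2 ≤ (2 * ‖a‖) ^ 2 := pow_le_pow_left₀ (norm_nonneg _) hvn 2
    calc K₁ * ‖v‖ ^ 2 ≤ K₁ * (2 * ‖a‖) ^ 2 := mul_le_mul_of_nonneg_left h8 hK₁.le
      _ = 4 * K₁ * ‖a‖ ^ 2 := by ring
  have h8 : C.κ (C.e a * C.e w) - w - Ring.inverse (φ (ad w)) a
      = - (Ring.inverse (φ (ad w)) (a - φ (ad w) v)) := by
    have e2 : Ring.inverse (φ (ad w)) (φ (ad w) v) = v := by
      have e3 := Ring.inverse_mul_cancel (φ (ad w)) hu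
      have e4 := congrArg (fun T : E →L[ℝ] E => T v) e3
      exact e4
    rw [map_sub, e2, ← hv]
    abel
  rw [h8, norm_neg]
  calc ‖Ring.inverse (φ (ad w)) (a - φ (ad w) v)‖
      ≤ ‖Ring.inverse (φ (ad w))‖ * ‖a - φ (ad w) v‖ := ContinuousLinearMap.le_opNorm _ _
    _ ≤ 2 * (4 * K₁ * ‖a‖ ^ 2) := mul_le_mul hinv h7 (norm_nonneg _) (by norm_num)
    _ = 8 * K₁ * ‖a‖ ^ 2 := by ring

end Pool.Agent.W880.GY
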