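import Pool.Agent.W880.GY.Stm

set_option autoImplicit false

namespace Pool.Agent.W880.GY

open Pool.Agent.W660.FL Pool.Agent.W660.GY
open Filter Topology
open scoped Manifold ContDiff

/-- Smoothness of the multiplication in the exponential chart. -/
theorem t_MUL : S_DER → S_LEFT → S_BOOT → S_MUL := by
  intro hDER hLEFT hBOOT G _ _ _ E _ _ _ C Ad ad φ hAd had hφ
  have : CompleteSpace E := FiniteDimensional.complete ℝ E
  obtain ⟨δ1, hδ1, h1⟩ := hDER G E C Ad ad φ hAd had hφ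
  obtain ⟨δ2, hδ2, K2, _, h2⟩ := hLEFT G E C Ad ad φ hAd had hφ
  obtain ⟨δ3, hδ3, K, hK, h3⟩ := C.est
  have hfun : (fun p : E × E => C.κ (C.κ.symm p.1 * C.κ.symm p.2)) =
      fun p : E × E => C.κ (C.e p.1 * C.e p.2) := by
    funext p
    rw [C.symm, C.symm]
  rw [hfun]
  set m : E × E → E := fun p => C.κ (C.e p.1 * C.e p.2) with hm
  set δ : ℝ := min (min δ1 δ3) (min 1 (δ2 / (2 + K))) with hδ
  have hKp : 0 < 2 + K := by linarith
  have hδpos : 0 < δ := by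
    rw [hδ]
    exact lt_min (lt_min hδ1 hδ3) (lt_min one_pos (div_pos hδ2 hKp))
  have hsm : ∀ p : E × E, ‖p‖ < δ → ‖m p‖ < δ2 := by
    intro p hp
    have hp1 : ‖p.1‖ ≤ ‖p‖ := norm_fst_le p
    have hp2 : ‖p.2‖ ≤ ‖p‖ := norm_snd_le p
    have hd3 : ‖p‖ < δ3 := lt_of_lt_of_le hp ((min_le_left _ _).trans (min_le_right _ _))
    have hd1 : ‖p‖ < 1 := lt_of_lt_of_le hp ((min_le_right _ _).trans (min_le_left _ _))
    have hd2 : ‖p‖ < δ2 / (2 + K) :=
      lt_of_lt_of_le hp ((min_le_right _ _).trans (min_le_right _ _))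
    have h := (h3 p.1 p.2 (lt_of_le_of_lt hp1 hd3) (lt_of_le_of_lt hp2 hd3)).2
    have h4 : ‖m p‖ ≤ ‖m p - (p.1 + p.2)‖ + ‖p.1 + p.2‖ := by
      have := norm_add_le (m p - (p.1 + p.2)) (p.1 + p.2)
      simpa using this
    have h5 : ‖p.1 + p.2‖ ≤ ‖p.1‖ + ‖p.2‖ := norm_add_le _ _
    have h6 : K * ‖p.1‖ * ‖p.2‖ ≤ K * ‖p‖ := by
      have a1 : K * ‖p.1‖ ≤ K * ‖p‖ := mul_le_mul_of_nonneg_left hp1 hK.le
      have a2 : ‖p.2‖ ≤ 1 := hp2.trans hd1.le
      calc K * ‖p.1‖ * ‖p.2‖ ≤ K * ‖p.1‖ * 1 :=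
            mul_le_mul_of_nonneg_left a2 (mul_nonneg hK.le (norm_nonneg _))
        _ = K * ‖p.1‖ := mul_one _
        _ ≤ K * ‖p‖ := a1
    have h7 : (2 + K) * ‖p‖ < δ2 := by
      rw [lt_div_iff₀ hKp] at hd2
      linarith
    have h8 : ‖m p‖ ≤ (2 + K) * ‖p‖ := by
      have : ‖m p - (p.1 + p.2)‖ ≤ K * ‖p.1‖ * ‖p.2‖ := h
      nlinarith
    exact lt_of_le_of_lt h8 h7
  let Ψ : E × E → E → ((E × E) →L[ℝ] E) := fun p w =>
    (Ring.inverse (φ (ad w))).comp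
      ((φ (ad p.1)).comp (ContinuousLinearMap.fst ℝ E E) +
        ((NormedSpace.exp (ad p.1)).comp (φ (ad p.2))).comp (ContinuousLinearMap.snd ℝ E E))
  have key : ContDiffAt ℝ ∞ m 0 := by
    refine hBOOT E (E × E) m Ψ δ hδpos ?_ ?_
    · intro p hp
      have hp1 : ‖p.1‖ < δ1 := lt_of_le_of_lt (norm_fst_le p)
        (lt_of_lt_of_le hp ((min_le_left _ _).trans (min_le_left _ _)))
      have hp2 : ‖p.2‖ < δ1 := lt_of_le_of_lt (norm_snd_le p)
        (lt_of_lt_of_le hp ((min_le_left _ _).trans (min_le_left _ _)))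
      exact h1 p.1 p.2 hp1 hp2
    · intro p hp
      have hu : IsUnit (φ (ad (m p))) :=
        (h2 0 (m p) (by rw [norm_zero]; exact hδ2) (hsm p hp)).1
      obtain ⟨u, hu⟩ := hu
      have c1 : ContDiffAt ℝ ∞ (fun q : (E × E) × E => φ (ad q.2)) (p, m p) :=
        (hφ.1.comp (ad.contDiff.comp contDiff_snd)).contDiffAt
      have c2 : ContDiffAt ℝ ∞ (fun q : (E × E) × E => φ (ad q.1.1)) (p, m p) :=
        (hφ.1.comp (ad.contDiff.comp (contDiff_fst.comp contDiff_fst))).contDiffAt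
      have c3 : ContDiffAt ℝ ∞ (fun q : (E × E) × E => φ (ad q.1.2)) (p, m p) :=
        (hφ.1.comp (ad.contDiff.comp (contDiff_snd.comp contDiff_fst))).contDiffAt
      have c4 : ContDiffAt ℝ ∞ (fun q : (E × E) × E => NormedSpace.exp (ad q.1.1)) (p, m p) := by
        have e1 : ContDiffAt ℝ ∞ (NormedSpace.exp : (E →L[ℝ] E) → (E →L[ℝ] E)) (ad p.1) :=
          (NormedSpace.exp_analytic (𝕂 := ℝ) (ad p.1)).contDiffAt
        have e2 : ContDiffAt ℝ ∞ (fun q : (E × E) × E => ad q.1.1) (p, m p) :=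
          (ad.contDiff.comp (contDiff_fst.comp contDiff_fst)).contDiffAt
        exact ContDiffAt.comp (p, m p) e1 e2
      have c5 : ContDiffAt ℝ ∞ (fun q : (E × E) × E => Ring.inverse (φ (ad q.2))) (p, m p) := by
        have e1 : ContDiffAt ℝ ∞ (Ring.inverse : (E →L[ℝ] E) → (E →L[ℝ] E)) (φ (ad (m p))) := by
          rw [← hu]
          exact contDiffAt_ringInverse ℝ u
        exact ContDiffAt.comp (p, m p) e1 c1
      exact c5.clm_comp ((c2.clm_comp contDiffAt_const).add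
        ((c4.clm_comp c3).clm_comp contDiffAt_const))
  exact key

end Pool.Agent.W880.GY
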