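import Pool.Agent.W880.GY.Stm

set_option autoImplicit false

namespace Pool.Agent.W880.GY

open Pool.Agent.W660.FL Pool.Agent.W660.GY
open Filter Topology

namespace N1

variable {G : Type} [Group G] [TopologicalSpace G]

lemma one_zero {X : ℝ → G} (hX : IsOne X) : X 0 = 1 := by
  have h := hX.2 0 0
  rw [add_zero] at h
  exact (mul_eq_left.mp h.symm)

lemma one_nat {X : ℝ → G} (hX : IsOne X) (n : ℕ) (s : ℝ) : X (n * s) = X s ^ n := by
  induction n with
  | zero => simp [one_zero hX]
  | succ k ih =>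
    rw [pow_succ, ← ih, ← hX.2]
    congr 1
    push_cast
    ring

lemma one_neg {X : ℝ → G} (hX : IsOne X) (s : ℝ) : X (-s) = (X s)⁻¹ := by
  apply eq_inv_of_mul_eq_one_left
  rw [← hX.2, neg_add_cancel, one_zero hX]

lemma pow_le {ν : G → ℝ} (hν : IsGleason ν) (g : G) (n : ℕ) : ν (g ^ n) ≤ n * ν g := by
  induction n with
  | zero => simp [hν.one]
  | succ k ih =>
    rw [pow_succ]
    have := hν.mul (g ^ k) g
    push_cast
    linarith

lemma nonneg {ν : G → ℝ} (hν : IsGleason ν) (g : G) : 0 ≤ ν g := by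
  by_cases h : g = 1
  · rw [h, hν.one]
  · exact (hν.pos g h).le

end N1

theorem t_N1 : S_BASE → S_N1 := by
  intro _ G _ _ _ _ _ ν hν X hX
  obtain ⟨C, hC, hesc⟩ := hν.escape
  set c0 : ℝ := min (1 / (2 * C ^ 2)) (1 / (2 * C)) with hc0
  have hc0pos : 0 < c0 := by
    rw [hc0]; positivity
  have hX0 := N1.one_zero hX
  have hev : ∀ᶠ u in 𝓝 (0 : ℝ), ν (X u) < c0 := by
    have h1 : {g : G | ν g < c0} ∈ 𝓝 (X 0) := by
      rw [hX0]
      exact hν.basis.mem_of_mem hc0pos
    exact hX.1.continuousAt.eventually h1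
  obtain ⟨r, hr, hball⟩ := Metric.eventually_nhds_iff.mp hev
  obtain ⟨t0, ht0, ht0r⟩ : ∃ t0 : ℝ, 0 < t0 ∧ t0 < r := ⟨r / 2, by positivity, by linarith⟩
  have hsmall : ∀ u : ℝ, 0 < u → u ≤ t0 → ν (X u) < c0 := by
    intro u hu hu'
    apply hball
    rw [Real.dist_eq, sub_zero, abs_of_pos hu]
    linarith
  have key : ∀ s : ℝ, 0 < s → s ≤ t0 → ν (X s) ≤ s / (C * t0) := by
    intro s hs hst
    rcases (N1.nonneg hν (X s)).eq_or_lt with h0 | ha
    · rw [← h0]; positivity
    set a := ν (X s) with hadef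
    have hac : a < c0 := hsmall s hs hst
    have ha2 : a < 1 / (2 * C) := lt_of_lt_of_le hac (min_le_right _ _)
    set n := ⌊1 / (C * a)⌋₊ with hn
    have hCa : 0 < C * a := by positivity
    have hn1 : (n : ℝ) * a ≤ 1 / C := by
      have h := Nat.floor_le (show 0 ≤ 1 / (C * a) by positivity)
      rw [← hn] at h
      rw [le_div_iff₀ hCa] at h
      rw [le_div_iff₀ hC]
      linarith
    have hn2 : 1 / C < ((n : ℝ) + 1) * a := by
      have h := Nat.lt_floor_add_one (1 / (C * a))
      rw [← hn] at h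
      rw [div_lt_iff₀ hCa] at h
      rw [div_lt_iff₀ hC]
      linarith
    have hn3 : 1 / (2 * C) < (n : ℝ) * a := by
      have : 1 / C = 1 / (2 * C) + 1 / (2 * C) := by field_simp; norm_num
      linarith
    have hnpos : 0 < (n : ℝ) := by
      by_contra hcon
      have : (n : ℝ) = 0 := le_antisymm (not_lt.mp hcon) (Nat.cast_nonneg n)
      rw [this, zero_mul] at hn3
      have : 0 < 1 / (2 * C) := by positivity
      linarith
    have hns : t0 < n * s := by
      by_contra hcon
      push Not at hcon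
      have h1 := hesc (X s) n hn1
      have h2 := hsmall (n * s) (by positivity) hcon
      rw [N1.one_nat hX] at h2
      have h3 : C * ν (X s ^ n) < C * (1 / (2 * C ^ 2)) :=
        mul_lt_mul_of_pos_left (lt_of_lt_of_le h2 (min_le_left _ _)) hC
      have h4 : C * (1 / (2 * C ^ 2)) = 1 / (2 * C) := by field_simp
      linarith
    rw [le_div_iff₀ (by positivity)]
    have h5 : a * t0 ≤ a * (n * s) := mul_le_mul_of_nonneg_left hns.le ha.le
    have h6 : (n : ℝ) * a * C ≤ 1 := by
      rw [le_div_iff₀ hC] at hn1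
      exact hn1
    have h7 : (n : ℝ) * a * C * s ≤ 1 * s := mul_le_mul_of_nonneg_right h6 hs.le
    nlinarith
  have key2 : ∀ t : ℝ, 0 < t → ν (X t) ≤ 1 / (C * t0) * t := by
    intro t ht
    obtain ⟨m, hm⟩ := exists_nat_gt (t / t0)
    have hmpos : 0 < (m : ℝ) := lt_of_le_of_lt (by positivity) hm
    have h1 : t / m ≤ t0 := by
      rw [div_le_iff₀ hmpos]
      rw [div_lt_iff₀ ht0] at hm
      linarith
    have h2 := key (t / m) (by positivity) h1
    have h3 : X t = X (t / m) ^ m := by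
      rw [← N1.one_nat hX]
      congr 1
      field_simp
    have h4 := N1.pow_le hν (X (t / m)) m
    rw [h3]
    calc ν (X (t / m) ^ m) ≤ m * ν (X (t / m)) := h4
      _ ≤ m * (t / m / (C * t0)) := mul_le_mul_of_nonneg_left h2 hmpos.le
      _ = 1 / (C * t0) * t := by field_simp
  refine ⟨1 / (C * t0), by positivity, ?_⟩
  intro t
  rcases lt_trichotomy t 0 with h | h | h
  · have h1 := key2 (-t) (by linarith)
    rw [N1.one_neg hX, hν.inv] at h1
    rw [abs_of_neg h]
    exact h1
  · rw [h, hX0, hν.one]; simp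
  · rw [abs_of_pos h]
    exact key2 t h

end Pool.Agent.W880.GY
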