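import Pool.Agent.W880.GY.Stm

/-! # Project GY1, part N2 -/

set_option autoImplicit false

namespace Pool.Agent.W880.GY

open Pool.Agent.W660.FL Pool.Agent.W660.GY
open Filter Topology

namespace N2

section

variable {G : Type} [Group G] [TopologicalSpace G] {ν : G → ℝ} {X : ℝ → G}

theorem map_zero (hX : IsOne X) : X 0 = 1 := by
  have h := hX.2 0 0
  rw [add_zero] at h
  exact (mul_eq_left.1 h.symm)

theorem map_neg (hX : IsOne X) (t : ℝ) : X (-t) = (X t)⁻¹ := by
  have h := hX.2 (-t) t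
  rw [neg_add_cancel, map_zero hX] at h
  exact eq_inv_of_mul_eq_one_left h.symm

theorem even (hν : IsGleason ν) (hX : IsOne X) (t : ℝ) : ν (X (-t)) = ν (X t) := by
  rw [map_neg hX, hν.inv]

theorem bdd {M : ℝ} (hM : ∀ t, ν (X t) ≤ M * |t|) :
    BddAbove (Set.range fun t : {t : ℝ // 0 < t} => ν (X t) / (t : ℝ)) := by
  refine ⟨M, ?_⟩
  rintro _ ⟨t, rfl⟩
  have h := hM t
  rw [abs_of_pos t.2] at h
  show ν (X t) / (t : ℝ) ≤ M
  rw [div_le_iff₀ t.2]
  exact h

theorem le_nr {M : ℝ} (hM : ∀ t, ν (X t) ≤ M * |t|) {t : ℝ} (ht : 0 < t) :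
    ν (X t) / t ≤ nr ν X :=
  le_ciSup (bdd hM) ⟨t, ht⟩

theorem nr_le {B : ℝ} (h : ∀ t : ℝ, 0 < t → ν (X t) ≤ B * t) : nr ν X ≤ B := by
  haveI : Nonempty {t : ℝ // 0 < t} := ⟨⟨1, one_pos⟩⟩
  refine ciSup_le fun t => ?_
  rw [div_le_iff₀ t.2]
  exact h t t.2

theorem nu_le (hν : IsGleason ν) (hX : IsOne X) {M : ℝ} (hM : ∀ t, ν (X t) ≤ M * |t|) (t : ℝ) :
    ν (X t) ≤ nr ν X * |t| := by
  rcases lt_trichotomy t 0 with h | h | h
  · have h1 := le_nr hM (neg_pos.2 h)
    rw [div_le_iff₀ (neg_pos.2 h), even hν hX] at h1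
    rwa [abs_of_neg h]
  · subst h
    rw [map_zero hX, hν.one]
    simp
  · have h1 := le_nr hM h
    rw [div_le_iff₀ h] at h1
    rwa [abs_of_pos h]

theorem nu_nat (hν : IsGleason ν) (hX : IsOne X) (t r : ℝ) (n : ℕ) :
    ν (X (n * t + r)) ≤ n * ν (X t) + ν (X r) := by
  induction n with
  | zero => simp
  | succ n ih =>
    have e : ((n + 1 : ℕ) : ℝ) * t + r = t + (n * t + r) := by push_cast; ring
    rw [e, hX.2]
    have := hν.mul (X t) (X (n * t + r))
    push_cast
    linarith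

theorem lim (hν : IsGleason ν) (hX : IsOne X) (h0 : ∀ g, 0 ≤ ν g) {M : ℝ} (hM0 : 0 ≤ M)
    (hM : ∀ t, ν (X t) ≤ M * |t|) :
    Tendsto (fun t => ν (X t) / t) (𝓝[>] 0) (𝓝 (nr ν X)) := by
  rw [tendsto_order]
  constructor
  · intro a ha
    haveI : Nonempty {t : ℝ // 0 < t} := ⟨⟨1, one_pos⟩⟩
    set b := (a + nr ν X) / 2 with hb
    have hb1 : a < b := by rw [hb]; linarith
    have hb2 : b < nr ν X := by rw [hb]; linarith
    obtain ⟨⟨s, hs⟩, hs2⟩ := exists_lt_of_lt_ciSup hb2
    simp only at hs2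
    rw [lt_div_iff₀ hs] at hs2
    -- δ with M δ ≤ (b - a) s
    set δ := (b - a) * s / (M + 1) with hδ
    have hδ0 : 0 < δ := by
      rw [hδ]; apply div_pos (mul_pos (by linarith) hs) (by linarith)
    have : Set.Ioo (0 : ℝ) δ ∈ 𝓝[>] (0 : ℝ) := Ioo_mem_nhdsGT hδ0
    filter_upwards [this] with t ht
    have ht0 := ht.1
    have ht1 := ht.2
    rw [lt_div_iff₀ ht0]
    set n := ⌊s / t⌋₊ with hn
    have hn1 : (n : ℝ) * t ≤ s := by
      have := Nat.floor_le (div_nonneg hs.le ht0.le)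
      rw [← hn] at this
      calc (n : ℝ) * t ≤ s / t * t := by gcongr
        _ = s := by field_simp
    have hn2 : s < (n + 1) * t := by
      have := Nat.lt_floor_add_one (s / t)
      rw [← hn] at this
      rwa [div_lt_iff₀ ht0] at this
    have h1 := nu_nat hν hX t (s - n * t) n
    have e : (n : ℝ) * t + (s - n * t) = s := by ring
    rw [e] at h1
    have h2 : ν (X (s - n * t)) ≤ M * t := by
      refine le_trans (hM _) ?_
      have : |s - n * t| ≤ t := by
        rw [abs_of_nonneg (by linarith)]; linarith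
      gcongr
    have h3 : M * t < (b - a) * s := by
      have h4 : (M + 1) * t < (b - a) * s := by
        rw [hδ, lt_div_iff₀ (by linarith)] at ht1
        linarith
      nlinarith
    -- ν (X s) ≤ n ν(X t) + M t
    have h5 : a * s < n * ν (X t) := by nlinarith
    -- multiply by t
    have h6 : a * t * s < ν (X t) * s := by
      calc a * t * s = (a * s) * t := by ring
        _ < (n * ν (X t)) * t := by gcongr
        _ = ν (X t) * (n * t) := by ring
        _ ≤ ν (X t) * s := by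
            have := h0 (X t)
            gcongr
    exact lt_of_mul_lt_mul_right h6 hs.le
  · intro a ha
    have : Set.Ioi (0 : ℝ) ∈ 𝓝[>] (0 : ℝ) := self_mem_nhdsWithin
    filter_upwards [this] with t ht
    exact lt_of_le_of_lt (le_nr hM ht) ha

theorem isOne_smul (hX : IsOne X) (s : ℝ) : IsOne (fun t => X (s * t)) := by
  refine ⟨hX.1.comp (continuous_const.mul continuous_id), fun a b => ?_⟩
  show X (s * (a + b)) = X (s * a) * X (s * b)
  rw [mul_add, hX.2]

theorem scale (hν : IsGleason ν) (hX : IsOne X) {M : ℝ} (hM0 : 0 ≤ M)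
    (hM : ∀ t, ν (X t) ≤ M * |t|) (s : ℝ) :
    nr ν (fun t => X (s * t)) = |s| * nr ν X := by
  have hY := isOne_smul hX s
  have hMY : ∀ t, ν ((fun t => X (s * t)) t) ≤ (M * |s|) * |t| := by
    intro t
    show ν (X (s * t)) ≤ _
    have := hM (s * t)
    rw [abs_mul] at this
    linarith
  apply le_antisymm
  · apply nr_le
    intro t ht
    show ν (X (s * t)) ≤ _
    have := nu_le hν hX hM (s * t)
    rw [abs_mul, abs_of_pos ht] at this
    calc ν (X (s * t)) ≤ nr ν X * (|s| * t) := this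
      _ = |s| * nr ν X * t := by ring
  · rcases eq_or_ne s 0 with h | h
    · subst h
      rw [abs_zero, zero_mul]
      have := le_nr hMY one_pos
      refine le_trans ?_ this
      show 0 ≤ ν (X (0 * 1)) / 1
      rw [zero_mul, map_zero hX, hν.one]
      simp
    · have hs : 0 < |s| := abs_pos.2 h
      have h1 : nr ν X ≤ nr ν (fun t => X (s * t)) / |s| := by
        apply nr_le
        intro t ht
        have h2 := nu_le hν hY hMY (t / s)
        have e : s * (t / s) = t := by field_simp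
        have h3 : ν (X (s * (t / s))) ≤ nr ν (fun t => X (s * t)) * |t / s| := h2
        rw [e, abs_div, abs_of_pos ht] at h3
        calc ν (X t) ≤ nr ν (fun t => X (s * t)) * (t / |s|) := h3
          _ = nr ν (fun t => X (s * t)) / |s| * t := by ring
      rw [le_div_iff₀ hs] at h1
      linarith

end

end N2

theorem t_N2 : S_BASE → S_N1 → S_N2 := by
  intro hB hN1 G _ _ _ _ _ ν hν X hX
  obtain ⟨-, -, h0, -⟩ := hB G ν hν
  obtain ⟨M, hM0, hM⟩ := hN1 G ν hν X hX
  have hnu := N2.nu_le hν hX hM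
  refine ⟨?_, hnu, N2.lim hν hX h0 hM0 hM, fun B hB => N2.nr_le fun t ht => hB t ht, ?_,
    N2.scale hν hX hM0 hM⟩
  · have h1 := N2.le_nr hM one_pos
    exact le_trans (div_nonneg (h0 _) zero_le_one) h1
  · intro hz t
    by_contra hne
    have h1 := hν.pos _ hne
    have h2 := hnu t
    rw [hz, zero_mul] at h2
    linarith

end Pool.Agent.W880.GY
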