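import Pool.Agent.W880.GY.Stm

/-! Continuous one-parameter groups in a Banach algebra (part ONEP of project GY1). -/

set_option autoImplicit false

namespace Pool.Agent.W880.GY

namespace ONEP

open Filter Topology MeasureTheory

variable {B : Type} [NormedRing B] [NormedAlgebra ℝ B] [CompleteSpace B]

theorem exists_gen (T : ℝ → B) (hT : Continuous T) (h0 : T 0 = 1)
    (hadd : ∀ s t, T (s + t) = T s * T t) : ∃ A : B, ∀ t, HasDerivAt T (T t * A) t := by
  have hI : ∀ a t : ℝ, HasDerivAt (fun u => ∫ s in a..u, T s) (T t) t := fun a t =>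
    intervalIntegral.integral_hasDerivAt_right (hT.intervalIntegrable _ _)
      (hT.stronglyMeasurableAtFilter _ _) hT.continuousAt
  obtain ⟨h, hh⟩ : ∃ h : ℝ, IsUnit (∫ s in (0 : ℝ)..h, T s) := by
    have h1 := hI 0 0
    rw [h0] at h1
    have h2 := hasDerivAt_iff_tendsto_slope_zero.1 h1
    have h3 := h2.eventually (Units.isOpen.mem_nhds (isUnit_one : IsUnit (1 : B)))
    obtain ⟨t, ht, ht0⟩ := (h3.and self_mem_nhdsWithin).exists
    have ht1 : t ≠ 0 := ht0
    refine ⟨0 + t, ?_⟩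
    change IsUnit (t⁻¹ • ((∫ s in (0 : ℝ)..(0 + t), T s) - ∫ s in (0 : ℝ)..0, T s)) at ht
    rw [intervalIntegral.integral_same, sub_zero] at ht
    have h4 : (∫ s in (0 : ℝ)..(0 + t), T s) =
        algebraMap ℝ B t * (t⁻¹ • ∫ s in (0 : ℝ)..(0 + t), T s) := by
      rw [← Algebra.smul_def, smul_inv_smul₀ ht1]
    rw [h4]
    exact ((IsUnit.mk0 t ht1).map (algebraMap ℝ B)).mul ht
  obtain ⟨u, hu⟩ := hh
  have key : ∀ t, T t * (u : B) =
      (∫ s in (0 : ℝ)..(t + h), T s) - ∫ s in (0 : ℝ)..t, T s := by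
    intro t
    have h1 := (ContinuousLinearMap.mul ℝ B (T t)).intervalIntegral_comp_comm
      (hT.intervalIntegrable (μ := volume) 0 h)
    change (∫ s in (0 : ℝ)..h, T t * T s) = T t * ∫ s in (0 : ℝ)..h, T s at h1
    rw [hu, ← h1]
    have h2 : ∀ s, T t * T s = T (t + s) := fun s => (hadd t s).symm
    simp only [h2]
    rw [intervalIntegral.integral_comp_add_left (fun s => T s) t, add_zero,
      intervalIntegral.integral_interval_sub_left (hT.intervalIntegrable _ _)
        (hT.intervalIntegrable _ _)]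
  have key2 : T = fun t => ((∫ s in (0 : ℝ)..(t + h), T s) - ∫ s in (0 : ℝ)..t, T s) *
      ((u⁻¹ : Bˣ) : B) := by
    funext t
    rw [← key t, mul_assoc, Units.mul_inv, mul_one]
  refine ⟨(T h - 1) * ((u⁻¹ : Bˣ) : B), fun t => ?_⟩
  have h5 : HasDerivAt (fun t => ((∫ s in (0 : ℝ)..(t + h), T s) - ∫ s in (0 : ℝ)..t, T s) *
      ((u⁻¹ : Bˣ) : B)) ((T (t + h) - T t) * ((u⁻¹ : Bˣ) : B)) t :=
    (((hI 0 (t + h)).comp_add_const t h).sub (hI 0 t)).mul_const _
  rw [← key2] at h5
  convert h5 using 1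
  rw [hadd, ← mul_assoc, mul_sub, mul_one]

theorem exp_cancel (A : B) (t : ℝ) :
    NormedSpace.exp (t • (-A)) * NormedSpace.exp (t • A) = 1 := by
  rw [← NormedSpace.exp_add_of_commute_of_mem_ball (𝕂 := ℝ), smul_neg, neg_add_cancel,
    NormedSpace.exp_zero]
  · rw [smul_neg]
    exact (Commute.refl _).neg_left
  · exact (NormedSpace.expSeries_radius_eq_top ℝ B).symm ▸ edist_lt_top _ _
  · exact (NormedSpace.expSeries_radius_eq_top ℝ B).symm ▸ edist_lt_top _ _

theorem eq_exp (T : ℝ → B) (hT : Continuous T) (h0 : T 0 = 1)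
    (hadd : ∀ s t, T (s + t) = T s * T t) : ∃ A : B, ∀ t, T t = NormedSpace.exp (t • A) := by
  obtain ⟨A, hA⟩ := exists_gen T hT h0 hadd
  refine ⟨A, fun t => ?_⟩
  have hd : ∀ t : ℝ, HasDerivAt (fun t => T t * NormedSpace.exp (t • (-A))) 0 t := by
    intro t
    have h1 := (hA t).mul (hasDerivAt_exp_smul_const' (𝕂 := ℝ) (-A) t)
    have h3 : T t * A * NormedSpace.exp (t • -A) + T t * (-A * NormedSpace.exp (t • -A)) = 0 := by
      rw [neg_mul, mul_neg, mul_assoc, add_neg_cancel]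
    rw [h3] at h1
    exact h1
  have h2 := is_const_of_deriv_eq_zero (fun t => (hd t).differentiableAt)
    (fun t => (hd t).deriv) t 0
  simp only [h0, zero_smul, NormedSpace.exp_zero, mul_one] at h2
  calc T t = T t * (NormedSpace.exp (t • (-A)) * NormedSpace.exp (t • A)) := by
        rw [exp_cancel, mul_one]
    _ = NormedSpace.exp (t • A) := by rw [← mul_assoc, h2, one_mul]

end ONEP

theorem t_ONEP : S_ONEP := by
  intro E _ _ _ T hT h0 hadd
  have : CompleteSpace E := FiniteDimensional.complete ℝ E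
  exact ONEP.eq_exp T hT h0 hadd

end Pool.Agent.W880.GY
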