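import Pool.Agent.W880.GY.Stm

/-!
Part PHI: the function `φ A = ∑ A ^ m / (m + 1)!` is smooth and a limit of Riemann sums.
-/

set_option autoImplicit false

namespace Pool.Agent.W880.GY.PHIP

open Filter Topology
open scoped ContDiff Nat

noncomputable section

/-- power sums -/
theorem powsum_bounds (m n : ℕ) :
    ∑ k ∈ Finset.range n, (k : ℝ) ^ m ≤ (n : ℝ) ^ (m + 1) / (m + 1) ∧
    (n : ℝ) ^ (m + 1) / (m + 1) ≤ ∑ k ∈ Finset.range n, (k : ℝ) ^ m + (n : ℝ) ^ m := by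
  have hmono : MonotoneOn (fun x : ℝ => x ^ m) (Set.Icc (0 : ℝ) (0 + (n : ℕ))) := by
    intro x hx y hy hxy
    exact pow_le_pow_left₀ hx.1 hxy m
  have h1 := hmono.sum_le_integral
  have h2 := hmono.integral_le_sum
  have hI : ∫ x in (0 : ℝ)..0 + (n : ℕ), x ^ m = (n : ℝ) ^ (m + 1) / (m + 1) := by
    rw [integral_pow]; simp
  rw [hI] at h1 h2
  refine ⟨by simpa using h1, ?_⟩
  have h3 : ∑ i ∈ Finset.range n, ((0 : ℝ) + ((i + 1 : ℕ) : ℝ)) ^ m
      ≤ ∑ k ∈ Finset.range n, (k : ℝ) ^ m + (n : ℝ) ^ m := by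
    have h4 : ∑ k ∈ Finset.range (n + 1), (k : ℝ) ^ m
        = ∑ k ∈ Finset.range n, (k : ℝ) ^ m + (n : ℝ) ^ m := Finset.sum_range_succ _ _
    have h5 : ∑ k ∈ Finset.range (n + 1), (k : ℝ) ^ m
        = ∑ k ∈ Finset.range n, ((k + 1 : ℕ) : ℝ) ^ m + ((0 : ℕ) : ℝ) ^ m :=
      Finset.sum_range_succ' _ _
    have h6 : (0 : ℝ) ≤ ((0 : ℕ) : ℝ) ^ m := by positivity
    have h7 : ∑ i ∈ Finset.range n, ((0 : ℝ) + ((i + 1 : ℕ) : ℝ)) ^ m
        = ∑ k ∈ Finset.range n, ((k + 1 : ℕ) : ℝ) ^ m := by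
      refine Finset.sum_congr rfl fun i _ => ?_
      rw [zero_add]
    rw [h7]
    linarith
  exact h2.trans h3

/-- the averages -/
def av (m n : ℕ) : ℝ := (n : ℝ)⁻¹ * ∑ k ∈ Finset.range n, ((k : ℝ) / n) ^ m

theorem av_nonneg (m n : ℕ) : 0 ≤ av m n := by
  unfold av; positivity

theorem av_le_one (m n : ℕ) : av m n ≤ 1 := by
  unfold av
  rcases Nat.eq_zero_or_pos n with rfl | hn
  · simp
  have hn' : (0 : ℝ) < n := by exact_mod_cast hn
  have h : ∑ k ∈ Finset.range n, ((k : ℝ) / n) ^ m ≤ ∑ _k ∈ Finset.range n, (1 : ℝ) := by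
    refine Finset.sum_le_sum fun k hk => ?_
    have hk' : (k : ℝ) ≤ n := by exact_mod_cast (Finset.mem_range.mp hk).le
    exact pow_le_one₀ (by positivity) ((div_le_one hn').mpr hk')
  have h' : ∑ _k ∈ Finset.range n, (1 : ℝ) = n := by simp
  rw [h'] at h
  calc (n : ℝ)⁻¹ * ∑ k ∈ Finset.range n, ((k : ℝ) / n) ^ m ≤ (n : ℝ)⁻¹ * n := by gcongr
    _ = 1 := inv_mul_cancel₀ hn'.ne'

theorem av_tendsto (m : ℕ) : Tendsto (fun n : ℕ => av m n) atTop (𝓝 (1 / ((m : ℝ) + 1))) := by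
  have hb : ∀ᶠ n : ℕ in atTop, |av m n - 1 / ((m : ℝ) + 1)| ≤ 1 / (n : ℝ) := by
    filter_upwards [eventually_gt_atTop 0] with n hn
    have hn' : (0 : ℝ) < n := by exact_mod_cast hn
    obtain ⟨h1, h2⟩ := powsum_bounds m n
    have hav : av m n = (∑ k ∈ Finset.range n, (k : ℝ) ^ m) / (n : ℝ) ^ (m + 1) := by
      unfold av
      rw [Finset.sum_div, Finset.mul_sum]
      refine Finset.sum_congr rfl fun k _ => ?_
      rw [div_pow, pow_succ]
      field_simp
    have hp : (0 : ℝ) < (n : ℝ) ^ (m + 1) := by positivity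
    have e1 : av m n ≤ 1 / ((m : ℝ) + 1) := by
      rw [hav, div_le_iff₀ hp]
      calc _ ≤ _ := h1
        _ = 1 / ((m : ℝ) + 1) * (n : ℝ) ^ (m + 1) := by ring
    have e2 : 1 / ((m : ℝ) + 1) ≤ av m n + 1 / (n : ℝ) := by
      have : av m n + 1 / (n : ℝ)
          = (∑ k ∈ Finset.range n, (k : ℝ) ^ m + (n : ℝ) ^ m) / (n : ℝ) ^ (m + 1) := by
        rw [hav, pow_succ]
        field_simp
      rw [this, le_div_iff₀ hp]
      calc 1 / ((m : ℝ) + 1) * (n : ℝ) ^ (m + 1) = (n : ℝ) ^ (m + 1) / (m + 1) := by ring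
        _ ≤ _ := h2
    rw [abs_le]
    have : 0 < 1 / (n : ℝ) := by positivity
    constructor <;> linarith
  have h0 : Tendsto (fun n : ℕ => 1 / (n : ℝ)) atTop (𝓝 0) := tendsto_one_div_atTop_nhds_zero_nat
  have h1 : Tendsto (fun n : ℕ => av m n - 1 / ((m : ℝ) + 1)) atTop (𝓝 0) :=
    squeeze_zero_norm' (by simpa [Real.norm_eq_abs] using hb) h0
  have h2 := h1.add_const (1 / ((m : ℝ) + 1))
  simpa using h2

variable {A : Type} [NormedRing A] [NormedAlgebra ℝ A] [CompleteSpace A]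

/-- coefficients -/
def cf (n : ℕ) : ℝ := (((n + 1).factorial : ℕ) : ℝ)⁻¹

theorem cf_radius : (FormalMultilinearSeries.ofScalars A cf).radius = ⊤ := by
  refine FormalMultilinearSeries.ofScalars_radius_eq_top_of_tendsto A cf ?_ ?_
  · refine Eventually.of_forall fun n => ?_
    unfold cf
    have : (0 : ℝ) < ((n + 1).factorial : ℕ) := by exact_mod_cast Nat.factorial_pos _
    positivity
  · have h : ∀ n : ℕ, ‖cf n.succ‖ / ‖cf n‖ = 1 / ((n + 1 : ℕ) + 1 : ℝ) := by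
      intro n
      unfold cf
      have h1 : (0 : ℝ) < ((n + 1).factorial : ℕ) := by exact_mod_cast Nat.factorial_pos _
      have h2 : (((n.succ + 1).factorial : ℕ) : ℝ) = ((n + 1 : ℕ) + 1 : ℝ) * ((n + 1).factorial : ℕ) := by
        rw [Nat.succ_eq_add_one, Nat.factorial_succ (n + 1)]; push_cast; ring
      rw [norm_inv, norm_inv, h2, norm_mul, Real.norm_of_nonneg h1.le,
        Real.norm_of_nonneg (by positivity)]
      field_simp
    simp_rw [h]
    have := (tendsto_one_div_add_atTop_nhds_zero_nat (𝕜 := ℝ)).comp (tendsto_add_atTop_nat 1)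
    refine this.congr fun n => ?_
    simp

/-- the function -/
def phi (x : A) : A := FormalMultilinearSeries.ofScalarsSum cf x

theorem phi_contDiff : ContDiff ℝ ∞ (phi (A := A)) := by
  have h := (FormalMultilinearSeries.ofScalars A cf).hasFPowerSeriesOnBall
    (by rw [cf_radius]; exact ENNReal.zero_lt_top)
  rw [cf_radius] at h
  have h2 : AnalyticOnNhd ℝ (phi (A := A)) Set.univ := by
    intro x _
    exact h.analyticAt_of_mem (by simp [edist_lt_top])
  exact (contDiffOn_univ.mp (h2.contDiffOn uniqueDiffOn_univ))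

theorem phi_zero : phi (0 : A) = 1 := by
  unfold phi
  rw [FormalMultilinearSeries.ofScalarsSum_zero]
  simp [cf]

theorem phi_tsum (x : A) : phi x = ∑' n, cf n • x ^ n := by
  unfold phi
  rw [FormalMultilinearSeries.ofScalarsSum_eq_tsum]

theorem riemann_eq (x : A) (n : ℕ) : ((n : ℝ))⁻¹ •
    ∑ k ∈ Finset.range n, NormedSpace.exp ((k / n : ℝ) • x)
    = ∑' m, av m n • ((m.factorial : ℝ)⁻¹ • x ^ m) := by
  have h1 : ∀ k : ℕ, NormedSpace.exp ((k / n : ℝ) • x)
      = ∑' m, ((k : ℝ) / n) ^ m • ((m.factorial : ℝ)⁻¹ • x ^ m) := by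
    intro k
    rw [NormedSpace.exp_eq_tsum ℝ]
    refine tsum_congr fun m => ?_
    rw [smul_pow, smul_comm]
  have hs : ∀ k : ℕ, Summable fun m => ((k : ℝ) / n) ^ m • ((m.factorial : ℝ)⁻¹ • x ^ m) := by
    intro k
    have := NormedSpace.expSeries_summable' (𝕂 := ℝ) ((k / n : ℝ) • x)
    refine this.congr fun m => ?_
    rw [smul_pow, smul_comm]
  simp_rw [h1]
  rw [← Summable.tsum_finsetSum (fun k _ => hs k), ← tsum_const_smul'']
  refine tsum_congr fun m => ?_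
  rw [← Finset.sum_smul, smul_smul]
  rfl

theorem phi_tendsto (x : A) : Tendsto (fun n : ℕ => ((n : ℝ))⁻¹ •
    ∑ k ∈ Finset.range n, NormedSpace.exp ((k / n : ℝ) • x)) atTop (𝓝 (phi x)) := by
  simp_rw [riemann_eq]
  have hphi : phi x = ∑' m : ℕ, (1 / ((m : ℝ) + 1)) • ((m.factorial : ℝ)⁻¹ • x ^ m) := by
    rw [phi_tsum]
    refine tsum_congr fun m => ?_
    rw [smul_smul]
    congr 1
    unfold cf
    rw [Nat.factorial_succ]
    push_cast
    rw [mul_inv, one_div]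
  rw [hphi]
  refine tendsto_tsum_of_dominated_convergence
    (bound := fun m => ‖(m.factorial : ℝ)⁻¹ • x ^ m‖)
    (NormedSpace.norm_expSeries_summable' (𝕂 := ℝ) x) ?_ ?_
  · intro m
    exact (av_tendsto m).smul_const _
  · refine Eventually.of_forall fun n m => ?_
    rw [norm_smul, Real.norm_of_nonneg (av_nonneg m n)]
    exact mul_le_of_le_one_left (norm_nonneg _) (av_le_one m n)

end

end Pool.Agent.W880.GY.PHIP

namespace Pool.Agent.W880.GY

theorem t_PHI : S_PHI := by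
  intro E _ _ _
  haveI : CompleteSpace E := FiniteDimensional.complete ℝ E
  exact ⟨PHIP.phi, PHIP.phi_contDiff, PHIP.phi_zero, fun A => PHIP.phi_tendsto A⟩

end Pool.Agent.W880.GY
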