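import Pool.Agent.W880.GY.Stm

/-!
Products of many small elements in an exponential chart.
-/

set_option autoImplicit false

namespace Pool.Agent.W880.GY

open Pool.Agent.W660.FL Pool.Agent.W660.GY
open Filter Topology
open scoped Manifold ContDiff

theorem t_PROD : S_PROD := by
  intro G _ _ _ E _ _ _ C
  obtain ⟨δ, hδ, K, hK, hest⟩ := C.est
  refine ⟨min (δ / 4) (1 / (2 * K)), by positivity, K, hK, ?_⟩
  intro a P hP0 hPs n
  induction n with
  | zero =>
    intro _
    rw [hP0]
    refine ⟨C.one_mem, ?_⟩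
    rw [C.map_one]
    simp
  | succ n ih =>
    intro hS
    rw [Finset.sum_range_succ] at hS
    set S : ℝ := ∑ k ∈ Finset.range n, ‖a k‖ with hSdef
    set T : E := ∑ k ∈ Finset.range n, a k with hTdef
    have hS0 : 0 ≤ S := Finset.sum_nonneg fun _ _ => norm_nonneg _
    have hA0 : 0 ≤ ‖a n‖ := norm_nonneg _
    have h1 : S + ‖a n‖ ≤ δ / 4 := hS.trans (min_le_left _ _)
    have h2 : S + ‖a n‖ ≤ 1 / (2 * K) := hS.trans (min_le_right _ _)
    have hSS : S ≤ min (δ / 4) (1 / (2 * K)) := by linarith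
    obtain ⟨hmem, hb⟩ := ih hSS
    have hKS : K * S ≤ 1 / 2 := by
      have h3 : K * S ≤ K * (1 / (2 * K)) := mul_le_mul_of_nonneg_left (by linarith) hK.le
      have h4 : K * (1 / (2 * K)) = 1 / 2 := by field_simp
      linarith
    have hT : ‖T‖ ≤ S := norm_sum_le _ _
    set b : E := C.κ (P n) with hbdef
    have heb : C.e b = P n := by
      rw [← C.symm, hbdef]
      exact C.κ.left_inv hmem
    have hbn : ‖b‖ ≤ 2 * S := by
      have h3 : ‖b‖ ≤ ‖b - T‖ + ‖T‖ := by
        calc ‖b‖ = ‖(b - T) + T‖ := by rw [sub_add_cancel]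
          _ ≤ _ := norm_add_le _ _
      have h4 : K * S ^ 2 ≤ S := by
        have : K * S ^ 2 = (K * S) * S := by ring
        rw [this]
        nlinarith
      linarith
    obtain ⟨h5, h6⟩ := hest b (a n) (by linarith) (by linarith)
    rw [heb, ← hPs] at h5 h6
    refine ⟨h5, ?_⟩
    rw [Finset.sum_range_succ, Finset.sum_range_succ, ← hSdef, ← hTdef]
    have h7 : C.κ (P (n + 1)) - (T + a n) = (C.κ (P (n + 1)) - (b + a n)) + (b - T) := by abel
    rw [h7]
    refine (norm_add_le _ _).trans ?_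
    have h8 : K * ‖b‖ * ‖a n‖ ≤ K * (2 * S) * ‖a n‖ :=
      mul_le_mul_of_nonneg_right (mul_le_mul_of_nonneg_left hbn hK.le) hA0
    have h9 : 0 ≤ K * ‖a n‖ ^ 2 := by positivity
    nlinarith

end Pool.Agent.W880.GY
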