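import Pool.Agent.W880.GY.Stm

/-! Part SJ: the exponential map is locally surjective (Gleason). -/

set_option autoImplicit false

namespace Pool.Agent.W880.GY

open Pool.Agent.W660.FL Pool.Agent.W660.GY
open Filter Topology

namespace SJ

theorem one_zero {G : Type} [Group G] [TopologicalSpace G] {X : ℝ → G} (hX : IsOne X) :
    X 0 = 1 := by
  have h := hX.2 0 0
  rw [add_zero] at h
  exact (mul_eq_left.1 h.symm)

theorem one_nat {G : Type} [Group G] [TopologicalSpace G] {X : ℝ → G} (hX : IsOne X) (t : ℝ)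
    (n : ℕ) : X (n * t) = X t ^ n := by
  induction n with
  | zero => simp [one_zero hX]
  | succ n ih =>
    have e : ((n + 1 : ℕ) : ℝ) * t = n * t + t := by push_cast; ring
    rw [e, hX.2, ih, pow_succ]

section

variable {G : Type} [Group G] [TopologicalSpace G] {ν : G → ℝ} {E : Type}
  [NormedAddCommGroup E] [NormedSpace ℝ E]

theorem ev_zero (L : LS ν E) (t : ℝ) : L.ev 0 t = 1 := by
  have h := L.smul 0 0 t
  rw [smul_zero, zero_mul] at h
  rw [h, one_zero (L.one 0)]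

theorem ev_small (L : LS ν E) (x : E) (s : ℝ) : L.ev (s • x) 1 = L.ev x s := by
  rw [L.smul, mul_one]

end

theorem small_case (hBASE : S_BASE) (hGL : S_GL) (hA3 : S_A3) (hN2 : S_N2) (hLE : S_LE)
    (_hBL : S_BL) (hFD : S_FD) (G : Type) [Group G] [TopologicalSpace G] [IsTopologicalGroup G]
    [T2Space G] [LocallyCompactSpace G] (ν : G → ℝ) (hν : IsGleason ν)
    (E : Type) [NormedAddCommGroup E] [NormedSpace ℝ E] (L : LS ν E)
    (r : ℝ) (hr : 0 < r)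
    {εB KB : ℝ} (hrB : r ≤ εB) (hKB : 0 < KB)
    (hB : ∀ x y : E, ‖x‖ ≤ εB → ‖y‖ ≤ εB →
      ‖x - y‖ ≤ KB * ν ((L.ev x 1)⁻¹ * L.ev y 1) ∧ ν ((L.ev x 1)⁻¹ * L.ev y 1) ≤ KB * ‖x - y‖) :
    ∃ δ > 0, ∀ g : G, ν g < δ → ∃ x : E, ‖x‖ ≤ r ∧ L.ev x 1 = g := by
  classical
  obtain ⟨hcont, -, hnn, -⟩ := hBASE G ν hν
  obtain ⟨εA, hεA, KA, hKA, hA⟩ := hA3 G ν hν
  obtain ⟨εL, hεL, KL, hKL, hL⟩ := hLE G ν hν E L
  have : FiniteDimensional ℝ E := hFD G ν hν E L
  have : ProperSpace E := FiniteDimensional.proper ℝ E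
  by_contra hcon
  push Not at hcon
  have hch : ∀ i : ℕ, ∃ g : G, ν g < 1 / ((i : ℝ) + 1) ∧ ∀ x : E, ‖x‖ ≤ r → L.ev x 1 ≠ g := by
    intro i
    exact hcon (1 / ((i : ℝ) + 1)) (by positivity)
  choose g hg1 hg2 using hch
  -- Lipschitz
  have hlip : ∀ (u : G) (x y : E), ‖x‖ ≤ r → ‖y‖ ≤ r →
      ν ((L.ev x 1)⁻¹ * u) - ν ((L.ev y 1)⁻¹ * u) ≤ KB * ‖x - y‖ := by
    intro u x y hx hy
    have h1 := hν.mul ((L.ev x 1)⁻¹ * L.ev y 1) ((L.ev y 1)⁻¹ * u)
    have e : (L.ev x 1)⁻¹ * L.ev y 1 * ((L.ev y 1)⁻¹ * u) = (L.ev x 1)⁻¹ * u := by group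
    rw [e] at h1
    have h2 := (hB x y (hx.trans hrB) (hy.trans hrB)).2
    linarith
  have hmin : ∀ i : ℕ, ∃ x : E, ‖x‖ ≤ r ∧ ∀ y : E, ‖y‖ ≤ r →
      ν ((L.ev x 1)⁻¹ * g i) ≤ ν ((L.ev y 1)⁻¹ * g i) := by
    intro i
    have hc : ContinuousOn (fun x : E => ν ((L.ev x 1)⁻¹ * g i)) (Metric.closedBall 0 r) := by
      have hLip : LipschitzOnWith (Real.toNNReal KB) (fun x : E => ν ((L.ev x 1)⁻¹ * g i))
          (Metric.closedBall 0 r) := by
        apply LipschitzOnWith.of_dist_le_mul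
        intro x hx y hy
        rw [mem_closedBall_zero_iff] at hx hy
        rw [Real.coe_toNNReal KB hKB.le, Real.dist_eq, dist_eq_norm, abs_le]
        have h1 := hlip (g i) x y hx hy
        have h2 := hlip (g i) y x hy hx
        rw [norm_sub_rev y x] at h2
        constructor <;> linarith
      exact hLip.continuousOn
    obtain ⟨x, hx, hxm⟩ := (isCompact_closedBall (0 : E) r).exists_isMinOn
      ⟨0, by simp [hr.le]⟩ hc
    rw [mem_closedBall_zero_iff] at hx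
    refine ⟨x, hx, fun y hy => ?_⟩
    exact hxm (mem_closedBall_zero_iff.2 hy)
  choose x hx1 hx2 using hmin
  set k : ℕ → G := fun i => (L.ev (x i) 1)⁻¹ * g i with hk
  set d : ℕ → ℝ := fun i => ν (k i) with hd
  have hdpos : ∀ i, 0 < d i := by
    intro i
    apply hν.pos
    intro h
    rw [hk] at h
    simp only at h
    rw [inv_mul_eq_one] at h
    exact hg2 i (x i) (hx1 i) h
  have hdle : ∀ i, d i ≤ ν (g i) := by
    intro i
    have h := hx2 i 0 (by simp [hr.le])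
    rw [ev_zero L, inv_one, one_mul] at h
    exact h
  have hxi : ∀ i, ‖x i‖ ≤ KB * (2 * (1 / ((i : ℝ) + 1))) := by
    intro i
    have h1 := (hB (x i) 0 ((hx1 i).trans hrB) (by simp; linarith)).1
    rw [ev_zero L, mul_one, hν.inv, sub_zero] at h1
    have h2 : ν (L.ev (x i) 1) ≤ ν (g i) + d i := by
      have h3 := hν.mul (g i) (k i)⁻¹
      have e : g i * (k i)⁻¹ = L.ev (x i) 1 := by
        simp only [hk]; group
      rw [e, hν.inv] at h3
      exact h3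
    have h4 := hdle i
    have h5 := (hg1 i).le
    refine h1.trans (mul_le_mul_of_nonneg_left ?_ hKB.le)
    linarith
  have hx0 : Tendsto (fun i => ‖x i‖) atTop (𝓝 0) := by
    have h1 : Tendsto (fun i : ℕ => KB * (2 * (1 / ((i : ℝ) + 1)))) atTop (𝓝 (KB * (2 * 0))) :=
      (tendsto_one_div_add_atTop_nhds_zero_nat.const_mul 2).const_mul KB
    rw [mul_zero, mul_zero] at h1
    exact squeeze_zero (fun i => norm_nonneg _) hxi h1
  -- parameters
  set c : ℝ := εA / 2 with hc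
  have hc0 : 0 < c := by rw [hc]; linarith
  set N : ℕ → ℝ := fun i => c / d i with hN
  have hNpos : ∀ i, 0 < N i := fun i => div_pos hc0 (hdpos i)
  have hNd : ∀ i, N i * d i = c := fun i => div_mul_cancel₀ c (hdpos i).ne'
  have hNtop : Tendsto N atTop atTop := by
    have h1 : Tendsto (fun i : ℕ => c * ((i : ℝ) + 1)) atTop atTop := by
      apply Tendsto.const_mul_atTop hc0
      exact tendsto_atTop_add_const_right _ _ tendsto_natCast_atTop_atTop
    refine tendsto_atTop_mono (fun i => ?_) h1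
    rw [hN]
    simp only
    rw [le_div_iff₀ (hdpos i)]
    have h2 : d i ≤ 1 / ((i : ℝ) + 1) := (hdle i).trans (hg1 i).le
    have h3 : (0 : ℝ) < (i : ℝ) + 1 := by positivity
    calc c * ((i : ℝ) + 1) * d i ≤ c * ((i : ℝ) + 1) * (1 / ((i : ℝ) + 1)) :=
          mul_le_mul_of_nonneg_left h2 (by positivity)
      _ = c := by field_simp
  set F : Ultrafilter ℕ := hyperfilter ℕ with hF
  have hFle : (F : Filter ℕ) ≤ atTop := by
    rw [hF, ← Nat.cofinite_eq_atTop]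
    exact hyperfilter_le_cofinite
  have hNF : Tendsto N (F : Filter ℕ) atTop := hNtop.mono_left hFle
  obtain ⟨X, hX1, hX2, hX3⟩ := hGL G ν hν ℕ F k N c hNF (fun i => (hNd i).le)
  obtain ⟨v, hv⟩ := L.surj X hX1
  have hvc : ‖v‖ ≤ c := by
    rw [L.norm, hv]
    apply (hN2 G ν hν X hX1).2.2.2.1
    intro t ht
    have := hX2 t
    rwa [abs_of_pos ht] at this
  -- limits
  have hlim1 : Tendsto (fun i => (k i) ^ ⌊N i⌋₊) (F : Filter ℕ) (𝓝 (X 1)) := by
    have h1 := hX3 1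
    refine h1.congr (fun i => ?_)
    rw [mul_one, ← Int.natCast_floor_eq_floor (hNpos i).le, zpow_natCast]
  have hlim2 : Tendsto (fun i => (X (1 / N i)) ^ ⌊N i⌋₊) (F : Filter ℕ) (𝓝 (X 1)) := by
    have h1 : Tendsto (fun i => ((⌊N i⌋₊ : ℝ)) / N i) (F : Filter ℕ) (𝓝 1) :=
      (tendsto_nat_floor_div_atTop (R := ℝ)).comp hNF
    have h2 := (hX1.1.tendsto 1).comp h1
    refine h2.congr (fun i => ?_)
    simp only [Function.comp]
    rw [← one_nat hX1]
    congr 1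
    ring
  set τ : ℕ → ℝ := fun i => ν (((k i) ^ ⌊N i⌋₊)⁻¹ * (X (1 / N i)) ^ ⌊N i⌋₊) with hτ
  have hτ0 : Tendsto τ (F : Filter ℕ) (𝓝 0) := by
    have h1 := (hlim1.inv).mul hlim2
    have h2 := (hcont.tendsto _).comp h1
    rw [inv_mul_cancel, hν.one] at h2
    exact h2
  -- the bracket
  have hbr : Tendsto (fun i => KL * ‖x i‖ * ‖v‖ / c + 2 * KA * τ i / c) (F : Filter ℕ) (𝓝 0) := by
    have h1 : Tendsto (fun i => KL * ‖x i‖ * ‖v‖ / c) (F : Filter ℕ) (𝓝 (KL * 0 * ‖v‖ / c)) :=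
      (((hx0.mono_left hFle).const_mul KL).mul_const _).div_const _
    have h2 : Tendsto (fun i => 2 * KA * τ i / c) (F : Filter ℕ) (𝓝 (2 * KA * 0 / c)) :=
      (hτ0.const_mul (2 * KA)).div_const _
    have h3 := h1.add h2
    simpa using h3
  have hsm : Tendsto (fun i => ‖x i‖ + ‖v‖ / N i) (F : Filter ℕ) (𝓝 0) := by
    have h1 := (hx0.mono_left hFle).add (hNF.const_div_atTop ‖v‖)
    simpa using h1
  have hE1 := hbr.eventually (gt_mem_nhds (zero_lt_one' ℝ))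
  have hE2 := hsm.eventually (gt_mem_nhds (lt_min hr hεL))
  have hE3 := hNF.eventually (eventually_ge_atTop (2 : ℝ))
  obtain ⟨i, ⟨h1, h2⟩, h3⟩ := ((hE1.and hE2).and hE3).exists

  have hNi := hNpos i
  have hdi := hdpos i
  have hnle : ((⌊N i⌋₊ : ℕ) : ℝ) ≤ N i := Nat.floor_le hNi.le
  have hnge : N i / 2 ≤ ((⌊N i⌋₊ : ℕ) : ℝ) := by
    have h4 := Nat.lt_floor_add_one (N i)
    linarith
  have hXi : ν (X (1 / N i)) ≤ ‖v‖ * (1 / N i) := by
    have h4 := (hN2 G ν hν X hX1).2.1 (1 / N i)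
    rw [abs_of_pos (by positivity)] at h4
    rw [L.norm, hv]
    exact h4
  -- A3
  have hA' : ((⌊N i⌋₊ : ℕ) : ℝ) * ν ((k i)⁻¹ * X (1 / N i)) ≤ KA * τ i := by
    apply (hA (k i) (X (1 / N i)) ⌊N i⌋₊ ?_).1
    have h5 : ((⌊N i⌋₊ : ℕ) : ℝ) * (ν (k i) + ν (X (1 / N i))) ≤
        N i * (d i + ‖v‖ * (1 / N i)) := by
      apply mul_le_mul hnle (add_le_add le_rfl hXi) (add_nonneg (hnn _) (hnn _)) hNi.le
    have h6 : N i * (d i + ‖v‖ * (1 / N i)) = c + ‖v‖ := by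
      rw [mul_add, hNd]
      field_simp
    rw [h6] at h5
    have h7 : c + c = εA := by rw [hc]; ring
    linarith
  have hw : ν ((k i)⁻¹ * X (1 / N i)) ≤ 2 * KA * τ i / c * d i := by
    have h5 : N i / 2 * ν ((k i)⁻¹ * X (1 / N i)) ≤ KA * τ i :=
      (mul_le_mul_of_nonneg_right hnge (hnn _)).trans hA'
    have h6 : 2 * KA * τ i / c * d i = 2 * (KA * τ i) / N i := by
      rw [hN]
      simp only
      field_simp
    rw [h6, le_div_iff₀ hNi]
    linarith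
  -- LE
  set z : E := x i + (1 / N i) • v with hz
  have hnv : ‖(1 / N i) • v‖ = ‖v‖ / N i := by
    rw [norm_smul, Real.norm_eq_abs, abs_of_pos (by positivity)]
    ring
  have hL' := hL (x i) ((1 / N i) • v) (by
    rw [hnv]
    exact (h2.trans_le (min_le_right _ _)).le)
  rw [ev_small L, hv, ← hz, hnv] at hL'
  have hzr : ‖z‖ ≤ r := by
    refine (norm_add_le _ _).trans ?_
    rw [hnv]
    exact (h2.trans_le (min_le_left _ _)).le
  have hzm := hx2 i z hzr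
  have hzz : ν ((L.ev z 1)⁻¹ * g i) ≤ KL * ‖x i‖ * (‖v‖ / N i) + ν ((k i)⁻¹ * X (1 / N i)) := by
    have h5 := hν.mul ((L.ev z 1)⁻¹ * (L.ev (x i) 1 * X (1 / N i))) ((X (1 / N i))⁻¹ * k i)
    have e1 : (L.ev z 1)⁻¹ * (L.ev (x i) 1 * X (1 / N i)) * ((X (1 / N i))⁻¹ * k i) =
        (L.ev z 1)⁻¹ * g i := by
      simp only [hk]; group
    have e2 : ν ((L.ev z 1)⁻¹ * (L.ev (x i) 1 * X (1 / N i))) =
        ν ((L.ev (x i) 1 * X (1 / N i))⁻¹ * L.ev z 1) := by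
      rw [← hν.inv]; congr 1; group
    have e3 : ν ((X (1 / N i))⁻¹ * k i) = ν ((k i)⁻¹ * X (1 / N i)) := by
      rw [← hν.inv]; congr 1; group
    rw [e1, e2, e3] at h5
    linarith
  have h8 : KL * ‖x i‖ * (‖v‖ / N i) = KL * ‖x i‖ * ‖v‖ / c * d i := by
    rw [hN]
    simp only
    field_simp
  have h9 : ν ((L.ev z 1)⁻¹ * g i) ≤ (KL * ‖x i‖ * ‖v‖ / c + 2 * KA * τ i / c) * d i := by
    rw [h8] at hzz
    linarith
  have h10 : (KL * ‖x i‖ * ‖v‖ / c + 2 * KA * τ i / c) * d i < 1 * d i :=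
    mul_lt_mul_of_pos_right h1 hdi
  have h11 : d i ≤ ν ((L.ev z 1)⁻¹ * g i) := hzm
  linarith

end SJ

theorem t_SJ : S_BASE → S_GL → S_A3 → S_N2 → S_LE → S_BL → S_FD → S_SJ := by
  intro hBASE hGL hA3 hN2 hLE hBL hFD G _ _ _ _ _ ν hν E _ _ L r hr
  obtain ⟨εB, hεB, KB, hKB, hB⟩ := hBL G ν hν E L
  obtain ⟨δ, hδ, h⟩ := SJ.small_case hBASE hGL hA3 hN2 hLE hBL hFD G ν hν E L (min r εB)
    (lt_min hr hεB) (min_le_right _ _) hKB hB
  refine ⟨δ, hδ, fun g hg => ?_⟩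
  obtain ⟨x, hx, hxg⟩ := h g hg
  exact ⟨x, hx.trans (min_le_left _ _), hxg⟩

end Pool.Agent.W880.GY
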