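import Pool.Agent.W880.GY.Stm

set_option autoImplicit false

/-!
# Part T1: tangent one-parameter subgroups are equal
-/

namespace Pool.Agent.W880.GY

open Pool.Agent.W660.FL Pool.Agent.W660.GY
open Filter Topology

namespace T1aux

variable {G : Type} [Group G] [TopologicalSpace G]

theorem zero {X : ℝ → G} (hX : IsOne X) : X 0 = 1 := by
  have h := hX.2 0 0
  rw [add_zero] at h
  exact left_eq_mul.mp h

theorem pow {X : ℝ → G} (hX : IsOne X) (t : ℝ) (n : ℕ) : (X t) ^ n = X (n * t) := by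
  induction n with
  | zero => simp [zero hX]
  | succ n ih =>
    rw [pow_succ, ih, ← hX.2]
    congr 1
    push_cast
    ring

theorem neg {X : ℝ → G} (hX : IsOne X) (t : ℝ) : X (-t) = (X t)⁻¹ := by
  apply eq_inv_of_mul_eq_one_left
  rw [← hX.2, neg_add_cancel, zero hX]

end T1aux

theorem t_T1 : S_BASE → S_A3 → S_N1 → S_T1 := by
  intro _ hA3 hN1 G _ _ _ _ _ ν hν X Y hX hY hT
  obtain ⟨ε₀, hε₀, K, hK, hA⟩ := hA3 G ν hν
  obtain ⟨MX, hMX0, hMX⟩ := hN1 G ν hν X hX
  obtain ⟨MY, hMY0, hMY⟩ := hN1 G ν hν Y hY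
  -- small times
  have small : ∀ s : ℝ, 0 < s → s * (MX + MY) ≤ ε₀ → X s = Y s := by
    intro s hs hsm
    have key : ∀ η : ℝ, 0 < η → ν ((X s)⁻¹ * Y s) ≤ K * (η * s) := by
      intro η hη
      obtain ⟨δ, hδ, hd⟩ := hT η hη
      obtain ⟨n, hn⟩ := exists_nat_gt (s / δ)
      have hn0 : (0 : ℝ) < n := lt_of_le_of_lt (by positivity) hn
      have h1 : 0 < s / n := by positivity
      have h2 : s / n < δ := by
        rw [div_lt_iff₀ hδ] at hn
        rw [div_lt_iff₀ hn0]
        linarith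
      have h3 := hd (s / n) h1 h2
      have e1 : (n : ℝ) * (s / n) = s := by field_simp
      have h4 : (n : ℝ) * (ν (X (s / n)) + ν (Y (s / n))) ≤ ε₀ := by
        have a1 := hMX (s / n)
        have a2 := hMY (s / n)
        rw [abs_of_pos h1] at a1 a2
        calc (n : ℝ) * (ν (X (s / n)) + ν (Y (s / n)))
            ≤ (n : ℝ) * (MX * (s / n) + MY * (s / n)) := by gcongr
          _ = (n * (s / n)) * (MX + MY) := by ring
          _ = s * (MX + MY) := by rw [e1]
          _ ≤ ε₀ := hsm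
      have h5 := (hA (X (s / n)) (Y (s / n)) n h4).2
      rw [T1aux.pow hX, T1aux.pow hY, e1] at h5
      refine h5.trans ?_
      have : (n : ℝ) * ν ((X (s / n))⁻¹ * Y (s / n)) ≤ η * s := by
        calc (n : ℝ) * ν ((X (s / n))⁻¹ * Y (s / n)) ≤ n * (η * (s / n)) := by gcongr
          _ = η * (n * (s / n)) := by ring
          _ = η * s := by rw [e1]
      exact mul_le_mul_of_nonneg_left this hK.le
    by_contra hne
    have hne1 : (X s)⁻¹ * Y s ≠ 1 := by
      intro h
      exact hne (inv_mul_eq_one.mp h)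
    have hpos := hν.pos _ hne1
    have := key (ν ((X s)⁻¹ * Y s) / (2 * (K * s))) (by positivity)
    have e : K * (ν ((X s)⁻¹ * Y s) / (2 * (K * s)) * s) = ν ((X s)⁻¹ * Y s) / 2 := by
      field_simp
    rw [e] at this
    linarith
  -- positive times
  have hposi : ∀ t : ℝ, 0 < t → X t = Y t := by
    intro t ht
    obtain ⟨m, hm⟩ := exists_nat_gt (t * (MX + MY) / ε₀)
    have hm0 : (0 : ℝ) < m := lt_of_le_of_lt (by positivity) hm
    have h1 : t / m * (MX + MY) ≤ ε₀ := by
      rw [div_lt_iff₀ hε₀] at hm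
      rw [div_mul_eq_mul_div, div_le_iff₀ hm0]
      linarith
    have h2 := small (t / m) (by positivity) h1
    have e1 : (m : ℝ) * (t / m) = t := by field_simp
    have h3 := T1aux.pow hX (t / m) m
    have h4 := T1aux.pow hY (t / m) m
    rw [e1] at h3 h4
    rw [← h3, ← h4, h2]
  funext t
  rcases lt_trichotomy t 0 with h | h | h
  · have h1 := hposi (-t) (by linarith)
    have h2 := T1aux.neg hX (-t)
    have h3 := T1aux.neg hY (-t)
    rw [neg_neg] at h2 h3
    rw [h2, h3, h1]
  · rw [h, T1aux.zero hX, T1aux.zero hY]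
  · exact hposi t h

end Pool.Agent.W880.GY
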