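import Pool.Agent.W880.GY.Stm

/-!
Part T2: existence of sums of one-parameter subgroups.
-/

set_option autoImplicit false

namespace Pool.Agent.W880.GY

open Pool.Agent.W660.FL Pool.Agent.W660.GY
open Filter Topology

namespace T2

theorem one_zero {G : Type} [Group G] [TopologicalSpace G] {X : ℝ → G} (hX : IsOne X) :
    X 0 = 1 := by
  have h := hX.2 0 0
  rw [add_zero] at h
  exact left_eq_mul.1 h

theorem one_pow {G : Type} [Group G] [TopologicalSpace G] {X : ℝ → G} (hX : IsOne X) (s : ℝ)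
    (n : ℕ) : X (n * s) = X s ^ n := by
  induction n with
  | zero => rw [Nat.cast_zero, zero_mul, one_zero hX, pow_zero]
  | succ n ih =>
    rw [pow_succ, ← ih, ← hX.2]
    congr 1
    push_cast
    ring

theorem floor_tendsto (t : ℝ) (ht : 0 ≤ t) :
    Tendsto (fun n : ℕ => ((⌊((n : ℝ) + 1) * t⌋₊ : ℕ) : ℝ) / ((n : ℝ) + 1)) atTop (𝓝 t) := by
  have h1 : Tendsto (fun n : ℕ => t - 1 / ((n : ℝ) + 1)) atTop (𝓝 t) := by
    have h2 := tendsto_one_div_add_atTop_nhds_zero_nat (𝕜 := ℝ)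
    simpa using (tendsto_const_nhds (x := t)).sub h2
  refine tendsto_of_tendsto_of_tendsto_of_le_of_le h1 tendsto_const_nhds (fun n => ?_) (fun n => ?_)
  · have h3 : (0 : ℝ) < (n : ℝ) + 1 := by positivity
    have h4 := Nat.lt_floor_add_one (((n : ℝ) + 1) * t)
    simp only
    rw [le_div_iff₀ h3, sub_mul, div_mul_cancel₀ _ h3.ne']
    nlinarith
  · have h3 : (0 : ℝ) < (n : ℝ) + 1 := by positivity
    have h4 := Nat.floor_le (mul_nonneg h3.le ht)
    simp only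
    rw [div_le_iff₀ h3]
    nlinarith

end T2

open T2 in
theorem t_T2 : S_BASE → S_A2 → S_GL → S_N2 → S_T2 := by
  intro hB hA hG hN G _ _ _ _ _ ν hν
  obtain ⟨hcont, -, hnn, -⟩ := hB G ν hν
  obtain ⟨ε, hε, K, hK, hA2⟩ := hA G ν hν
  refine ⟨ε, hε, K, hK, fun X Y hX hY => ?_⟩
  obtain ⟨hX0, hXl, -⟩ := hN G ν hν X hX
  obtain ⟨hY0, hYl, -⟩ := hN G ν hν Y hY
  set a := nr ν X with ha
  set b := nr ν Y with hb
  have hpos : ∀ n : ℕ, (0 : ℝ) < (n : ℝ) + 1 := fun n => by positivity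
  have hXn : ∀ n : ℕ, ν (X (1 / ((n : ℝ) + 1))) ≤ a / ((n : ℝ) + 1) := by
    intro n
    have h1 := hXl (1 / ((n : ℝ) + 1))
    rw [abs_of_pos (by have := hpos n; positivity)] at h1
    calc _ ≤ _ := h1
      _ = _ := by ring
  have hYn : ∀ n : ℕ, ν (Y (1 / ((n : ℝ) + 1))) ≤ b / ((n : ℝ) + 1) := by
    intro n
    have h1 := hYl (1 / ((n : ℝ) + 1))
    rw [abs_of_pos (by have := hpos n; positivity)] at h1
    calc _ ≤ _ := h1
      _ = _ := by ring
  set F : Ultrafilter ℕ := Filter.hyperfilter ℕ with hF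
  have hFle : (F : Filter ℕ) ≤ atTop := Nat.hyperfilter_le_atTop
  obtain ⟨Z, hZ, hZl, hZt⟩ := hG G ν hν ℕ F
    (fun n => X (1 / ((n : ℝ) + 1)) * Y (1 / ((n : ℝ) + 1))) (fun n => (n : ℝ) + 1) (a + b)
    ((tendsto_atTop_add_const_right _ 1 tendsto_natCast_atTop_atTop).mono_left hFle) (by
      intro n
      have h1 := hν.mul (X (1 / ((n : ℝ) + 1))) (Y (1 / ((n : ℝ) + 1)))
      have h2 : ν (X (1 / ((n : ℝ) + 1)) * Y (1 / ((n : ℝ) + 1))) ≤ (a + b) / ((n : ℝ) + 1) := by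
        rw [add_div]
        linarith [hXn n, hYn n]
      have h3 := mul_le_mul_of_nonneg_left h2 (hpos n).le
      rwa [mul_div_cancel₀ _ (hpos n).ne'] at h3)
  refine ⟨Z, hZ, ?_, ?_⟩
  · obtain ⟨-, -, -, h4, -⟩ := hN G ν hν Z hZ
    refine h4 _ fun t ht => ?_
    have h5 := hZl t
    rwa [abs_of_pos ht] at h5
  · intro t ht hte
    have hfl := T2.floor_tendsto t ht
    have hlim : ∀ W : ℝ → G, IsOne W →
        Tendsto (fun n : ℕ => W (1 / ((n : ℝ) + 1)) ^ ⌊((n : ℝ) + 1) * t⌋₊) (F : Filter ℕ)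
          (𝓝 (W t)) := by
      intro W hW
      have h1 : (fun n : ℕ => W (1 / ((n : ℝ) + 1)) ^ ⌊((n : ℝ) + 1) * t⌋₊) =
          fun n : ℕ => W (((⌊((n : ℝ) + 1) * t⌋₊ : ℕ) : ℝ) / ((n : ℝ) + 1)) := by
        funext n
        rw [← one_pow hW]
        congr 1
        ring
      rw [h1]
      exact ((hW.1.tendsto t).comp hfl).mono_left hFle
    have hZ2 : Tendsto (fun n : ℕ => (X (1 / ((n : ℝ) + 1)) * Y (1 / ((n : ℝ) + 1))) ^
        ⌊((n : ℝ) + 1) * t⌋₊) (F : Filter ℕ) (𝓝 (Z t)) := by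
      refine (hZt t).congr fun n => ?_
      have h1 : (⌊((n : ℝ) + 1) * t⌋ : ℤ) = ((⌊((n : ℝ) + 1) * t⌋₊ : ℕ) : ℤ) :=
        (Int.natCast_floor_eq_floor (mul_nonneg (hpos n).le ht)).symm
      rw [h1, zpow_natCast]
    have hall := (hcont.tendsto _).comp ((((hlim X hX).mul (hlim Y hY)).inv).mul hZ2)
    refine le_of_tendsto hall (Eventually.of_forall fun n => ?_)
    simp only [Function.comp_apply]
    set k := ⌊((n : ℝ) + 1) * t⌋₊ with hk
    have hkle : (k : ℝ) ≤ ((n : ℝ) + 1) * t := Nat.floor_le (mul_nonneg (hpos n).le ht)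
    have h1 : (k : ℝ) * (ν (X (1 / ((n : ℝ) + 1))) + ν (Y (1 / ((n : ℝ) + 1)))) ≤ ε := by
      have h2 : ν (X (1 / ((n : ℝ) + 1))) + ν (Y (1 / ((n : ℝ) + 1))) ≤
          (a + b) / ((n : ℝ) + 1) := by
        rw [add_div]
        linarith [hXn n, hYn n]
      calc (k : ℝ) * (ν (X (1 / ((n : ℝ) + 1))) + ν (Y (1 / ((n : ℝ) + 1))))
          ≤ (((n : ℝ) + 1) * t) * ((a + b) / ((n : ℝ) + 1)) :=
            mul_le_mul hkle h2 (add_nonneg (hnn _) (hnn _)) (mul_nonneg (hpos n).le ht)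
        _ = t * (a + b) := by
          have := (hpos n).ne'
          field_simp
        _ ≤ ε := hte
    refine (hA2 _ _ k h1).trans ?_
    have h3 : (k : ℝ) * ν (X (1 / ((n : ℝ) + 1))) ≤ t * a := by
      calc (k : ℝ) * ν (X (1 / ((n : ℝ) + 1))) ≤ (((n : ℝ) + 1) * t) * (a / ((n : ℝ) + 1)) :=
            mul_le_mul hkle (hXn n) (hnn _) (mul_nonneg (hpos n).le ht)
        _ = t * a := by
          have := (hpos n).ne'
          field_simp
    have h4 : (k : ℝ) * ν (Y (1 / ((n : ℝ) + 1))) ≤ t * b := by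
      calc (k : ℝ) * ν (Y (1 / ((n : ℝ) + 1))) ≤ (((n : ℝ) + 1) * t) * (b / ((n : ℝ) + 1)) :=
            mul_le_mul hkle (hYn n) (hnn _) (mul_nonneg (hpos n).le ht)
        _ = t * b := by
          have := (hpos n).ne'
          field_simp
    have h5 : ((k : ℝ) * ν (X (1 / ((n : ℝ) + 1)))) * ((k : ℝ) * ν (Y (1 / ((n : ℝ) + 1)))) ≤
        (t * a) * (t * b) :=
      mul_le_mul h3 h4 (mul_nonneg (Nat.cast_nonneg _) (hnn _)) (mul_nonneg ht hX0)
    calc K * (k : ℝ) ^ 2 * ν (X (1 / ((n : ℝ) + 1))) * ν (Y (1 / ((n : ℝ) + 1)))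
        = K * (((k : ℝ) * ν (X (1 / ((n : ℝ) + 1)))) *
            ((k : ℝ) * ν (Y (1 / ((n : ℝ) + 1))))) := by ring
      _ ≤ K * ((t * a) * (t * b)) := mul_le_mul_of_nonneg_left h5 hK.le
      _ = K * t ^ 2 * a * b := by ring

end Pool.Agent.W880.GY
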