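import Pool.Agent.W880.GY.Stm

/-!
Commutativity and associativity of sums of one-parameter subgroups.
-/

set_option autoImplicit false

namespace Pool.Agent.W880.GY

open Pool.Agent.W660.FL Pool.Agent.W660.GY
open Filter Topology

namespace TC

variable {G : Type} [Group G] [TopologicalSpace G]

lemma nu_symm {ν : G → ℝ} (hν : IsGleason ν) (a b : G) : ν (a⁻¹ * b) = ν (b⁻¹ * a) := by
  rw [← hν.inv (a⁻¹ * b)]
  congr 1
  group

omit [Group G] [TopologicalSpace G] in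
/-- smallness of one-parameter subgroups -/
lemma small {ν : G → ℝ} {X : ℝ → G} {M : ℝ} (hM : 0 ≤ M) (h : ∀ t, ν (X t) ≤ M * |t|)
    {c : ℝ} (hc : 0 < c) : ∃ δ > 0, ∀ t : ℝ, 0 < t → t < δ → ν (X t) ≤ c := by
  refine ⟨c / (M + 1), by positivity, fun t ht ht' => ?_⟩
  have h1 := h t
  rw [abs_of_pos ht] at h1
  have h2 : t * (M + 1) < c := by
    rwa [lt_div_iff₀ (by positivity)] at ht'
  nlinarith

end TC

open TC

theorem t_TC : S_BASE → S_CJ → S_N1 → S_T1 → S_TC := by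
  intro hB hCJ hN1 hT1 G _ _ _ _ _ ν hν
  obtain ⟨-, -, hpos, -⟩ := hB G ν hν
  obtain ⟨C, hC, hcj⟩ := hCJ G ν hν
  have hC' : 0 < 1 / C := by positivity
  refine ⟨?_, ?_⟩
  · intro X Y Z hX hY hZ h ε hε
    obtain ⟨MX, hMX, hx⟩ := hN1 G ν hν X hX
    obtain ⟨MY, hMY, hy⟩ := hN1 G ν hν Y hY
    obtain ⟨δ, hδ, h1⟩ := h (ε / 2) (by positivity)
    obtain ⟨δx, hδx, h2⟩ := small hMX hx hC'
    obtain ⟨δy, hδy, h3⟩ := small hMY hy hC'
    obtain ⟨δz, hδz, h4⟩ : ∃ δ > 0, ∀ t : ℝ, 0 < t → t < δ → C * MY * MX * t ≤ ε / 2 := by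
      refine ⟨(ε / 2) / (C * MY * MX + 1), by positivity, fun t ht ht' => ?_⟩
      have h2 : t * (C * MY * MX + 1) < ε / 2 := by
        rwa [lt_div_iff₀ (by positivity)] at ht'
      nlinarith
    refine ⟨min δ (min δx (min δy δz)), by positivity, fun t ht ht' => ?_⟩
    have a1 : t < δ := lt_of_lt_of_le ht' (min_le_left _ _)
    have a2 : t < δx := lt_of_lt_of_le ht' ((min_le_right _ _).trans (min_le_left _ _))
    have a3 : t < δy := lt_of_lt_of_le ht' ((min_le_right _ _).trans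
      ((min_le_right _ _).trans (min_le_left _ _)))
    have a4 : t < δz := lt_of_lt_of_le ht' ((min_le_right _ _).trans
      ((min_le_right _ _).trans (min_le_right _ _)))
    have b1 := h1 t ht a1
    have b2 := h2 t ht a2
    have b3 := h3 t ht a3
    have b4 := h4 t ht a4
    have b5 := (hcj (Y t) (X t) b3 b2).2.1
    have cx := hx t
    have cy := hy t
    rw [abs_of_pos ht] at cx cy
    have b6 : ν (Y t) * ν (X t) ≤ (MY * t) * (MX * t) :=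
      mul_le_mul cy cx (hpos _) (by positivity)
    have b7 : C * ν (Y t) * ν (X t) ≤ (ε / 2) * t := by
      calc C * ν (Y t) * ν (X t) = C * (ν (Y t) * ν (X t)) := by ring
        _ ≤ C * ((MY * t) * (MX * t)) := mul_le_mul_of_nonneg_left b6 hC.le
        _ = (C * MY * MX * t) * t := by ring
        _ ≤ (ε / 2) * t := mul_le_mul_of_nonneg_right b4 ht.le
    have b8 := hν.mul ((Y t * X t)⁻¹ * (X t * Y t)) ((X t * Y t)⁻¹ * Z t)
    have b9 : (Y t * X t)⁻¹ * (X t * Y t) * ((X t * Y t)⁻¹ * Z t) = (Y t * X t)⁻¹ * Z t := by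
      group
    rw [b9] at b8
    show ν ((Y t * X t)⁻¹ * Z t) ≤ ε * t
    have b1' : ν ((X t * Y t)⁻¹ * Z t) ≤ (ε / 2) * t := b1
    linarith
  · intro X Y Z W U V T hX hY hZ hW hU hV hT hXY hWZ hYZ hXV
    refine hT1 G ν hν U T hU hT ?_
    intro ε hε
    obtain ⟨MZ, hMZ, hz⟩ := hN1 G ν hν Z hZ
    obtain ⟨δ1, hδ1, h1⟩ := hXY (ε / 5) (by positivity)
    obtain ⟨δ2, hδ2, h2⟩ := hWZ (ε / 5) (by positivity)
    obtain ⟨δ3, hδ3, h3⟩ := hYZ (ε / 5) (by positivity)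
    obtain ⟨δ4, hδ4, h4⟩ := hXV (ε / 5) (by positivity)
    obtain ⟨δ5, hδ5, h5⟩ := small hMZ hz hC'
    have hlim : ∃ δ > 0, ∀ t : ℝ, 0 < t → t < δ → (ε / 5) * t ≤ 1 / C := by
      refine ⟨(1 / C) / (ε / 5), by positivity, fun t ht ht' => ?_⟩
      rw [lt_div_iff₀ (by positivity)] at ht'
      linarith
    obtain ⟨δ6, hδ6, h6⟩ := hlim
    refine ⟨min δ1 (min δ2 (min δ3 (min δ4 (min δ5 δ6)))), by positivity, fun t ht ht' => ?_⟩
    simp only [lt_min_iff] at ht'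
    obtain ⟨a1, a2, a3, a4, a5, a6⟩ := ht'
    have b1 : ν ((X t * Y t)⁻¹ * W t) ≤ (ε / 5) * t := h1 t ht a1
    have b2 : ν ((W t * Z t)⁻¹ * U t) ≤ (ε / 5) * t := h2 t ht a2
    have b3 : ν ((Y t * Z t)⁻¹ * V t) ≤ (ε / 5) * t := h3 t ht a3
    have b4 : ν ((X t * V t)⁻¹ * T t) ≤ (ε / 5) * t := h4 t ht a4
    have b5 := h5 t ht a5
    have b6 := h6 t ht a6
    -- the conjugation
    have c1 : ν ((W t)⁻¹ * (X t * Y t)) ≤ (ε / 5) * t := by
      rw [nu_symm hν]; exact b1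
    have c2 : ν ((Z t)⁻¹) ≤ 1 / C := by rw [hν.inv]; exact b5
    have c3 := (hcj ((Z t)⁻¹) ((W t)⁻¹ * (X t * Y t)) c2 (c1.trans b6)).1
    have c4 : C * ν ((Z t)⁻¹) ≤ 1 := by
      have := mul_le_mul_of_nonneg_left c2 hC.le
      rwa [mul_one_div_cancel hC.ne'] at this
    have c5 : ν ((Z t)⁻¹ * ((W t)⁻¹ * (X t * Y t)) * ((Z t)⁻¹)⁻¹) ≤ 2 * ((ε / 5) * t) := by
      refine c3.trans ?_
      have : 0 ≤ ν ((W t)⁻¹ * (X t * Y t)) := hpos _
      calc (1 + C * ν ((Z t)⁻¹)) * ν ((W t)⁻¹ * (X t * Y t))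
          ≤ 2 * ν ((W t)⁻¹ * (X t * Y t)) := mul_le_mul_of_nonneg_right (by linarith) this
        _ ≤ 2 * ((ε / 5) * t) := by linarith
    have c6 : (Z t)⁻¹ * ((W t)⁻¹ * (X t * Y t)) * ((Z t)⁻¹)⁻¹ =
        (W t * Z t)⁻¹ * (X t * Y t * Z t) := by group
    rw [c6] at c5
    have c7 : ν ((U t)⁻¹ * (W t * Z t)) ≤ (ε / 5) * t := by
      rw [nu_symm hν]; exact b2
    have c8 : ν ((X t * Y t * Z t)⁻¹ * (X t * V t)) ≤ (ε / 5) * t := by
      have : (X t * Y t * Z t)⁻¹ * (X t * V t) = (Y t * Z t)⁻¹ * V t := by group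
      rw [this]; exact b3
    have d1 := hν.mul ((U t)⁻¹ * (W t * Z t)) ((W t * Z t)⁻¹ * (X t * Y t * Z t))
    have d2 := hν.mul ((U t)⁻¹ * (W t * Z t) * ((W t * Z t)⁻¹ * (X t * Y t * Z t)))
      ((X t * Y t * Z t)⁻¹ * (X t * V t))
    have d3 := hν.mul ((U t)⁻¹ * (W t * Z t) * ((W t * Z t)⁻¹ * (X t * Y t * Z t)) *
      ((X t * Y t * Z t)⁻¹ * (X t * V t))) ((X t * V t)⁻¹ * T t)
    have d4 : (U t)⁻¹ * (W t * Z t) * ((W t * Z t)⁻¹ * (X t * Y t * Z t)) *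
      ((X t * Y t * Z t)⁻¹ * (X t * V t)) * ((X t * V t)⁻¹ * T t) = (U t)⁻¹ * T t := by group
    rw [d4] at d3
    linarith

end Pool.Agent.W880.GY
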