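import Pool.Agent.W880.GY.Stm

/-!
The one-parameter subgroups of a locally compact group with a Gleason norm form a normed space.
-/

set_option autoImplicit false

namespace Pool.Agent.W880.GY

open Pool.Agent.W660.FL Pool.Agent.W660.GY
open Filter Topology

namespace VS

/-- one-parameter subgroups -/
structure EE (G : Type) [Group G] [TopologicalSpace G] : Type where
  /-- the map -/
  f : ℝ → G
  p : IsOne f

lemma ee_ext {G : Type} [Group G] [TopologicalSpace G] {X Y : EE G} (h : X.f = Y.f) : X = Y := by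
  cases X; cases Y; cases h; rfl

/-- the facts used -/
structure Dat (G : Type) [Group G] [TopologicalSpace G] (ν : G → ℝ) : Prop where
  one : ν 1 = 0
  inv : ∀ g, ν g⁻¹ = ν g
  mul : ∀ g h, ν (g * h) ≤ ν g + ν h
  uniq : ∀ X Y : ℝ → G, IsOne X → IsOne Y → Tn ν X Y → X = Y
  ex : ∀ X Y : ℝ → G, IsOne X → IsOne Y →
    ∃ Z : ℝ → G, IsOne Z ∧ nr ν Z ≤ nr ν X + nr ν Y ∧ Sm2 ν X Y Z
  comm : ∀ X Y Z : ℝ → G, IsOne X → IsOne Y → IsOne Z → Sm2 ν X Y Z → Sm2 ν Y X Z
  assoc : ∀ X Y Z W U V T : ℝ → G, IsOne X → IsOne Y → IsOne Z → IsOne W → IsOne U → IsOne V →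
    IsOne T → Sm2 ν X Y W → Sm2 ν W Z U → Sm2 ν Y Z V → Sm2 ν X V T → U = T
  nn : ∀ X : ℝ → G, IsOne X → 0 ≤ nr ν X
  nz : ∀ X : ℝ → G, IsOne X → nr ν X = 0 → ∀ t, X t = 1
  ns : ∀ X : ℝ → G, IsOne X → ∀ s : ℝ, nr ν (fun t => X (s * t)) = |s| * nr ν X

section

variable {G : Type} [Group G] [TopologicalSpace G] {ν : G → ℝ}

lemma tn_symm (h : Dat G ν) {f g : ℝ → G} (hfg : Tn ν f g) : Tn ν g f := by
  intro ε hε
  obtain ⟨δ, hδ, H⟩ := hfg ε hε
  refine ⟨δ, hδ, fun t ht ht' => ?_⟩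
  have h1 := H t ht ht'
  have h2 : ν ((g t)⁻¹ * f t) = ν ((f t)⁻¹ * g t) := by
    rw [← h.inv ((f t)⁻¹ * g t)]
    congr 1
    group
  rw [h2]; exact h1

lemma tn_trans (h : Dat G ν) {f g k : ℝ → G} (hfg : Tn ν f g) (hgk : Tn ν g k) : Tn ν f k := by
  intro ε hε
  obtain ⟨δ, hδ, H⟩ := hfg (ε / 2) (by positivity)
  obtain ⟨δ', hδ', H'⟩ := hgk (ε / 2) (by positivity)
  refine ⟨min δ δ', lt_min hδ hδ', fun t ht ht' => ?_⟩
  have h1 := H t ht (lt_of_lt_of_le ht' (min_le_left _ _))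
  have h2 := H' t ht (lt_of_lt_of_le ht' (min_le_right _ _))
  have h3 := h.mul ((f t)⁻¹ * g t) ((g t)⁻¹ * k t)
  have h4 : (f t)⁻¹ * g t * ((g t)⁻¹ * k t) = (f t)⁻¹ * k t := by group
  rw [h4] at h3
  linarith

lemma tn_of_eq (h : Dat G ν) {f g : ℝ → G} (hfg : ∀ t, f t = g t) : Tn ν f g := by
  intro ε hε
  refine ⟨1, one_pos, fun t ht _ => ?_⟩
  rw [hfg t, inv_mul_cancel, h.one]
  positivity

lemma isOne_zero {X : ℝ → G} (hX : IsOne X) : X 0 = 1 := by
  have h1 := hX.2 0 0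
  rw [add_zero] at h1
  exact (mul_eq_left.1 h1.symm)

lemma isOne_smul {X : ℝ → G} (hX : IsOne X) (s : ℝ) : IsOne (fun t => X (s * t)) := by
  refine ⟨hX.1.comp (continuous_const.mul continuous_id), fun a b => ?_⟩
  show X (s * (a + b)) = X (s * a) * X (s * b)
  rw [mul_add, hX.2]

lemma isOne_neg {X : ℝ → G} (hX : IsOne X) : IsOne (fun t => X (-t)) := by
  refine ⟨hX.1.comp continuous_neg, fun a b => ?_⟩
  show X (-(a + b)) = X (-a) * X (-b)
  rw [neg_add, hX.2]

lemma isOne_one : IsOne (fun _ : ℝ => (1 : G)) := ⟨continuous_const, fun _ _ => by simp⟩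

/-- the sum -/
noncomputable def ad (h : Dat G ν) (X Y : EE G) : EE G :=
  ⟨Classical.choose (h.ex X.f Y.f X.p Y.p), (Classical.choose_spec (h.ex X.f Y.f X.p Y.p)).1⟩

lemma ad_norm (h : Dat G ν) (X Y : EE G) : nr ν (ad h X Y).f ≤ nr ν X.f + nr ν Y.f :=
  (Classical.choose_spec (h.ex X.f Y.f X.p Y.p)).2.1

lemma ad_spec (h : Dat G ν) (X Y : EE G) : Sm2 ν X.f Y.f (ad h X Y).f :=
  (Classical.choose_spec (h.ex X.f Y.f X.p Y.p)).2.2

lemma ad_eq (h : Dat G ν) {X Y Z : EE G} (hZ : Sm2 ν X.f Y.f Z.f) : ad h X Y = Z :=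
  ee_ext (h.uniq _ _ (ad h X Y).p Z.p (tn_trans h (tn_symm h (ad_spec h X Y)) hZ))

/-- the group -/
@[reducible] noncomputable def grp (h : Dat G ν) : AddCommGroup (EE G) :=
  letI iA : Add (EE G) := ⟨ad h⟩
  letI iZ : Zero (EE G) := ⟨⟨fun _ => 1, isOne_one⟩⟩
  letI iN : Neg (EE G) := ⟨fun X => ⟨fun t => X.f (-t), isOne_neg X.p⟩⟩
  { add_assoc := fun X Y Z => ee_ext (h.assoc X.f Y.f Z.f (ad h X Y).f (ad h (ad h X Y) Z).f
      (ad h Y Z).f (ad h X (ad h Y Z)).f X.p Y.p Z.p (ad h X Y).p (ad h (ad h X Y) Z).p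
      (ad h Y Z).p (ad h X (ad h Y Z)).p (ad_spec h _ _) (ad_spec h _ _) (ad_spec h _ _)
      (ad_spec h _ _))
    zero_add := fun X => ad_eq h (tn_of_eq h fun t => by
      show 1 * X.f t = X.f t
      rw [one_mul])
    add_zero := fun X => ad_eq h (tn_of_eq h fun t => by
      show X.f t * 1 = X.f t
      rw [mul_one])
    nsmul := nsmulRec
    zsmul := zsmulRec
    neg_add_cancel := fun X => ad_eq h (tn_of_eq h fun t => by
      show X.f (-t) * X.f t = 1
      rw [← X.p.2, neg_add_cancel, isOne_zero X.p])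
    add_comm := fun X Y => (ad_eq h (h.comm _ _ _ Y.p X.p (ad h Y X).p (ad_spec h Y X))) }

/-- the scalar multiple -/
def sm (s : ℝ) (X : EE G) : EE G := ⟨fun t => X.f (s * t), isOne_smul X.p s⟩

lemma sm_pos (h : Dat G ν) (r : ℝ) (hr : 0 < r) (X Y : EE G) :
    sm r (ad h X Y) = ad h (sm r X) (sm r Y) := by
  refine (ad_eq h ?_).symm
  intro ε hε
  obtain ⟨δ, hδ, H⟩ := ad_spec h X Y (ε / r) (by positivity)
  refine ⟨δ / r, by positivity, fun t ht ht' => ?_⟩
  have h1 := H (r * t) (by positivity) (by rw [lt_div_iff₀ hr] at ht'; linarith)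
  have h2 : ε / r * (r * t) = ε * t := by field_simp
  rw [h2] at h1
  exact h1

lemma sm_add (h : Dat G ν) (s : ℝ) (X Y : EE G) :
    sm s (ad h X Y) = ad h (sm s X) (sm s Y) := by
  rcases lt_trichotomy s 0 with hs | hs | hs
  · have h1 := sm_pos h (-s) (by linarith) X Y
    let i : AddCommGroup (EE G) := grp h
    have h2 : ∀ Z : EE G, sm s Z = -(sm (-s) Z) := by
      intro Z
      refine ee_ext (funext fun t => ?_)
      show Z.f (s * t) = Z.f ((-s) * (-t))
      congr 1; ring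
    have h3 : sm (-s) (X + Y) = sm (-s) X + sm (-s) Y := h1
    show sm s (X + Y) = sm s X + sm s Y
    rw [h2 (X + Y), h2 X, h2 Y, h3, neg_add]
  · subst hs
    let i : AddCommGroup (EE G) := grp h
    have h3 : ∀ Z : EE G, sm 0 Z = 0 := by
      intro Z
      refine ee_ext (funext fun t => ?_)
      show Z.f (0 * t) = 1
      rw [zero_mul, isOne_zero Z.p]
    show sm 0 (X + Y) = sm 0 X + sm 0 Y
    rw [h3, h3, h3, add_zero]
  · exact sm_pos h s hs X Y

/-- the module -/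
@[reducible] noncomputable def mdl (h : Dat G ν) :
    @Module ℝ (EE G) _ (grp h).toAddCommMonoid :=
  letI := grp h
  { smul := sm
    one_smul := fun X => ee_ext (funext fun t => by
      show X.f (1 * t) = X.f t
      rw [one_mul])
    mul_smul := fun a b X => ee_ext (funext fun t => by
      show X.f (a * b * t) = X.f (b * (a * t))
      congr 1; ring)
    smul_zero := fun s => ee_ext (funext fun t => rfl)
    zero_smul := fun X => ee_ext (funext fun t => by
      show X.f (0 * t) = 1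
      rw [zero_mul, isOne_zero X.p])
    add_smul := fun a b X => (ad_eq h (tn_of_eq h fun t => by
      show X.f (a * t) * X.f (b * t) = X.f ((a + b) * t)
      rw [← X.p.2, add_mul])).symm
    smul_add := fun s X Y => sm_add h s X Y }

theorem main (h : Dat G ν) :
    ∃ (E : Type) (_ : NormedAddCommGroup E) (_ : NormedSpace ℝ E), Nonempty (LS ν E) := by
  letI i1 : AddCommGroup (EE G) := grp h
  letI i2 : Module ℝ (EE G) := mdl h
  letI i3 : Norm (EE G) := ⟨fun X => nr ν X.f⟩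
  have core : NormedSpace.Core ℝ (EE G) :=
    { norm_nonneg := fun X => h.nn X.f X.p
      norm_smul := fun s X => by
        show nr ν (fun t => X.f (s * t)) = |s| * nr ν X.f
        exact h.ns X.f X.p s
      norm_triangle := fun X Y => ad_norm h X Y
      norm_eq_zero_iff := fun X => by
        constructor
        · intro h0
          exact ee_ext (funext fun t => h.nz X.f X.p h0 t)
        · intro h0
          rw [h0]
          show nr ν (fun _ : ℝ => (1 : G)) = 0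
          have h1 := h.ns (fun _ : ℝ => (1 : G)) isOne_one 0
          simpa using h1 }
  letI j1 : NormedAddCommGroup (EE G) := NormedAddCommGroup.ofCore core
  letI j2 : NormedSpace ℝ (EE G) := NormedSpace.ofCore core
  refine ⟨EE G, j1, j2, ⟨?_⟩⟩
  exact
    { ev := fun X => X.f
      one := fun X => X.p
      surj := fun γ hγ => ⟨⟨γ, hγ⟩, rfl⟩
      inj := fun X Y hXY => ee_ext hXY
      smul := fun s X t => rfl
      add := fun X Y => ad_spec h X Y
      norm := fun X => rfl }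

end

end VS

theorem t_VS : S_BASE → S_N2 → S_T1 → S_T2 → S_TC → S_VS := by
  intro _ hN2 hT1 hT2 hTC G _ _ _ _ _ ν hν
  obtain ⟨ε, hε, K, hK, hex⟩ := hT2 G ν hν
  obtain ⟨hc, ha⟩ := hTC G ν hν
  refine VS.main (G := G) (ν := ν) ⟨hν.one, hν.inv, hν.mul, hT1 G ν hν, ?_, hc, ha,
    fun X hX => (hN2 G ν hν X hX).1, fun X hX => (hN2 G ν hν X hX).2.2.2.2.1,
    fun X hX => (hN2 G ν hν X hX).2.2.2.2.2⟩
  intro X Y hX hY
  obtain ⟨Z, hZ, hn, hest⟩ := hex X Y hX hY
  refine ⟨Z, hZ, hn, ?_⟩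
  have hx := (hN2 G ν hν X hX).1
  have hy := (hN2 G ν hν Y hY).1
  intro η hη
  refine ⟨min (ε / (nr ν X + nr ν Y + 1)) (η / (K * nr ν X * nr ν Y + 1)), by positivity,
    fun t ht ht' => ?_⟩
  have h1 : t < ε / (nr ν X + nr ν Y + 1) := lt_of_lt_of_le ht' (min_le_left _ _)
  have h2 : t < η / (K * nr ν X * nr ν Y + 1) := lt_of_lt_of_le ht' (min_le_right _ _)
  rw [lt_div_iff₀ (by positivity)] at h1 h2
  have h3 := hest t ht.le (by nlinarith)
  refine h3.trans ?_
  have h4 : K * t ^ 2 * nr ν X * nr ν Y = (t * (K * nr ν X * nr ν Y)) * t := by ring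
  rw [h4]
  apply mul_le_mul_of_nonneg_right _ ht.le
  nlinarith

end Pool.Agent.W880.GY
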