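import Pool.Agent.W880.GY.Stm

/-!
GY1, part `ad`: the adjoint representation of the exponential chart is `exp ∘ ad`.
-/

set_option autoImplicit false

namespace Pool.Agent.W880.GY

open Pool.Agent.W660.FL Pool.Agent.W660.GY
open Filter Topology
open scoped Manifold ContDiff

namespace ad

variable {G : Type} [Group G] [TopologicalSpace G] {E : Type}
  [NormedAddCommGroup E] [NormedSpace ℝ E]

theorem e_zero (C : CS G E) : C.e 0 = 1 := by
  have h := (C.one 0).2 0 0
  simp only [smul_zero] at h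
  have h2 : C.e 0 * 1 = C.e 0 * C.e 0 := by rw [mul_one]; exact h
  exact (mul_left_cancel h2).symm

theorem e_add (C : CS G E) (x : E) (s t : ℝ) : C.e ((s + t) • x) = C.e (s • x) * C.e (t • x) :=
  (C.one x).2 s t

theorem e_neg (C : CS G E) (x : E) : C.e (-x) = (C.e x)⁻¹ := by
  have h := e_add C x (-1) 1
  rw [neg_add_cancel, zero_smul, e_zero, one_smul, neg_one_smul] at h
  exact eq_inv_of_mul_eq_one_left h.symm

/-- `e (κ (e x * e y)) = e x * e y` -/
theorem e_kappa (C : CS G E) {g : G} (h : g ∈ C.κ.source) : C.e (C.κ g) = g := by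
  rw [← C.symm]
  exact C.κ.left_inv h

/-- the correction term in `e (t x) e (t y) = e (w t) e (t (x + y))` -/
theorem corr (C : CS G E) (x y : E) : ∃ η > 0, ∃ B > 0, ∀ t : ℝ, |t| < η →
    ∃ w : E, ‖w‖ ≤ B * t ^ 2 ∧ C.e (t • x) * C.e (t • y) = C.e w * C.e (t • (x + y)) := by
  obtain ⟨δ, hδ, K, hK, hest⟩ := C.est
  set M : ℝ := ‖x‖ + ‖y‖ + 1 with hM
  have hM1 : 1 ≤ M := by have := norm_nonneg x; have := norm_nonneg y; linarith
  have hM0 : 0 < M := by linarith
  have hxM : ‖x‖ ≤ M := by have := norm_nonneg y; linarith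
  have hyM : ‖y‖ ≤ M := by have := norm_nonneg x; linarith
  have hxyM : ‖x + y‖ ≤ M := (norm_add_le x y).trans (by linarith)
  -- choose eta
  refine ⟨min 1 (δ / (M + K * M * M + 1)), lt_min one_pos (by positivity),
    K * M * M + K * (M + K * M * M) * M, by positivity, ?_⟩
  intro t ht
  have ht1 : |t| < 1 := ht.trans_le (min_le_left _ _)
  have ht2 : |t| * (M + K * M * M + 1) < δ := by
    have := ht.trans_le (min_le_right _ _)
    rwa [lt_div_iff₀ (by positivity)] at this
  have ht0 : 0 ≤ |t| := abs_nonneg t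
  have hbd : ∀ z : E, ‖z‖ ≤ M → ‖t • z‖ < δ := by
    intro z hz
    rw [norm_smul, Real.norm_eq_abs]
    have h1 : |t| * ‖z‖ ≤ |t| * M := mul_le_mul_of_nonneg_left hz ht0
    have h2 : |t| * M ≤ |t| * (M + K * M * M + 1) :=
      mul_le_mul_of_nonneg_left (by have : 0 < K * M * M := by positivity
                                    linarith) ht0
    linarith
  have hx := hbd x hxM
  have hy := hbd y hyM
  have hxy := hbd (x + y) hxyM
  obtain ⟨hs1, hn1⟩ := hest (t • x) (t • y) hx hy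
  set z := C.κ (C.e (t • x) * C.e (t • y)) with hz
  have hez : C.e z = C.e (t • x) * C.e (t • y) := e_kappa C hs1
  have hn1' : ‖z - t • (x + y)‖ ≤ K * M * M * t ^ 2 := by
    rw [smul_add]
    refine hn1.trans ?_
    rw [norm_smul, norm_smul, Real.norm_eq_abs]
    have h1 : K * (|t| * ‖x‖) * (|t| * ‖y‖) = K * ‖x‖ * ‖y‖ * t ^ 2 := by
      rw [← sq_abs t]; ring
    rw [h1]
    have h2 : K * ‖x‖ * ‖y‖ ≤ K * M * M := by gcongr
    exact mul_le_mul_of_nonneg_right h2 (sq_nonneg t)
  have htt : t ^ 2 ≤ |t| := by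
    rw [← sq_abs t]; nlinarith
  have hzn : ‖z‖ ≤ |t| * (M + K * M * M) := by
    have h1 : ‖z‖ ≤ ‖z - t • (x + y)‖ + ‖t • (x + y)‖ := by
      have := norm_add_le (z - t • (x + y)) (t • (x + y))
      rwa [sub_add_cancel] at this
    have h2 : ‖t • (x + y)‖ ≤ |t| * M := by
      rw [norm_smul, Real.norm_eq_abs]
      exact mul_le_mul_of_nonneg_left hxyM ht0
    have h3 : K * M * M * t ^ 2 ≤ K * M * M * |t| := mul_le_mul_of_nonneg_left htt (by positivity)
    nlinarith
  have hzδ : ‖z‖ < δ := by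
    have : |t| * (M + K * M * M) ≤ |t| * (M + K * M * M + 1) :=
      mul_le_mul_of_nonneg_left (by linarith) ht0
    linarith
  have hnxy : ‖-(t • (x + y))‖ < δ := by rw [norm_neg]; exact hxy
  obtain ⟨hs2, hn2⟩ := hest z (-(t • (x + y))) hzδ hnxy
  set w := C.κ (C.e z * C.e (-(t • (x + y)))) with hw
  have hew : C.e w = C.e z * C.e (-(t • (x + y))) := e_kappa C hs2
  refine ⟨w, ?_, ?_⟩
  · have h1 : ‖w‖ ≤ ‖w - (z + -(t • (x + y)))‖ + ‖z - t • (x + y)‖ := by
      have := norm_add_le (w - (z + -(t • (x + y)))) (z - t • (x + y))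
      have h2 : w - (z + -(t • (x + y))) + (z - t • (x + y)) = w := by abel
      rwa [h2] at this
    have h2 : ‖-(t • (x + y))‖ ≤ |t| * M := by
      rw [norm_neg, norm_smul, Real.norm_eq_abs]
      exact mul_le_mul_of_nonneg_left hxyM ht0
    have h3 : K * ‖z‖ * ‖-(t • (x + y))‖ ≤ K * (|t| * (M + K * M * M)) * (|t| * M) := by gcongr
    have h4 : K * (|t| * (M + K * M * M)) * (|t| * M) = K * (M + K * M * M) * M * t ^ 2 := by
      rw [← sq_abs t]; ring
    have h5 := h1.trans (add_le_add (hn2.trans (h3.trans_eq h4)) hn1')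
    linarith
  · rw [hew, e_neg, inv_mul_cancel_right, hez]

theorem Ad_zero (C : CS G E) (Ad : G →* (E →L[ℝ] E)) (x : E) :
    Ad (C.e ((0 : ℝ) • x)) = 1 := by
  rw [zero_smul, e_zero, map_one]

/-- `t ↦ Ad (e (t x))` is continuous -/
theorem cont (C : CS G E) (Ad : G →* (E →L[ℝ] E))
    (hAO : ∃ δ > 0, ∃ K > 0, ∀ x, ‖x‖ < δ → ‖Ad (C.e x) - 1‖ ≤ K * ‖x‖) (x : E) :
    Continuous (fun t : ℝ => Ad (C.e (t • x))) := by
  obtain ⟨δ, hδ, K, hK, h⟩ := hAO
  -- continuity at 0
  have h0 : Tendsto (fun t : ℝ => Ad (C.e (t • x))) (𝓝 0) (𝓝 1) := by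
    rw [tendsto_iff_norm_sub_tendsto_zero]
    have hx : Tendsto (fun t : ℝ => K * ‖t • x‖) (𝓝 0) (𝓝 0) := by
      have : Continuous (fun t : ℝ => K * ‖t • x‖) := by fun_prop
      have h2 := this.tendsto 0
      simpa using h2
    have hsm : ∀ᶠ t : ℝ in 𝓝 0, ‖t • x‖ < δ := by
      have : Continuous (fun t : ℝ => ‖t • x‖) := by fun_prop
      have h2 := this.tendsto 0
      simp only [zero_smul, norm_zero] at h2
      exact h2.eventually (gt_mem_nhds hδ)
    refine squeeze_zero' (Eventually.of_forall fun t => norm_nonneg _) ?_ hx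
    filter_upwards [hsm] with t ht using h _ ht
  rw [continuous_iff_continuousAt]
  intro s
  have h1 : Tendsto (fun t : ℝ => Ad (C.e (s • x)) * Ad (C.e ((t - s) • x))) (𝓝 s)
      (𝓝 (Ad (C.e (s • x)) * 1)) := by
    refine Tendsto.const_mul _ (h0.comp ?_)
    have : Continuous (fun t : ℝ => t - s) := by fun_prop
    have h2 := this.tendsto s
    simpa using h2
  unfold ContinuousAt
  rw [mul_one] at h1
  refine h1.congr fun t => ?_
  rw [← map_mul, ← e_add, add_sub_cancel]

end ad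

open ad in
theorem t_ad : S_ONEP → S_AO → S_ad := by
  intro hONEP hAO G _ _ _ E _ _ _ C Ad hAd
  have hAO' := hAO G E C Ad hAd
  have : CompleteSpace E := FiniteDimensional.complete ℝ E
  have hex : ∀ x : E, ∃ A : E →L[ℝ] E, ∀ t : ℝ, Ad (C.e (t • x)) = NormedSpace.exp (t • A) := by
    intro x
    refine hONEP E (fun t => Ad (C.e (t • x))) (cont C Ad hAO' x) (Ad_zero C Ad x) ?_
    intro s t
    simp only [e_add, map_mul]
  choose a ha using hex
  have hder : ∀ x : E, HasDerivAt (fun t : ℝ => Ad (C.e (t • x))) (a x) 0 := by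
    intro x
    have h := hasDerivAt_exp_smul_const (𝕂 := ℝ) (a x) 0
    rw [zero_smul, NormedSpace.exp_zero, one_mul] at h
    refine h.congr_of_eventuallyEq (Eventually.of_forall fun t => ?_)
    exact ha x t
  have hadd : ∀ x y : E, a (x + y) = a x + a y := by
    intro x y
    have hF : HasDerivAt (fun t : ℝ => Ad (C.e (t • x)) * Ad (C.e (t • y))) (a x + a y) 0 := by
      have h := (hder x).mul (hder y)
      simp only [Ad_zero, mul_one, one_mul] at h
      exact h
    have hD : HasDerivAt (fun t : ℝ => Ad (C.e (t • x)) * Ad (C.e (t • y))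
        - Ad (C.e (t • (x + y)))) (a x + a y - a (x + y)) 0 := hF.sub (hder (x + y))
    have hZ : HasDerivAt (fun t : ℝ => Ad (C.e (t • x)) * Ad (C.e (t • y))
        - Ad (C.e (t • (x + y)))) 0 0 := by
      obtain ⟨η, hη, B, hB, hw⟩ := corr C x y
      have hc := cont C Ad hAO' (x + y)
      obtain ⟨δ, hδ, K, hK, hA⟩ := hAO'
      have hbd : ∀ᶠ t : ℝ in 𝓝 0, ‖Ad (C.e (t • (x + y)))‖ < ‖(1 : E →L[ℝ] E)‖ + 1 := by
        have h1 := (hc.norm).tendsto 0
        simp only [Ad_zero] at h1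
        exact h1.eventually (gt_mem_nhds (by linarith))
      have hsm : ∀ᶠ t : ℝ in 𝓝 0, |t| < η := by
        have h1 := (continuous_abs (G := ℝ)).tendsto 0
        simp only [abs_zero] at h1
        exact h1.eventually (gt_mem_nhds hη)
      have hsm2 : ∀ᶠ t : ℝ in 𝓝 0, B * t ^ 2 < δ := by
        have h1 : Continuous (fun t : ℝ => B * t ^ 2) := by fun_prop
        have h2 := h1.tendsto 0
        simp only [ne_eq, OfNat.ofNat_ne_zero, not_false_eq_true, zero_pow, mul_zero] at h2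
        exact h2.eventually (gt_mem_nhds hδ)
      have hO : (fun t : ℝ => Ad (C.e (t • x)) * Ad (C.e (t • y))
        - Ad (C.e (t • (x + y)))) =O[𝓝 0] fun t => ‖t - 0‖ ^ 2 := by
        refine Asymptotics.IsBigO.of_bound (K * B * (‖(1 : E →L[ℝ] E)‖ + 1)) ?_
        filter_upwards [hbd, hsm, hsm2] with t h1 h2 h3
        obtain ⟨w, hwn, hwe⟩ := hw t h2
        have h4 : Ad (C.e (t • x)) * Ad (C.e (t • y)) - Ad (C.e (t • (x + y)))
            = (Ad (C.e w) - 1) * Ad (C.e (t • (x + y))) := by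
          rw [← map_mul, hwe, map_mul, sub_mul, one_mul]
        rw [h4, sub_zero, Real.norm_eq_abs, Real.norm_eq_abs, sq_abs, abs_of_nonneg (sq_nonneg t)]
        have h5 : ‖Ad (C.e w) - 1‖ ≤ K * (B * t ^ 2) :=
          (hA w (hwn.trans_lt h3)).trans (mul_le_mul_of_nonneg_left hwn hK.le)
        calc ‖(Ad (C.e w) - 1) * Ad (C.e (t • (x + y)))‖
            ≤ ‖Ad (C.e w) - 1‖ * ‖Ad (C.e (t • (x + y)))‖ := norm_mul_le _ _
          _ ≤ (K * (B * t ^ 2)) * (‖(1 : E →L[ℝ] E)‖ + 1) := by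
              gcongr
          _ = K * B * (‖(1 : E →L[ℝ] E)‖ + 1) * t ^ 2 := by ring
      have h6 := hO.hasFDerivAt (𝕜 := ℝ) (by norm_num : 1 < 2)
      have h7 := h6.hasDerivAt
      rwa [zero_apply] at h7
    have h7 := hD.unique hZ
    exact (sub_eq_zero.mp h7).symm
  have hsmul : ∀ (s : ℝ) (x : E), a (s • x) = s • a x := by
    intro s x
    have h1 := hder (s • x)
    have h2 : HasDerivAt (fun t : ℝ => Ad (C.e (t • s • x))) (s • a x) 0 := by
      have h3 := hasDerivAt_exp_smul_const (𝕂 := ℝ) (s • a x) 0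
      rw [zero_smul, NormedSpace.exp_zero, one_mul] at h3
      refine h3.congr_of_eventuallyEq (Eventually.of_forall fun t => ?_)
      show Ad (C.e (t • s • x)) = NormedSpace.exp (t • s • a x)
      rw [smul_smul, smul_smul]
      exact ha x (t * s)
    exact h1.unique h2
  let A : E →ₗ[ℝ] (E →L[ℝ] E) :=
    { toFun := a
      map_add' := hadd
      map_smul' := by intro s x; simpa using hsmul s x }
  refine ⟨LinearMap.toContinuousLinearMap A, fun x => ?_⟩
  have h := ha x 1
  rw [one_smul, one_smul] at h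
  rw [h]
  rfl

end Pool.Agent.W880.GY
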