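import Pool.Agent.W880.GY.Stm

set_option autoImplicit false

namespace Pool.Agent.W880.GY

open Pool.Agent.W660.FL Pool.Agent.W660.GY
open Filter Topology

namespace A2

variable {G : Type} [Group G] [TopologicalSpace G] [IsTopologicalGroup G] {ν : G → ℝ}

theorem nn (hν : IsGleason ν) (g : G) : 0 ≤ ν g := by
  by_cases h : g = 1
  · rw [h, hν.one]
  · exact (hν.pos g h).le

theorem npow (hν : IsGleason ν) (g : G) (n : ℕ) : ν (g ^ n) ≤ n * ν g := by
  induction n with
  | zero => simp [hν.one]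
  | succ n ih =>
    rw [pow_succ]
    push_cast
    have := hν.mul (g ^ n) g
    linarith

/-- the error term -/
def rr (g h : G) (n : ℕ) : G := (g ^ n * h ^ n)⁻¹ * (g * h) ^ n

omit [TopologicalSpace G] [IsTopologicalGroup G] in
theorem rr_succ (g h : G) (n : ℕ) : rr g h (n + 1) =
    ((h ^ (n + 1))⁻¹ * (g⁻¹ * h ^ n * (g⁻¹)⁻¹ * (h ^ n)⁻¹) * ((h ^ (n + 1))⁻¹)⁻¹) *
      ((g * h)⁻¹ * rr g h n * ((g * h)⁻¹)⁻¹) := by
  unfold rr
  rw [pow_succ (g * h) n, pow_succ' g n, pow_succ h n]
  group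

end A2

open A2 in
theorem t_A2 : S_CJ → S_A2 := by
  intro hCJ G _ _ _ ν hν
  obtain ⟨C, hC, hcj⟩ := hCJ G ν hν
  refine ⟨1 / (4 * C), by positivity, 6 * C, by positivity, ?_⟩
  intro g h n hn
  set a := ν g with ha
  set b := ν h with hb
  have ha0 : 0 ≤ a := nn hν g
  have hb0 : 0 ≤ b := nn hν h
  set s := a + b with hs
  have hs0 : 0 ≤ s := by positivity
  have hgh : ν (g * h) ≤ s := hν.mul g h
  have hrb : ∀ k : ℕ, ν (rr g h k) ≤ 2 * (k * s) := by
    intro k
    have h1 := hν.mul ((g ^ k * h ^ k)⁻¹) ((g * h) ^ k)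
    rw [hν.inv] at h1
    have h2 := hν.mul (g ^ k) (h ^ k)
    have h3 := npow hν g k
    have h4 := npow hν h k
    have h5 := npow hν (g * h) k
    have h6 : (k : ℝ) * ν (g * h) ≤ k * s := mul_le_mul_of_nonneg_left hgh (Nat.cast_nonneg k)
    unfold rr
    have : (k : ℝ) * s = k * a + k * b := by rw [hs]; ring
    linarith
  have hCe : C * (1 / (4 * C)) = 1 / 4 := by field_simp
  have key : ∀ k : ℕ, k ≤ n → ν (rr g h k) ≤ 2 * C * (k : ℝ) ^ 2 * a * b * (1 + C * s) ^ k := by
    intro k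
    induction k with
    | zero =>
      intro _
      simp [rr, hν.one]
    | succ k ih =>
      intro hk
      have ihk := ih (by omega)
      have hks : ((k : ℝ) + 1) * s ≤ 1 / (4 * C) := by
        refine le_trans ?_ hn
        apply mul_le_mul_of_nonneg_right _ hs0
        exact_mod_cast hk
      have hk0 : (0 : ℝ) ≤ k := Nat.cast_nonneg k
      have hCks : C * (((k : ℝ) + 1) * s) ≤ 1 / 4 := by
        rw [← hCe]; exact mul_le_mul_of_nonneg_left hks hC.le
      have hsle : s ≤ ((k : ℝ) + 1) * s := by nlinarith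
      have hCs : C * s ≤ 1 / 4 := le_trans (mul_le_mul_of_nonneg_left hsle hC.le) hCks
      have toC : ∀ x : ℝ, C * x ≤ 1 → x ≤ 1 / C := by
        intro x hx
        rw [le_div_iff₀ hC]; linarith [mul_comm C x]
      -- the conjugated error term
      have e1 : ν ((g * h)⁻¹ * rr g h k * ((g * h)⁻¹)⁻¹) ≤ (1 + C * s) * ν (rr g h k) := by
        have hx : ν ((g * h)⁻¹) ≤ s := by rw [hν.inv]; exact hgh
        have hr2 : C * ν (rr g h k) ≤ 1 := by
          have := hrb k
          have h3 : C * ν (rr g h k) ≤ C * (2 * (k * s)) := mul_le_mul_of_nonneg_left this hC.le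
          have h4 : C * (2 * (k * s)) ≤ 2 * (C * (((k : ℝ) + 1) * s)) := by
            have : (k : ℝ) * s ≤ ((k : ℝ) + 1) * s := by nlinarith
            nlinarith
          linarith
        have := (hcj ((g * h)⁻¹) (rr g h k) (toC _ (by nlinarith)) (toC _ hr2)).1
        refine this.trans ?_
        apply mul_le_mul_of_nonneg_right _ (nn hν _)
        nlinarith
      -- the commutator
      have hhk : ν (h ^ k) ≤ k * b := npow hν h k
      have hkb : (k : ℝ) * b ≤ ((k : ℝ) + 1) * s := by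
        have h1 : b ≤ s := by rw [hs]; linarith
        nlinarith
      have ha1 : a ≤ ((k : ℝ) + 1) * s := by
        have h1 : a ≤ s := by rw [hs]; linarith
        linarith
      have e2 : ν (g⁻¹ * h ^ k * (g⁻¹)⁻¹ * (h ^ k)⁻¹) ≤ C * a * (k * b) := by
        have h1 : C * ν g⁻¹ ≤ 1 := by
          rw [hν.inv]
          have : C * a ≤ C * (((k : ℝ) + 1) * s) := mul_le_mul_of_nonneg_left ha1 hC.le
          linarith
        have h2 : C * ν (h ^ k) ≤ 1 := by
          have h3 : C * ν (h ^ k) ≤ C * (k * b) := mul_le_mul_of_nonneg_left hhk hC.le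
          have h4 : C * (k * b) ≤ C * (((k : ℝ) + 1) * s) := mul_le_mul_of_nonneg_left hkb hC.le
          linarith
        have h3 := (hcj g⁻¹ (h ^ k) (toC _ h1) (toC _ h2)).2.2
        rw [hν.inv] at h3
        refine h3.trans ?_
        exact mul_le_mul_of_nonneg_left hhk (by positivity)
      have e3 : ν ((h ^ (k + 1))⁻¹ * (g⁻¹ * h ^ k * (g⁻¹)⁻¹ * (h ^ k)⁻¹) *
          ((h ^ (k + 1))⁻¹)⁻¹) ≤ 2 * (C * a * (k * b)) := by
        have h1 : C * ν ((h ^ (k + 1))⁻¹) ≤ 1 := by
          rw [hν.inv]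
          have h2 := npow hν h (k + 1)
          push_cast at h2
          have h3 : ((k : ℝ) + 1) * b ≤ ((k : ℝ) + 1) * s := by
            apply mul_le_mul_of_nonneg_left _ (by positivity)
            rw [hs]; linarith
          have h4 : C * ν (h ^ (k + 1)) ≤ C * (((k : ℝ) + 1) * s) :=
            mul_le_mul_of_nonneg_left (h2.trans h3) hC.le
          linarith
        have h5 : C * ν (g⁻¹ * h ^ k * (g⁻¹)⁻¹ * (h ^ k)⁻¹) ≤ 1 := by
          have h6 : C * ν (g⁻¹ * h ^ k * (g⁻¹)⁻¹ * (h ^ k)⁻¹) ≤ (C * a) * (C * (k * b)) := by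
            have := mul_le_mul_of_nonneg_left e2 hC.le
            linarith
          have h7 : C * a ≤ 1 / 4 := by
            have : C * a ≤ C * (((k : ℝ) + 1) * s) := mul_le_mul_of_nonneg_left ha1 hC.le
            linarith
          have h8 : C * (k * b) ≤ 1 / 4 := by
            have : C * (k * b) ≤ C * (((k : ℝ) + 1) * s) := mul_le_mul_of_nonneg_left hkb hC.le
            linarith
          have h9 : 0 ≤ C * a := by positivity
          have h10 : 0 ≤ C * (k * b) := by positivity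
          nlinarith
        have h11 := (hcj ((h ^ (k + 1))⁻¹) (g⁻¹ * h ^ k * (g⁻¹)⁻¹ * (h ^ k)⁻¹)
          (toC _ h1) (toC _ h5)).1
        refine h11.trans ?_
        have h12 : (1 + C * ν ((h ^ (k + 1))⁻¹)) * ν (g⁻¹ * h ^ k * (g⁻¹)⁻¹ * (h ^ k)⁻¹) ≤
            2 * ν (g⁻¹ * h ^ k * (g⁻¹)⁻¹ * (h ^ k)⁻¹) := by
          apply mul_le_mul_of_nonneg_right _ (nn hν _)
          linarith
        linarith
      have e4 : ν (rr g h (k + 1)) ≤ 2 * (C * a * (k * b)) + (1 + C * s) * ν (rr g h k) := by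
        rw [rr_succ]
        exact (hν.mul _ _).trans (add_le_add e3 e1)
      have h1Cs : 1 ≤ 1 + C * s := by nlinarith
      have hp : 1 ≤ (1 + C * s) ^ (k + 1) := one_le_pow₀ h1Cs
      have e5 : (1 + C * s) * ν (rr g h k) ≤
          2 * C * (k : ℝ) ^ 2 * a * b * (1 + C * s) ^ (k + 1) := by
        have := mul_le_mul_of_nonneg_left ihk (by linarith : (0 : ℝ) ≤ 1 + C * s)
        refine this.trans (le_of_eq ?_)
        rw [pow_succ]; ring
      have e6 : 2 * (C * a * (k * b)) ≤ 2 * C * (k : ℝ) * a * b * (1 + C * s) ^ (k + 1) := by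
        have hq : 0 ≤ 2 * C * (k : ℝ) * a * b := by positivity
        have := mul_le_mul_of_nonneg_left hp hq
        linarith
      refine (e4.trans (add_le_add e6 e5)).trans ?_
      push_cast
      have hq : 0 ≤ 2 * C * a * b * (1 + C * s) ^ (k + 1) * ((k : ℝ) + 1) := by positivity
      have : 2 * C * ((k : ℝ) + 1) ^ 2 * a * b * (1 + C * s) ^ (k + 1) -
          (2 * C * (k : ℝ) * a * b * (1 + C * s) ^ (k + 1) +
            2 * C * (k : ℝ) ^ 2 * a * b * (1 + C * s) ^ (k + 1)) =
          2 * C * a * b * (1 + C * s) ^ (k + 1) * ((k : ℝ) + 1) := by ring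
      linarith
  have hfin := key n le_rfl
  have hexp : (1 + C * s) ^ n ≤ 3 := by
    have h1 : 1 + C * s ≤ Real.exp (C * s) := by
      have := Real.add_one_le_exp (C * s)
      linarith
    have h2 : (1 + C * s) ^ n ≤ Real.exp (C * s) ^ n := pow_le_pow_left₀ (by nlinarith) h1 n
    rw [← Real.exp_nat_mul] at h2
    have h3 : (n : ℝ) * (C * s) ≤ 1 := by
      have : C * (n * s) ≤ C * (1 / (4 * C)) := mul_le_mul_of_nonneg_left hn hC.le
      rw [hCe] at this
      have h4 : (n : ℝ) * (C * s) = C * (n * s) := by ring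
      linarith
    have h5 : Real.exp ((n : ℝ) * (C * s)) ≤ Real.exp 1 := Real.exp_le_exp.2 h3
    have h6 := Real.exp_one_lt_d9
    linarith
  have hq : 0 ≤ 2 * C * (n : ℝ) ^ 2 * a * b := by positivity
  have := mul_le_mul_of_nonneg_left hexp hq
  unfold rr at hfin
  linarith

end Pool.Agent.W880.GY
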