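import Pool.Agent.W880.GY.Stm

set_option autoImplicit false

namespace Pool.Agent.W880.GY

open Pool.Agent.W660.FL Pool.Agent.W660.GY
open Filter Topology
open scoped Manifold ContDiff

namespace IC

variable {G : Type} [Group G] [TopologicalSpace G] {E : Type}
  [NormedAddCommGroup E] [NormedSpace ℝ E]

lemma zero_mem (C : CS G E) : (0 : E) ∈ C.κ.target := by
  have := C.κ.map_source C.one_mem
  rwa [C.map_one] at this

lemma nhds_target (C : CS G E) : C.κ.target ∈ 𝓝 (0 : E) :=
  C.κ.open_target.mem_nhds (zero_mem C)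

lemma kap (C : CS G E) {x : E} (hx : x ∈ C.κ.target) : C.κ (C.e x) = x := by
  rw [← C.symm x]
  exact C.κ.right_inv hx

lemma inv_e (C : CS G E) (a : E) : (C.e a)⁻¹ = C.e (-a) := by
  have h := C.one a
  have h1 : C.e ((1 + -1 : ℝ) • a) = C.e ((1 : ℝ) • a) * C.e ((-1 : ℝ) • a) := h.2 1 (-1)
  have h0 : C.e ((0 : ℝ) • a) = 1 := by
    have h2 : C.e ((0 + 0 : ℝ) • a) = C.e ((0 : ℝ) • a) * C.e ((0 : ℝ) • a) := h.2 0 0
    rw [add_zero] at h2
    exact (left_eq_mul.1 h2)
  rw [add_neg_cancel, h0, one_smul, neg_one_smul] at h1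
  exact (eq_inv_of_mul_eq_one_right h1.symm).symm

end IC

theorem t_IC : S_IC := by
  intro G _ _ _ E _ _ _ C Ad hAd
  have ht := IC.nhds_target C
  refine ⟨?_, ?_⟩
  · have hev : (fun a : E => C.κ (C.κ.symm a)⁻¹) =ᶠ[𝓝 0] (fun a : E => -a) := by
      have hc : Tendsto (fun a : E => -a) (𝓝 0) (𝓝 0) := by
        simpa using (continuous_neg (G := E)).tendsto 0
      filter_upwards [hc ht] with a ha
      rw [C.symm, IC.inv_e]
      exact IC.kap C ha
    exact (contDiff_neg.contDiffAt).congr_of_eventuallyEq hev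
  · intro g
    have hev : (fun a : E => C.κ (g * C.κ.symm a * g⁻¹)) =ᶠ[𝓝 0] (fun a : E => Ad g a) := by
      have hc : Tendsto (fun a : E => Ad g a) (𝓝 0) (𝓝 0) := by
        simpa using (Ad g).continuous.tendsto 0
      filter_upwards [hc ht] with a ha
      rw [C.symm, hAd g a]
      exact IC.kap C ha
    exact ((Ad g).contDiff.contDiffAt).congr_of_eventuallyEq hev

end Pool.Agent.W880.GY
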