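import Pool.Agent.W660.GY.Stm

/-!
Part 1 of the Gleason-Yamabe theorem: a locally compact group with a Gleason norm has a Lie chart.
Statements of the parts.
-/

set_option autoImplicit false

namespace Pool.Agent.W880.GY

open Pool.Agent.W660.FL Pool.Agent.W660.GY
open Filter Topology
open scoped Manifold ContDiff

/-- tangency at `0` from the right -/
def Tn {G : Type} [Group G] (ν : G → ℝ) (f g : ℝ → G) : Prop :=
  ∀ ε > 0, ∃ δ > 0, ∀ t : ℝ, 0 < t → t < δ → ν ((f t)⁻¹ * g t) ≤ ε * t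

/-- norm of a one-parameter subgroup -/
noncomputable def nr {G : Type} (ν : G → ℝ) (X : ℝ → G) : ℝ := ⨆ t : {t : ℝ // 0 < t}, ν (X t) / t

/-- basic topology -/
def S_BASE : Prop := ∀ (G : Type) [Group G] [TopologicalSpace G] [IsTopologicalGroup G] [T2Space G]
  [LocallyCompactSpace G] (ν : G → ℝ), IsGleason ν →
  Continuous ν ∧ (∃ ρ > 0, IsCompact {g | ν g ≤ ρ}) ∧ (∀ g, 0 ≤ ν g) ∧
  (∀ (ι : Type) (l : Filter ι) (f : ι → G) (g : G),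
    Tendsto f l (𝓝 g) ↔ Tendsto (fun i => ν (g⁻¹ * f i)) l (𝓝 0))

/-- conjugation by small elements -/
def S_CJ : Prop := ∀ (G : Type) [Group G] [TopologicalSpace G] [IsTopologicalGroup G]
  (ν : G → ℝ), IsGleason ν → ∃ C > 0, ∀ g h : G, ν g ≤ 1 / C → ν h ≤ 1 / C →
  ν (g * h * g⁻¹) ≤ (1 + C * ν g) * ν h ∧ ν ((g * h)⁻¹ * (h * g)) ≤ C * ν g * ν h ∧
  ν (g * h * g⁻¹ * h⁻¹) ≤ C * ν g * ν h

/-- powers of products -/
def S_A2 : Prop := ∀ (G : Type) [Group G] [TopologicalSpace G] [IsTopologicalGroup G]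
  (ν : G → ℝ), IsGleason ν → ∃ ε > 0, ∃ K > 0, ∀ (g h : G) (n : ℕ), n * (ν g + ν h) ≤ ε →
  ν ((g ^ n * h ^ n)⁻¹ * (g * h) ^ n) ≤ K * (n : ℝ) ^ 2 * ν g * ν h

/-- distance of powers -/
def S_A3 : Prop := ∀ (G : Type) [Group G] [TopologicalSpace G] [IsTopologicalGroup G]
  (ν : G → ℝ), IsGleason ν → ∃ ε > 0, ∃ K > 0, ∀ (g h : G) (n : ℕ), n * (ν g + ν h) ≤ ε →
  n * ν (g⁻¹ * h) ≤ K * ν ((g ^ n)⁻¹ * h ^ n) ∧ ν ((g ^ n)⁻¹ * h ^ n) ≤ K * (n * ν (g⁻¹ * h))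

/-- limits of powers of small elements are one-parameter subgroups -/
def S_GL : Prop := ∀ (G : Type) [Group G] [TopologicalSpace G] [IsTopologicalGroup G] [T2Space G]
  [LocallyCompactSpace G] (ν : G → ℝ), IsGleason ν →
  ∀ (ι : Type) (F : Ultrafilter ι) (g : ι → G) (N : ι → ℝ) (M : ℝ),
  Tendsto N (F : Filter ι) atTop → (∀ i, N i * ν (g i) ≤ M) →
  ∃ X : ℝ → G, IsOne X ∧ (∀ t, ν (X t) ≤ M * |t|) ∧
    ∀ t, Tendsto (fun i => (g i) ^ ⌊N i * t⌋) (F : Filter ι) (𝓝 (X t))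

/-- one-parameter subgroups are Lipschitz -/
def S_N1 : Prop := ∀ (G : Type) [Group G] [TopologicalSpace G] [IsTopologicalGroup G] [T2Space G]
  [LocallyCompactSpace G] (ν : G → ℝ), IsGleason ν →
  ∀ X : ℝ → G, IsOne X → ∃ M, 0 ≤ M ∧ ∀ t, ν (X t) ≤ M * |t|

/-- the norm -/
def S_N2 : Prop := ∀ (G : Type) [Group G] [TopologicalSpace G] [IsTopologicalGroup G] [T2Space G]
  [LocallyCompactSpace G] (ν : G → ℝ), IsGleason ν →
  ∀ X : ℝ → G, IsOne X → 0 ≤ nr ν X ∧ (∀ t, ν (X t) ≤ nr ν X * |t|) ∧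
    Tendsto (fun t => ν (X t) / t) (𝓝[>] 0) (𝓝 (nr ν X)) ∧
    (∀ M, (∀ t > 0, ν (X t) ≤ M * t) → nr ν X ≤ M) ∧
    (nr ν X = 0 → ∀ t, X t = 1) ∧ ∀ s : ℝ, nr ν (fun t => X (s * t)) = |s| * nr ν X

/-- tangent one-parameter subgroups are equal -/
def S_T1 : Prop := ∀ (G : Type) [Group G] [TopologicalSpace G] [IsTopologicalGroup G] [T2Space G]
  [LocallyCompactSpace G] (ν : G → ℝ), IsGleason ν →
  ∀ X Y : ℝ → G, IsOne X → IsOne Y → Tn ν X Y → X = Y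

/-- existence of sums -/
def S_T2 : Prop := ∀ (G : Type) [Group G] [TopologicalSpace G] [IsTopologicalGroup G] [T2Space G]
  [LocallyCompactSpace G] (ν : G → ℝ), IsGleason ν →
  ∃ ε > 0, ∃ K > 0, ∀ X Y : ℝ → G, IsOne X → IsOne Y → ∃ Z : ℝ → G, IsOne Z ∧
    nr ν Z ≤ nr ν X + nr ν Y ∧ ∀ t : ℝ, 0 ≤ t → t * (nr ν X + nr ν Y) ≤ ε →
      ν ((X t * Y t)⁻¹ * Z t) ≤ K * t ^ 2 * nr ν X * nr ν Y

/-- `Z` is a sum of `X` and `Y` -/
def Sm2 {G : Type} [Group G] (ν : G → ℝ) (X Y Z : ℝ → G) : Prop := Tn ν (fun t => X t * Y t) Z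

/-- commutativity and associativity of sums -/
def S_TC : Prop := ∀ (G : Type) [Group G] [TopologicalSpace G] [IsTopologicalGroup G] [T2Space G]
  [LocallyCompactSpace G] (ν : G → ℝ), IsGleason ν →
  (∀ X Y Z : ℝ → G, IsOne X → IsOne Y → IsOne Z → Sm2 ν X Y Z → Sm2 ν Y X Z) ∧
  (∀ X Y Z W U V T : ℝ → G, IsOne X → IsOne Y → IsOne Z → IsOne W → IsOne U → IsOne V →
    IsOne T → Sm2 ν X Y W → Sm2 ν W Z U → Sm2 ν Y Z V → Sm2 ν X V T → U = T)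

/-- the space of one-parameter subgroups as a normed space -/
structure LS {G : Type} [Group G] [TopologicalSpace G] (ν : G → ℝ) (E : Type)
    [NormedAddCommGroup E] [NormedSpace ℝ E] where
  ev : E → ℝ → G
  one : ∀ x, IsOne (ev x)
  surj : ∀ γ : ℝ → G, IsOne γ → ∃ x, ev x = γ
  inj : Function.Injective ev
  smul : ∀ (s : ℝ) (x : E) (t : ℝ), ev (s • x) t = ev x (s * t)
  add : ∀ x y, Sm2 ν (ev x) (ev y) (ev (x + y))
  norm : ∀ x, ‖x‖ = nr ν (ev x)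

def S_VS : Prop := ∀ (G : Type) [Group G] [TopologicalSpace G] [IsTopologicalGroup G] [T2Space G]
  [LocallyCompactSpace G] (ν : G → ℝ), IsGleason ν →
  ∃ (E : Type) (_ : NormedAddCommGroup E) (_ : NormedSpace ℝ E), Nonempty (LS ν E)

/-- `exp x exp y` and `exp (x + y)` -/
def S_LE : Prop := ∀ (G : Type) [Group G] [TopologicalSpace G] [IsTopologicalGroup G] [T2Space G]
  [LocallyCompactSpace G] (ν : G → ℝ), IsGleason ν →
  ∀ (E : Type) [NormedAddCommGroup E] [NormedSpace ℝ E] (L : LS ν E),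
  ∃ ε > 0, ∃ K > 0, ∀ x y : E, ‖x‖ + ‖y‖ ≤ ε →
    ν ((L.ev x 1 * L.ev y 1)⁻¹ * L.ev (x + y) 1) ≤ K * ‖x‖ * ‖y‖

/-- `exp` is bi-Lipschitz near `0` -/
def S_BL : Prop := ∀ (G : Type) [Group G] [TopologicalSpace G] [IsTopologicalGroup G] [T2Space G]
  [LocallyCompactSpace G] (ν : G → ℝ), IsGleason ν →
  ∀ (E : Type) [NormedAddCommGroup E] [NormedSpace ℝ E] (L : LS ν E),
  ∃ ε > 0, ∃ K > 0, ∀ x y : E, ‖x‖ ≤ ε → ‖y‖ ≤ ε →
    ‖x - y‖ ≤ K * ν ((L.ev x 1)⁻¹ * L.ev y 1) ∧ ν ((L.ev x 1)⁻¹ * L.ev y 1) ≤ K * ‖x - y‖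

def S_FD : Prop := ∀ (G : Type) [Group G] [TopologicalSpace G] [IsTopologicalGroup G] [T2Space G]
  [LocallyCompactSpace G] (ν : G → ℝ), IsGleason ν →
  ∀ (E : Type) [NormedAddCommGroup E] [NormedSpace ℝ E], LS ν E → FiniteDimensional ℝ E

/-- `exp` is locally surjective -/
def S_SJ : Prop := ∀ (G : Type) [Group G] [TopologicalSpace G] [IsTopologicalGroup G] [T2Space G]
  [LocallyCompactSpace G] (ν : G → ℝ), IsGleason ν →
  ∀ (E : Type) [NormedAddCommGroup E] [NormedSpace ℝ E] (L : LS ν E),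
  ∀ r > 0, ∃ δ > 0, ∀ g : G, ν g < δ → ∃ x : E, ‖x‖ ≤ r ∧ L.ev x 1 = g

/-! ### Second half: from an exponential chart to smoothness -/

/-- exponential chart -/
structure CS (G : Type) [Group G] [TopologicalSpace G] (E : Type)
    [NormedAddCommGroup E] [NormedSpace ℝ E] where
  e : E → G
  κ : OpenPartialHomeomorph G E
  one_mem : (1 : G) ∈ κ.source
  map_one : κ 1 = 0
  symm : ∀ x, κ.symm x = e x
  one : ∀ x, IsOne (fun t : ℝ => e (t • x))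
  surj : ∀ γ : ℝ → G, IsOne γ → ∃ x, ∀ t : ℝ, γ t = e (t • x)
  inj : ∀ x y, (∀ t : ℝ, e (t • x) = e (t • y)) → x = y
  est : ∃ δ > 0, ∃ K > 0, ∀ x y : E, ‖x‖ < δ → ‖y‖ < δ →
    e x * e y ∈ κ.source ∧ ‖κ (e x * e y) - (x + y)‖ ≤ K * ‖x‖ * ‖y‖

def S_CS : Prop := ∀ (G : Type) [Group G] [TopologicalSpace G] [IsTopologicalGroup G] [T2Space G]
  [LocallyCompactSpace G] (ν : G → ℝ), IsGleason ν →
  ∀ (E : Type) [NormedAddCommGroup E] [NormedSpace ℝ E], LS ν E → Nonempty (CS G E)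

section Half2

/-- a small ray cannot leave a small ball -/
def S_KEY : Prop := ∀ (G : Type) [Group G] [TopologicalSpace G] [IsTopologicalGroup G] (E : Type)
  [NormedAddCommGroup E] [NormedSpace ℝ E] [FiniteDimensional ℝ E] (C : CS G E),
  ∃ δ₀ > 0, Metric.ball (0 : E) δ₀ ⊆ C.κ.target ∧ ∀ δ, 0 < δ → δ ≤ δ₀ → ∀ y : E,
    (∀ k : ℕ, ∃ z : E, ‖z‖ < δ ∧ C.e ((1 / 2 : ℝ) ^ k • y) = C.e z) → ‖y‖ < δ

/-- conjugation in the exponential chart: homogeneous and continuous -/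
def S_AD1 : Prop := ∀ (G : Type) [Group G] [TopologicalSpace G] [IsTopologicalGroup G] (E : Type)
  [NormedAddCommGroup E] [NormedSpace ℝ E] [FiniteDimensional ℝ E] (C : CS G E),
  ∃ A : G → E → E, (∀ g x, g * C.e x * g⁻¹ = C.e (A g x)) ∧
    (∀ g (s : ℝ) x, A g (s • x) = s • A g x) ∧ (∀ g h x, A (g * h) x = A g (A h x)) ∧
    (∀ x, A 1 x = x) ∧ ∀ g, Continuous (A g)

/-- the adjoint representation -/
def IsAd {G : Type} [Group G] [TopologicalSpace G] {E : Type}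
    [NormedAddCommGroup E] [NormedSpace ℝ E] (C : CS G E) (Ad : G →* (E →L[ℝ] E)) : Prop :=
  ∀ g x, g * C.e x * g⁻¹ = C.e (Ad g x)

def S_AD : Prop := ∀ (G : Type) [Group G] [TopologicalSpace G] [IsTopologicalGroup G] (E : Type)
  [NormedAddCommGroup E] [NormedSpace ℝ E] [FiniteDimensional ℝ E] (C : CS G E),
  ∃ Ad : G →* (E →L[ℝ] E), IsAd C Ad

/-- `Ad (exp x) = 1 + O(|x|)` -/
def S_AO : Prop := ∀ (G : Type) [Group G] [TopologicalSpace G] [IsTopologicalGroup G] (E : Type)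
  [NormedAddCommGroup E] [NormedSpace ℝ E] [FiniteDimensional ℝ E] (C : CS G E)
  (Ad : G →* (E →L[ℝ] E)), IsAd C Ad →
  ∃ δ > 0, ∃ K > 0, ∀ x, ‖x‖ < δ → ‖Ad (C.e x) - 1‖ ≤ K * ‖x‖

/-- one-parameter groups in a Banach algebra -/
def S_ONEP : Prop := ∀ (E : Type) [NormedAddCommGroup E] [NormedSpace ℝ E] [FiniteDimensional ℝ E]
  (T : ℝ → (E →L[ℝ] E)), Continuous T → T 0 = 1 → (∀ s t, T (s + t) = T s * T t) →
  ∃ A : E →L[ℝ] E, ∀ t : ℝ, T t = NormedSpace.exp (t • A)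

/-- `ad` -/
def Isad {G : Type} [Group G] [TopologicalSpace G] {E : Type}
    [NormedAddCommGroup E] [NormedSpace ℝ E] (C : CS G E) (Ad : G →* (E →L[ℝ] E))
    (ad : E →L[ℝ] (E →L[ℝ] E)) : Prop := ∀ x, Ad (C.e x) = NormedSpace.exp (ad x)

def S_ad : Prop := ∀ (G : Type) [Group G] [TopologicalSpace G] [IsTopologicalGroup G] (E : Type)
  [NormedAddCommGroup E] [NormedSpace ℝ E] [FiniteDimensional ℝ E] (C : CS G E)
  (Ad : G →* (E →L[ℝ] E)), IsAd C Ad → ∃ ad : E →L[ℝ] (E →L[ℝ] E), Isad C Ad ad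

/-- `φ A = ∫_0^1 exp (s A) ds` as a limit of Riemann sums -/
def IsPhi {E : Type} [NormedAddCommGroup E] [NormedSpace ℝ E]
    (φ : (E →L[ℝ] E) → (E →L[ℝ] E)) : Prop :=
  ContDiff ℝ ∞ φ ∧ φ 0 = 1 ∧ ∀ A, Tendsto (fun n : ℕ => ((n : ℝ))⁻¹ •
    ∑ k ∈ Finset.range n, NormedSpace.exp ((k / n : ℝ) • A)) atTop (𝓝 (φ A))

def S_PHI : Prop := ∀ (E : Type) [NormedAddCommGroup E] [NormedSpace ℝ E] [FiniteDimensional ℝ E],
  ∃ φ : (E →L[ℝ] E) → (E →L[ℝ] E), IsPhi φ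

/-- products of many small elements -/
def S_PROD : Prop := ∀ (G : Type) [Group G] [TopologicalSpace G] [IsTopologicalGroup G] (E : Type)
  [NormedAddCommGroup E] [NormedSpace ℝ E] [FiniteDimensional ℝ E] (C : CS G E),
  ∃ δ > 0, ∃ K > 0, ∀ (a : ℕ → E) (P : ℕ → G), P 0 = 1 → (∀ k, P (k + 1) = P k * C.e (a k)) →
    ∀ n, ∑ k ∈ Finset.range n, ‖a k‖ ≤ δ → P n ∈ C.κ.source ∧
      ‖C.κ (P n) - ∑ k ∈ Finset.range n, a k‖ ≤ K * (∑ k ∈ Finset.range n, ‖a k‖) ^ 2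

/-- derivative of the exponential map -/
def S_DEXP : Prop := ∀ (G : Type) [Group G] [TopologicalSpace G] [IsTopologicalGroup G] (E : Type)
  [NormedAddCommGroup E] [NormedSpace ℝ E] [FiniteDimensional ℝ E] (C : CS G E)
  (Ad : G →* (E →L[ℝ] E)) (ad : E →L[ℝ] (E →L[ℝ] E)) (φ : (E →L[ℝ] E) → (E →L[ℝ] E)),
  IsAd C Ad → Isad C Ad ad → IsPhi φ →
  ∃ δ > 0, ∃ K > 0, ∀ x v : E, ‖x‖ < δ → ‖v‖ < δ → C.e (x + v) * C.e (-x) ∈ C.κ.source ∧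
    ‖C.κ (C.e (x + v) * C.e (-x)) - φ (ad x) v‖ ≤ K * ‖v‖ ^ 2

/-- left translations -/
def S_LEFT : Prop := ∀ (G : Type) [Group G] [TopologicalSpace G] [IsTopologicalGroup G] (E : Type)
  [NormedAddCommGroup E] [NormedSpace ℝ E] [FiniteDimensional ℝ E] (C : CS G E)
  (Ad : G →* (E →L[ℝ] E)) (ad : E →L[ℝ] (E →L[ℝ] E)) (φ : (E →L[ℝ] E) → (E →L[ℝ] E)),
  IsAd C Ad → Isad C Ad ad → IsPhi φ →
  ∃ δ > 0, ∃ K > 0, ∀ a w : E, ‖a‖ < δ → ‖w‖ < δ → IsUnit (φ (ad w)) ∧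
    ‖C.κ (C.e a * C.e w) - w - Ring.inverse (φ (ad w)) a‖ ≤ K * ‖a‖ ^ 2

/-- derivative of the multiplication -/
def S_DER : Prop := ∀ (G : Type) [Group G] [TopologicalSpace G] [IsTopologicalGroup G] (E : Type)
  [NormedAddCommGroup E] [NormedSpace ℝ E] [FiniteDimensional ℝ E] (C : CS G E)
  (Ad : G →* (E →L[ℝ] E)) (ad : E →L[ℝ] (E →L[ℝ] E)) (φ : (E →L[ℝ] E) → (E →L[ℝ] E)),
  IsAd C Ad → Isad C Ad ad → IsPhi φ →
  ∃ δ > 0, ∀ x y : E, ‖x‖ < δ → ‖y‖ < δ →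
    HasFDerivAt (fun p : E × E => C.κ (C.e p.1 * C.e p.2))
      ((Ring.inverse (φ (ad (C.κ (C.e x * C.e y))))).comp
        ((φ (ad x)).comp (ContinuousLinearMap.fst ℝ E E) +
          ((NormedSpace.exp (ad x)).comp (φ (ad y))).comp (ContinuousLinearMap.snd ℝ E E)))
      (x, y)

/-- bootstrapping -/
def S_BOOT : Prop := ∀ (E F : Type) [NormedAddCommGroup E] [NormedSpace ℝ E]
  [NormedAddCommGroup F] [NormedSpace ℝ F] (m : F → E) (Ψ : F → E → (F →L[ℝ] E)) (δ : ℝ),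
  0 < δ → (∀ p : F, ‖p‖ < δ → HasFDerivAt m (Ψ p (m p)) p) →
  (∀ p : F, ‖p‖ < δ → ContDiffAt ℝ ∞ (fun q : F × E => Ψ q.1 q.2) (p, m p)) →
  ContDiffAt ℝ ∞ m 0

/-- smoothness of the multiplication -/
def S_MUL : Prop := ∀ (G : Type) [Group G] [TopologicalSpace G] [IsTopologicalGroup G] (E : Type)
  [NormedAddCommGroup E] [NormedSpace ℝ E] [FiniteDimensional ℝ E] (C : CS G E)
  (Ad : G →* (E →L[ℝ] E)) (ad : E →L[ℝ] (E →L[ℝ] E)) (φ : (E →L[ℝ] E) → (E →L[ℝ] E)),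
  IsAd C Ad → Isad C Ad ad → IsPhi φ →
  ContDiffAt ℝ ∞ (fun p : E × E => C.κ (C.κ.symm p.1 * C.κ.symm p.2)) (0, 0)

/-- inversion and conjugation -/
def S_IC : Prop := ∀ (G : Type) [Group G] [TopologicalSpace G] [IsTopologicalGroup G] (E : Type)
  [NormedAddCommGroup E] [NormedSpace ℝ E] [FiniteDimensional ℝ E] (C : CS G E)
  (Ad : G →* (E →L[ℝ] E)), IsAd C Ad →
  ContDiffAt ℝ ∞ (fun a : E => C.κ (C.κ.symm a)⁻¹) 0 ∧
  ∀ g : G, ContDiffAt ℝ ∞ (fun a : E => C.κ (g * C.κ.symm a * g⁻¹)) 0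

/-- the second half -/
def S_H2 : Prop := ∀ (G : Type) [Group G] [TopologicalSpace G] [IsTopologicalGroup G] (E : Type)
  [NormedAddCommGroup E] [NormedSpace ℝ E] [FiniteDimensional ℝ E], CS G E →
  Nonempty (LieChart G E)

end Half2

end Pool.Agent.W880.GY
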